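import Mathlib

/-!
# Searching a half-line with a faulty searcher: definitions
-/

open Finset Filter Topology
open scoped ENNReal

namespace Pool.Agent.KS6_42.HS

/-- `t 0, t 1, t 2, ...` are the turning points of a trajectory on the half-line `[0, ∞)`: it starts
at `0`, moves outward from `t (2 i)` to `t (2 i + 1)` and inward from `t (2 i + 1)` to
`t (2 i + 2)`. -/
def IsTraj (t : ℕ → ℝ) : Prop :=
  t 0 = 0 ∧ (∀ i, 0 ≤ t i) ∧ (∀ i, t (2 * i) < t (2 * i + 1)) ∧
    ∀ i, t (2 * i + 2) < t (2 * i + 1)

/-- The time at which the turning point `t k` is reached, at unit speed. -/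
noncomputable def time (t : ℕ → ℝ) (k : ℕ) : ℝ := ∑ j ∈ range k, |t (j + 1) - t j|

/-- The probability that a treasure at `d`, not detected before, is detected during the move from
the turning point `u` to the turning point `v`: it is `1` if `d` is the turning point `v`, it is `p`
if the searcher passes over `d`, and `0` otherwise. -/
noncomputable def det (p u v d : ℝ) : ℝ :=
  if v = d then 1 else if (u < d ∧ d < v) ∨ (v < d ∧ d < u) then p else 0

/-- The probability that a treasure at `d` is not detected during the first `k` moves. -/
noncomputable def surv (p : ℝ) (t : ℕ → ℝ) (d : ℝ) (k : ℕ) : ℝ :=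
  ∏ j ∈ range k, (1 - det p (t j) (t (j + 1)) d)

/-- Every treasure at distance `d ≥ 1` is found with probability one. -/
def Found (p : ℝ) (t : ℕ → ℝ) : Prop := ∀ d : ℝ, 1 ≤ d → Tendsto (surv p t d) atTop (𝓝 0)

/-- The expected time of the first detection of a treasure at `d`: the sum over the moves `k` of
the probability that the treasure is first detected during this move, times the time at which the
searcher is at `d` during this move. -/
noncomputable def expTime (p : ℝ) (t : ℕ → ℝ) (d : ℝ) : ℝ≥0∞ :=
  ∑' k, ENNReal.ofReal (surv p t d k * det p (t k) (t (k + 1)) d * (time t k + |d - t k|))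

/-- The competitive ratio of the trajectory `t`: the supremum over `d ≥ 1` of `p E(d) / d`. -/
noncomputable def ratio (p : ℝ) (t : ℕ → ℝ) : ℝ≥0∞ :=
  ⨆ (d : ℝ) (_ : 1 ≤ d), ENNReal.ofReal p * expTime p t d / ENNReal.ofReal d

end Pool.Agent.KS6_42.HS
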