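import Pool.Agent.KS6_42.HS.Near1

/-!
# A lower bound for large detection probabilities, part 2
-/

open Filter Topology MeasureTheory Set
open scoped ENNReal

namespace Pool.Agent.KS6_42.HS

variable {t : ℕ → ℝ} {p : ℝ}

/-- the two inequalities at a return -/
lemma two_ineq {C : ℝ} (hp : 0 < p) (hp1 : p < 1) (ht : IsTraj t) (hf : Found p t) (hC0 : 0 ≤ C)
    (hC : ratio p t ≤ ENNReal.ofReal C) (R : ℝ) (hR : 2 ≤ R) :
    ∃ c Z : ℝ, R < c ∧ c ≤ Z ∧ p * (3 * Z + 2 * c - 9) ≤ C * (Z + 1) ∧
      (c = Z ∨ p * (p * (3 * c - 6) + (1 - p) * (2 * Z + c - 7)) ≤ C * (c + 1)) := by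
  classical
  obtain ⟨y, i, a, i', hyi, hia, hai, hi, hi', hRy, hya, hmax⟩ := selection hp hp1 hf R
  have h00 : t 0 = 0 := ht.1
  -- the first inequality
  have keyb : ∀ c : ℝ, R < c → c ≤ t a →
      (∀ x, 2 < x → x < c → (∀ j, t j ≠ x) → 3 ≤ cnt t x a) →
      p * (3 * t a + 2 * c - 9) ≤ C * (t a + 1) := by
    intro c hRc hcZ hcov
    have hT : ((4 : ℕ) : ℝ) * (c - 2) + ((2 : ℕ) : ℝ) * (t a - c) ≤ time t i' := by
      refine time_ge (by linarith) hcZ 4 2 i' ?_ ?_
      · intro x hx1 hx2 hx
        have h1 := hcov x hx1 hx2 hx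
        have h2 := cross hx (by rw [h00]; linarith) hai (Or.inr ⟨by linarith, by linarith⟩)
        omega
      · intro x hx1 hx2 hx
        have h1 := cross hx (by rw [h00]; linarith) (Nat.zero_le a)
          (Or.inl ⟨by rw [h00]; linarith, hx2⟩)
        have h2 := cross hx (by rw [h00]; linarith) hai (Or.inr ⟨by linarith, hx2⟩)
        omega
    push_cast at hT
    have hbefore : ∀ n, n ≤ i' → Part p t (t a + 1) n = 0 ∧ surv p t (t a + 1) n = 1 := by
      intro n
      induction n with
      | zero => intro _; simp [Part, surv]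
      | succ n ih =>
        intro hn
        obtain ⟨i1, i2⟩ := ih (by omega)
        have a1 := hmax n (by omega)
        have a2 := hmax (n + 1) hn
        have e : det p (t n) (t (n + 1)) (t a + 1) = 0 := by
          unfold det
          rw [if_neg (by linarith), if_neg]
          rintro (h | h)
          · linarith [h.2]
          · linarith [h.2]
        rw [Part_succ, surv_succ, i1, i2, e]
        simp
    obtain ⟨b1, b2⟩ := hbefore i' le_rfl
    have h3 := expTime_ge hp.le hp1.le (hf (t a + 1) (by linarith)) i'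
    rw [b1, b2, zero_add, one_mul] at h3
    have h4 := ratio_ge hp hC0 hC (by linarith) h3
    have h5 : t a - 1 ≤ |t a + 1 - t i'| := by
      have := le_abs_self (t a + 1 - t i')
      linarith
    have h6 : p * (3 * t a + 2 * c - 9) ≤ p * (time t i' + |t a + 1 - t i'|) :=
      mul_le_mul_of_nonneg_left (by linarith) hp.le
    linarith
  -- points below the previous record
  have hbelow : ∀ x, 2 < x → x < t y → (∀ j, t j ≠ x) → 3 ≤ cnt t x a := by
    intro x hx1 hx2 hx
    have h0 : t 0 < x := by rw [h00]; linarith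
    have h1 := cross hx h0 (Nat.zero_le y) (Or.inl ⟨h0, hx2⟩)
    have h2 := cross hx h0 hyi (Or.inr ⟨by linarith, hx2⟩)
    have h3 := cross hx h0 hia.le (Or.inl ⟨by linarith, by linarith⟩)
    omega
  set U : Set ℝ := {x | t y < x ∧ x < t a ∧ (∀ j, t j ≠ x) ∧ cnt t x a < 3} with hU
  rcases U.eq_empty_or_nonempty with hUe | hUne
  · -- everything is covered
    have hcov : ∀ x, 2 < x → x < t a → (∀ j, t j ≠ x) → 3 ≤ cnt t x a := by
      intro x hx1 hx2 hx
      rcases lt_trichotomy x (t y) with h | h | h
      · exact hbelow x hx1 h hx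
      · exact absurd h.symm (hx y)
      · by_contra hlt
        have : x ∈ U := ⟨h, hx2, hx, by omega⟩
        rw [hUe] at this
        exact this
    exact ⟨t a, t a, by linarith, le_rfl, keyb (t a) (by linarith) le_rfl hcov, Or.inl rfl⟩
  · have hbdd : BddBelow U := ⟨t y, fun x hx => hx.1.le⟩
    set c : ℝ := sInf U with hc
    have hyc : t y ≤ c := le_csInf hUne fun x hx => hx.1.le
    obtain ⟨d, hd, hdc⟩ := exists_lt_of_csInf_lt hUne (show sInf U < c + 1 by linarith)
    have hcd : c ≤ d := csInf_le hbdd hd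
    obtain ⟨hd1, hd2, hd3, hd4⟩ := hd
    have hcov : ∀ x, 2 < x → x < c → (∀ j, t j ≠ x) → 3 ≤ cnt t x a := by
      intro x hx1 hx2 hx
      rcases lt_trichotomy x (t y) with h | h | h
      · exact hbelow x hx1 h hx
      · exact absurd h.symm (hx y)
      · by_contra hlt
        have : x ∈ U := ⟨h, by linarith, hx, by omega⟩
        exact absurd this (notMem_of_lt_csInf hx2 hbdd)
    refine ⟨c, t a, by linarith, by linarith, keyb c (by linarith) (by linarith) hcov, Or.inr ?_⟩
    have h0d : t 0 < d := by rw [h00]; linarith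
    -- `d` is passed once before `t a`
    have hcnt : cnt t d a = 1 := by
      have h1 : ¬ Even (cnt t d a) := by
        rw [parity hd3 h0d]
        linarith
      have h2 : cnt t d a ≠ 0 := fun h => h1 (by rw [h]; exact Even.zero)
      have h3 : cnt t d a ≠ 2 := fun h => h1 (by rw [h]; exact even_two)
      omega
    -- the first move beyond `d`
    have hex : ∃ j, d < t j := ⟨a, hd2⟩
    set j0 := Nat.find hex with hj0
    have hj0a : j0 ≤ a := Nat.find_min' hex hd2
    have hj0d : d < t j0 := Nat.find_spec hex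
    obtain ⟨b, hb⟩ : ∃ b, j0 = b + 1 := by
      refine ⟨j0 - 1, ?_⟩
      have : j0 ≠ 0 := by
        intro h
        rw [h] at hj0d
        linarith
      omega
    have hbd : t b < d := by
      have h1 := Nat.find_min hex (m := b) (by omega)
      push Not at h1
      exact lt_of_le_of_ne h1 (hd3 b)
    have hpass : pass t d b := Or.inl ⟨hbd, by rw [← hb]; exact hj0d⟩
    have hc1 := cnt_mono t d hj0a
    have hcs := cnt_succ t d b
    rw [if_pos hpass, ← hb] at hcs
    have hcb : cnt t d b = 0 := by omega
    have hcj : cnt t d j0 = 1 := by omega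
    have habove : ∀ j, j0 ≤ j → j ≤ a → d < t j := by
      intro j h1 h2
      have h3 := cnt_mono t d h1
      have h4 := cnt_mono t d h2
      have h5 : cnt t d j = 1 := by omega
      have h6 : ¬ Even (cnt t d j) := by
        rw [h5]
        exact Nat.not_even_one
      rw [parity hd3 h0d] at h6
      push Not at h6
      exact lt_of_le_of_ne h6 (hd3 j).symm
    have hsame : ∀ x, x < d → cnt t x j0 = cnt t x a := by
      intro x hx
      have : ∀ j, j0 ≤ j → j ≤ a → cnt t x j = cnt t x j0 := by
        intro j h1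
        induction j, h1 using Nat.le_induction with
        | base => intro _; rfl
        | succ j h1 ih =>
          intro h2
          rw [cnt_succ, if_neg, add_zero, ih (by omega)]
          have h3 := habove j h1 (by omega)
          have h4 := habove (j + 1) (by omega) h2
          rintro (h | h)
          · linarith [h.1]
          · linarith [h.1]
      exact (this a hj0a le_rfl).symm
    have hT1 : ((3 : ℕ) : ℝ) * (c - 2) + ((1 : ℕ) : ℝ) * (t j0 - c) ≤ time t j0 := by
      refine time_ge (by linarith) (by linarith) 3 1 j0 ?_ ?_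
      · intro x hx1 hx2 hx
        rw [hsame x (by linarith)]
        exact hcov x hx1 hx2 hx
      · intro x hx1 hx2 hx
        have h1 := cross hx (by rw [h00]; linarith) (Nat.zero_le j0)
          (Or.inl ⟨by rw [h00]; linarith, hx2⟩)
        omega
    have hT2 : ((3 : ℕ) : ℝ) * (c - 2) + ((1 : ℕ) : ℝ) * (t a - c) ≤ time t a := by
      refine time_ge (by linarith) (by linarith) 3 1 a hcov ?_
      intro x hx1 hx2 hx
      have h1 := cross hx (by rw [h00]; linarith) (Nat.zero_le a)
        (Or.inl ⟨by rw [h00]; linarith, hx2⟩)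
      omega
    push_cast at hT1 hT2
    have hf1 : 3 * c - 6 ≤ time t b + |d - t b| := by
      rw [hb, time_succ, abs_of_pos (by rw [← hb]; linarith)] at hT1
      rw [abs_of_pos (by linarith)]
      linarith
    -- the contribution of the first pass
    have hPart : p * (3 * c - 6) ≤ Part p t d a := by
      have h1 : surv p t d b * det p (t b) (t (b + 1)) d * (time t b + |d - t b|) ≤ Part p t d a := by
        unfold Part
        exact Finset.single_le_sum (f := fun j => surv p t d j * det p (t j) (t (j + 1)) d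
          * (time t j + |d - t j|)) (fun j _ => mul_nonneg (mul_nonneg (surv_nonneg hp1.le t d j)
            (det_nonneg hp.le _ _ _)) (add_nonneg (time_nonneg t j) (abs_nonneg _)))
          (Finset.mem_range.mpr (by omega))
      rw [surv_eq hd3, hcb, pow_zero, one_mul, det_eq hd3, if_pos hpass] at h1
      exact (mul_le_mul_of_nonneg_left hf1 hp.le).trans h1
    have hE := expTime_ge hp.le hp1.le (hf d (by linarith)) a
    have h7 := ratio_ge hp hC0 hC (by linarith) hE
    rw [surv_eq hd3, hcnt, pow_one] at h7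
    have h8 : 2 * t a + c - 7 ≤ time t a + |d - t a| := by
      rw [abs_of_neg (by linarith)]
      linarith
    have h9 : (1 - p) * (2 * t a + c - 7) ≤ (1 - p) * (time t a + |d - t a|) :=
      mul_le_mul_of_nonneg_left h8 (by linarith)
    have h10 : p * (p * (3 * c - 6) + (1 - p) * (2 * t a + c - 7))
        ≤ p * (Part p t d a + (1 - p) * (time t a + |d - t a|)) :=
      mul_le_mul_of_nonneg_left (by linarith) hp.le
    have h11 : C * d ≤ C * (c + 1) := mul_le_mul_of_nonneg_left hdc.le hC0
    linarith

/-- **Lower bound for large `p`.** With `q = 1 - p` every trajectory has competitive ratio at least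
`p (3 - q + √(q² + 4 q))`. -/
theorem lower_bound' (hp : 0 < p) (hp1 : p < 1) (t : ℕ → ℝ) (ht : IsTraj t) (hf : Found p t) :
    ENNReal.ofReal (p * (3 - (1 - p) + √((1 - p) ^ 2 + 4 * (1 - p)))) ≤ ratio p t := by
  rcases eq_or_ne (ratio p t) ⊤ with htop | htop
  · rw [htop]
    exact le_top
  set C : ℝ := (ratio p t).toReal with hC
  have hC0 : 0 ≤ C := ENNReal.toReal_nonneg
  have hCe : ratio p t = ENNReal.ofReal C := (ENNReal.ofReal_toReal htop).symm
  rw [hCe]
  apply ENNReal.ofReal_le_ofReal
  have hq : 0 < 1 - p := by linarith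
  set D : ℝ := √((1 - p) ^ 2 + 4 * (1 - p)) with hD
  have hD2 : D ^ 2 = (1 - p) ^ 2 + 4 * (1 - p) := Real.sq_sqrt (by positivity)
  have hD0 : 0 ≤ D := Real.sqrt_nonneg _
  set σ : ℝ := (D - (1 - p)) / 2 with hσ
  have hσ2 : σ * (σ + (1 - p)) = 1 - p := by
    rw [hσ]
    linear_combination (1 / 4) * hD2
  have hσ0 : 0 < σ := by
    have : 1 - p < D := by
      rw [hD]
      apply Real.lt_sqrt_of_sq_lt
      linarith
    rw [hσ]
    linarith
  have hσ1 : σ < 1 := by nlinarith
  have hval : p * (3 - (1 - p) + D) = p * (3 + 2 * σ) := by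
    rw [hσ]
    ring
  rw [hval]
  by_contra hlt
  push Not at hlt
  set η : ℝ := p * (3 + 2 * σ) - C with hη
  have hη0 : 0 < η := by linarith
  set R : ℝ := max 2 ((C + 9) / η) with hRdef
  obtain ⟨c, Z, h1, h2, h3, h4⟩ := two_ineq hp hp1 ht hf hC0 hCe.le R (le_max_left _ _)
  have hRη : C + 9 ≤ R * η := by
    have : (C + 9) / η ≤ R := le_max_right _ _
    rwa [div_le_iff₀ hη0] at this
  have hR2 : 2 ≤ R := le_max_left _ _
  have hcη : C + 9 < c * η := lt_of_le_of_lt hRη (mul_lt_mul_of_pos_right h1 hη0)
  rcases le_or_gt (σ * Z) c with h | h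
  · -- the first inequality
    have h5 : p * (2 * (σ * Z)) ≤ p * (2 * c) := mul_le_mul_of_nonneg_left (by linarith) hp.le
    have h6 : c * η ≤ Z * η := mul_le_mul_of_nonneg_right h2 hη0.le
    have h7 : Z * η = p * (3 * Z) + p * (2 * (σ * Z)) - C * Z := by
      rw [hη]
      ring
    nlinarith
  · -- the second inequality
    have hcZ : c ≠ Z := by
      intro he
      rw [← he] at h
      nlinarith
    have h5 := h4.resolve_left hcZ
    have h6 : (σ + (1 - p)) * c ≤ (1 - p) * Z := by
      have h7 : (σ + (1 - p)) * c ≤ (σ + (1 - p)) * (σ * Z) :=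
        mul_le_mul_of_nonneg_left h.le (by linarith)
      have h8 : (σ + (1 - p)) * (σ * Z) = (σ * (σ + (1 - p))) * Z := by ring
      rw [h8, hσ2] at h7
      exact h7
    have h9 : p * (p * (3 * c - 6) + (1 - p) * (2 * Z + c - 7))
        = p * (3 * p * c + 2 * ((1 - p) * Z) + (1 - p) * c) - p * (6 * p + 7 * (1 - p)) := by ring
    have h10 : p * (2 * ((σ + (1 - p)) * c)) ≤ p * (2 * ((1 - p) * Z)) :=
      mul_le_mul_of_nonneg_left (by linarith) hp.le
    have h11 : c * η = p * (3 * p * c + 2 * ((σ + (1 - p)) * c) + (1 - p) * c) - C * c := by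
      rw [hη]
      ring
    have h12 : p * (6 * p + 7 * (1 - p)) ≤ 7 := by nlinarith
    nlinarith

end Pool.Agent.KS6_42.HS
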