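import Pool.Agent.KS6_42.HS.Up4

/-!
# The upper bound, part 5: the ratio
-/

open Filter Topology
open scoped ENNReal

namespace Pool.Agent.KS6_42.HS

variable {m : ℕ} {q u w : ℝ}

lemma pow_le_quad {p : ℝ} (hp : 0 ≤ p) (hp1 : p ≤ 1) (n : ℕ) :
    (1 - p) ^ n ≤ 1 - n * p + (n : ℝ) ^ 2 * p ^ 2 := by
  induction n with
  | zero => simp
  | succ n ih =>
    have h1 : (1 - p) ^ (n + 1) ≤ (1 - n * p + (n : ℝ) ^ 2 * p ^ 2) * (1 - p) := by
      rw [pow_succ]
      exact mul_le_mul_of_nonneg_right ih (by linarith)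
    push_cast
    have h2 : 0 ≤ (n : ℝ) ^ 2 * p ^ 3 := by positivity
    have h3 : 0 ≤ (n : ℝ) * p ^ 2 := by positivity
    have h4 : 0 ≤ p ^ 2 := by positivity
    have e : (1 - n * p + (n : ℝ) ^ 2 * p ^ 2) * (1 - p)
        = 1 - ((n : ℝ) + 1) * p + ((n : ℝ) + 1) ^ 2 * p ^ 2
          - ((n : ℝ) ^ 2 * p ^ 3 + (n : ℝ) * p ^ 2 + p ^ 2) := by ring
    rw [e] at h1
    linarith

/-- the main estimate -/
lemma numeric {p u : ℝ} {m n0 : ℕ} (hp : 0 < p) (hp2 : p ≤ 1 / 2) (hn0 : n0 ≤ m)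
    (hu0 : 0 < u) (hu1 : u * (m + 1) ≤ 1) {D Q : ℝ} (hD : D * (1 - p) = p * (u ^ 2 * (m * (m + 1))))
    (hQ : Q = (1 - p) ^ (2 * (m - n0))) :
    2 * (2 + D) * (1 - p) + p * D * (1 - u) - (1 - Q) * u * ((2 + D) - p * D)
      ≤ (4 + 2 * p * (u ^ 2 * (m * (m + 1))) - 4 * p * (u * m) + (16 * m + 16) * p ^ 2)
        * ((1 - p) + p * (u * n0)) := by
  have hm0 : (0 : ℝ) ≤ m := Nat.cast_nonneg m
  have hn00 : (0 : ℝ) ≤ n0 := Nat.cast_nonneg n0
  have hn0m : (n0 : ℝ) ≤ m := by exact_mod_cast hn0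
  set c : ℝ := (m : ℝ) - n0 with hc
  have hc0 : 0 ≤ c := by linarith
  have hcm : c ≤ m := by linarith
  have hum : u * m ≤ 1 := by nlinarith
  have hum0 : 0 ≤ u * m := by positivity
  set E : ℝ := u ^ 2 * (m * (m + 1)) with hE
  have hE0 : 0 ≤ E := by positivity
  have hE1 : E ≤ 1 := by
    have : E = (u * m) * (u * (m + 1)) := by rw [hE]; ring
    rw [this]
    have h1 : 0 ≤ u * ((m : ℝ) + 1) := by positivity
    nlinarith
  have hD0 : 0 ≤ D := by
    by_contra h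
    push Not at h
    have : D * (1 - p) < 0 := mul_neg_of_neg_of_pos h (by linarith)
    have : 0 ≤ p * E := by positivity
    linarith
  have hD2 : D ≤ 2 * p := by
    have h1 : D * (1 / 2) ≤ D * (1 - p) := mul_le_mul_of_nonneg_left (by linarith) hD0
    have h2 : p * E ≤ p := by nlinarith
    linarith
  -- `1 - Q`
  have hq1 : 0 ≤ 1 - Q := by
    have : Q ≤ 1 := by
      rw [hQ]
      exact pow_le_one₀ (by linarith) (by linarith)
    linarith
  have hQ2 : 2 * c * p - 4 * c ^ 2 * p ^ 2 ≤ 1 - Q := by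
    have h1 := pow_le_quad (p := p) hp.le (by linarith) (2 * (m - n0))
    have h2 : ((2 * (m - n0) : ℕ) : ℝ) = 2 * c := by
      rw [Nat.cast_mul, Nat.cast_sub hn0]
      push_cast
      rw [hc]
    rw [h2, ← hQ] at h1
    nlinarith
  have h3 : 4 * p * (u * c) - 8 * m * p ^ 2 ≤ (1 - Q) * u * ((2 + D) - p * D) := by
    have e1 : (2 + D) - p * D = 2 + p * E := by linarith
    rw [e1]
    have h4 : (1 - Q) * u * 2 ≤ (1 - Q) * u * (2 + p * E) := by
      apply mul_le_mul_of_nonneg_left _ (by positivity)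
      have : 0 ≤ p * E := by positivity
      linarith
    have h5 : (2 * c * p - 4 * c ^ 2 * p ^ 2) * (2 * u) ≤ (1 - Q) * (2 * u) :=
      mul_le_mul_of_nonneg_right hQ2 (by positivity)
    have h6 : u * c ≤ 1 := by nlinarith
    have h6' : 0 ≤ u * c := by positivity
    have h7 : (u * c) * c ≤ m := by nlinarith
    have h8 : (u * c) * c * p ^ 2 ≤ m * p ^ 2 := mul_le_mul_of_nonneg_right h7 (by positivity)
    nlinarith
  have h9 : p * D * (1 - u) ≤ 2 * p ^ 2 := by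
    have h10 : p * D * (1 - u) ≤ p * D := by
      have : 0 ≤ p * D * u := by positivity
      nlinarith
    have h11 : p * D ≤ p * (2 * p) := mul_le_mul_of_nonneg_left hD2 hp.le
    nlinarith
  have h12 : 2 * (2 + D) * (1 - p) = 4 - 4 * p + 2 * p * E := by linarith
  -- the right side
  set y : ℝ := u * n0 with hy
  have hy0 : 0 ≤ y := by positivity
  have hy1 : y ≤ 1 := by nlinarith
  have h13 : 4 - 4 * p + 2 * p * E - 4 * p * (u * c) + (8 * m + 6) * p ^ 2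
      ≤ (4 + 2 * p * E - 4 * p * (u * m) + (16 * m + 16) * p ^ 2) * ((1 - p) + p * y) := by
    have e2 : (4 + 2 * p * E - 4 * p * (u * m) + (16 * m + 16) * p ^ 2) * ((1 - p) + p * y)
        = 4 - 4 * p + 2 * p * E - 4 * p * (u * c) + (16 * m + 16) * p ^ 2
          - p ^ 2 * ((1 - y) * (2 * E - 4 * (u * m) + (16 * m + 16) * p)) := by
      rw [hy, hc]
      ring
    have h14 : (1 - y) * (2 * E - 4 * (u * m) + (16 * m + 16) * p) ≤ 8 * m + 10 := by
      have h15 : 2 * E - 4 * (u * m) + (16 * m + 16) * p ≤ 8 * m + 10 := by nlinarith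
      have h16 : (1 - y) * (2 * E - 4 * (u * m) + (16 * m + 16) * p) ≤ (1 - y) * (8 * m + 10) :=
        mul_le_mul_of_nonneg_left h15 (by linarith)
      nlinarith
    have h17 : p ^ 2 * ((1 - y) * (2 * E - 4 * (u * m) + (16 * m + 16) * p))
        ≤ p ^ 2 * (8 * m + 10) := mul_le_mul_of_nonneg_left h14 (by positivity)
    rw [e2]
    nlinarith
  have h18 : 0 ≤ p ^ 2 := by positivity
  nlinarith

/-- `q ^ (-k₀) q < d ≤ q ^ (-k₀)` -/
lemma exists_k0 (hq : 0 < q) (hq1 : q < 1) {d : ℝ} (hd : 1 ≤ d) :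
    ∃ k0 : ℕ, (1 / q) ^ k0 * q < d ∧ d ≤ (1 / q) ^ k0 := by
  classical
  have hb : 1 < 1 / q := by
    rw [lt_div_iff₀ hq]
    linarith
  have hex : ∃ k : ℕ, d ≤ (1 / q) ^ k := (pow_unbounded_of_one_lt d hb).imp fun _ h => h.le
  refine ⟨Nat.find hex, ?_, Nat.find_spec hex⟩
  rcases Nat.eq_zero_or_pos (Nat.find hex) with h | h
  · rw [h, pow_zero, one_mul]
    linarith
  · obtain ⟨k, hk⟩ : ∃ k, Nat.find hex = k + 1 := ⟨Nat.find hex - 1, by omega⟩
    have h2 := Nat.find_min hex (m := k) (by omega)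
    push Not at h2
    rw [hk]
    have : (1 / q) ^ (k + 1) * q = (1 / q) ^ k := by
      rw [pow_succ]
      field_simp
    rw [this]
    exact h2

lemma exists_J (hq : 0 < q) (hq1 : q < 1) (hm : 1 ≤ m) :
    ∃ J : ℕ, q ^ (J + 1) * ((m : ℝ) + 1) ≤ 1 ∧ q < q ^ (J + 1) * ((m : ℝ) + 1) := by
  classical
  have hm' : (1 : ℝ) ≤ m := by exact_mod_cast hm
  have hM : (0 : ℝ) < (m : ℝ) + 1 := by positivity
  have hex : ∃ J : ℕ, q ^ (J + 1) * ((m : ℝ) + 1) ≤ 1 := by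
    obtain ⟨n, hn⟩ := exists_pow_lt_of_lt_one (one_div_pos.mpr hM) hq1
    refine ⟨n, ?_⟩
    have h1 : q ^ (n + 1) ≤ q ^ n := pow_le_pow_of_le_one hq.le hq1.le (by omega)
    have h2 : q ^ n * ((m : ℝ) + 1) < 1 := by rwa [lt_div_iff₀ hM] at hn
    nlinarith
  refine ⟨Nat.find hex, Nat.find_spec hex, ?_⟩
  rcases Nat.eq_zero_or_pos (Nat.find hex) with h | h
  · rw [h, zero_add, pow_one]
    nlinarith
  · obtain ⟨k, hk⟩ : ∃ k, Nat.find hex = k + 1 := ⟨Nat.find hex - 1, by omega⟩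
    have h2 := Nat.find_min hex (m := k) (by omega)
    push Not at h2
    rw [hk, pow_succ _ (k + 1)]
    nlinarith

lemma surv_cycle (hq : 0 < q) (hq1 : q < 1) (hm : 1 ≤ m) {d : ℝ} (hd0 : 0 < d) (k0 : ℕ)
    (hd : d ≤ (1 / q) ^ k0) (j : ℕ) :
    surv (1 - q) (tr m q u w) d (2 * ((k0 + j) * (m + 1))) ≤ q ^ j := by
  have hb : 1 ≤ 1 / q := by
    rw [le_div_iff₀ hq]
    linarith
  induction j with
  | zero =>
    have h1 := surv_anti (p := 1 - q) (by linarith) (by linarith) (tr m q u w) d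
      (Nat.zero_le (2 * ((k0 + 0) * (m + 1))))
    have h2 : surv (1 - q) (tr m q u w) d 0 = 1 := by simp [surv]
    rw [h2] at h1
    rw [pow_zero]
    exact h1
  | succ j ih =>
    have h1 := last_move (u := u) (w := w) hq hq1 hm (k0 + j) hd0
      (hd.trans (pow_le_pow_right₀ hb (by omega)))
    have h2 := surv_anti (p := 1 - q) (by linarith) (by linarith) (tr m q u w) d
      (show 2 * ((k0 + j) * (m + 1)) ≤ 2 * ((k0 + j) * (m + 1) + m) + 1 by omega)
    rw [← add_assoc]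
    calc _ ≤ q * surv (1 - q) (tr m q u w) d (2 * ((k0 + j) * (m + 1) + m) + 1) := h1
      _ ≤ q * q ^ j := mul_le_mul_of_nonneg_left (h2.trans ih) hq.le
      _ = q ^ (j + 1) := by rw [pow_succ]; ring

lemma tr_found (hq : 0 < q) (hq1 : q < 1) (hm : 1 ≤ m) : Found (1 - q) (tr m q u w) := by
  intro d hd
  obtain ⟨k0, -, h2⟩ := exists_k0 hq hq1 hd
  rw [Metric.tendsto_atTop]
  intro ε hε
  obtain ⟨j, hj⟩ := exists_pow_lt_of_lt_one hε hq1
  refine ⟨2 * ((k0 + j) * (m + 1)), fun n hn => ?_⟩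
  rw [Real.dist_eq, sub_zero, abs_of_nonneg (surv_nonneg (by linarith) _ _ _)]
  exact lt_of_le_of_lt ((surv_anti (by linarith) (by linarith) _ _ hn).trans
    (surv_cycle hq hq1 hm (by linarith) k0 h2 j)) hj

/-- the value of the potential -/
lemma pot_value (hq : 0 < q) (hq1 : q < 1) (J k0 : ℕ) (huJ : u = q ^ (J + 1)) (D Q d : ℝ) :
    (1 - q) * pot (2 + D) D q Q d k0 J k0
      = (2 * (2 + D) * q + (1 - q) * D * (1 - u) - (1 - Q) * u * ((2 + D) - (1 - q) * D))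
          * (1 / q) ^ k0
        + ((1 - q) ^ 2 / (1 + q) + (1 - q) * (q ^ J) ^ 2 * (1 - Q) * (2 * q / (1 + q))) * d := by
  have h1 : 1 - q ≠ 0 := by linarith
  have h2 : 1 + q ≠ 0 := by linarith
  have hx : q ^ J ≠ 0 := (pow_pos hq J).ne'
  have e1 : (1 / q) ^ (k0 + J) = (1 / q) ^ k0 / q ^ J := by
    rw [pow_add, one_div_pow (n := J)]
    ring
  have e2 : (q ^ 2) ^ J = q ^ J * q ^ J := by rw [← mul_pow, sq]
  have e3 : u = q ^ J * q := by rw [huJ, pow_succ]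
  unfold pot hh
  rw [if_pos (by omega), Nat.add_sub_cancel_left, e1, e2, e3]
  generalize (1 / q) ^ k0 = B
  generalize q ^ J = x at hx
  field_simp
  ring

end Pool.Agent.KS6_42.HS
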