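import Pool.Agent.KS6_42.HS.Near3
import Pool.Agent.KS6_42.HS.Up5

/-!
# The upper bound for large detection probabilities, part 2
-/

open Filter Topology
open scoped ENNReal

namespace Pool.Agent.KS6_42.HS

variable {r u w p d x : ℝ}

lemma caseA (hr : 0 < r) (hr1 : r < 1) (hu : 0 < u) (hw : 0 < w) (h1 : u + w ≤ 1) (hp : 0 ≤ p)
    (hp1 : p ≤ 1) (hur : u = r) (k : ℕ) (hd1 : r * (1 / r) ^ k < d)
    (hd2 : d ≤ (1 / r) ^ k * (u + w)) :
    Part p (tr 1 r u w) d (4 * k + 4)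
      ≤ ((2 + 2 * w) / (1 - r) * (r * (1 / r) ^ k) + d)
        + (1 - p) * ((2 + 2 * w) / (1 - r) * (r * (1 / r) ^ k) + 2 * ((1 / r) ^ k * (u + w)))
        + (1 - p) ^ 2 * ((2 + 2 * w) / (1 - r) * (1 / r) ^ k) ∧
    surv p (tr 1 r u w) d (4 * k + 4) ≤ (1 - p) ^ 4 := by
  have hb := bpos hr k
  have hL : 0 < (2 + 2 * w) / (1 - r) := div_pos (by linarith) (by linarith)
  have hd0 : 0 < d := lt_trans (by positivity) hd1
  have hq : 0 ≤ 1 - p := by linarith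
  have hT := tm0_le hr hr1 hu hw h1 k
  have hP0 := before' (p := p) hr hr1 hu hw h1 k hd1
  have hdB : d ≤ (1 / r) ^ k := by nlinarith
  have hs0 : surv p (tr 1 r u w) d (4 * k) ≤ 1 := by
    have h2 := surv_anti hp hp1 (tr 1 r u w) d (Nat.zero_le (4 * k))
    have h3 : surv p (tr 1 r u w) d 0 = 1 := by simp [surv]
    rwa [h3] at h2
  have hs1 : surv p (tr 1 r u w) d (4 * k + 1) ≤ 1 - p := by
    have h2 := surv_up (t := tr 1 r u w) hp hp1 (n := 4 * k) (by rw [pos0]; exact hd0)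
      (by rw [pos1]; exact hd2)
    nlinarith
  have hlow : (1 / r) ^ k * u < d := by rw [hur, mul_comm]; exact hd1
  have hs2 : surv p (tr 1 r u w) d (4 * k + 2) ≤ (1 - p) ^ 2 := by
    rcases hd2.eq_or_lt with h | h
    · have h2 : surv p (tr 1 r u w) d (4 * k + 1) = 0 := by
        apply surv_hit
        rw [pos1, h]
      have h3 := surv_anti hp hp1 (tr 1 r u w) d (show 4 * k + 1 ≤ 4 * k + 2 by omega)
      rw [h2] at h3
      nlinarith
    · have h2 := surv_down (t := tr 1 r u w) hp hp1 (n := 4 * k + 1)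
        (by rw [show 4 * k + 1 + 1 = 4 * k + 2 by ring, pos2]; exact hlow) (by rw [pos1]; exact h)
      rw [show 4 * k + 1 + 1 = 4 * k + 2 by ring] at h2
      calc _ ≤ (1 - p) * surv p (tr 1 r u w) d (4 * k + 1) := h2
        _ ≤ (1 - p) * (1 - p) := by gcongr
        _ = _ := by ring
  have hs3 : surv p (tr 1 r u w) d (4 * k + 3) ≤ (1 - p) ^ 3 := by
    have h2 := surv_up (t := tr 1 r u w) hp hp1 (n := 4 * k + 2) (by rw [pos2]; exact hlow)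
      (by rw [show 4 * k + 2 + 1 = 4 * k + 3 by ring, pos3]; exact hdB)
    rw [show 4 * k + 2 + 1 = 4 * k + 3 by ring] at h2
    calc _ ≤ (1 - p) * surv p (tr 1 r u w) d (4 * k + 2) := h2
      _ ≤ (1 - p) * (1 - p) ^ 2 := by gcongr
      _ = _ := by ring
  have hs4 : surv p (tr 1 r u w) d (4 * k + 4) ≤ (1 - p) ^ 4 := by
    have h2 := last' (r := r) (u := u) (w := w) hp hp1 k hd0 hdB
    calc _ ≤ (1 - p) * surv p (tr 1 r u w) d (4 * k + 3) := h2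
      _ ≤ (1 - p) * (1 - p) ^ 3 := by gcongr
      _ = _ := by ring
  refine ⟨?_, hs4⟩
  have hA1 : 0 ≤ (2 + 2 * w) / (1 - r) * (r * (1 / r) ^ k) + d := by positivity
  have hA2 : 0 ≤ (2 + 2 * w) / (1 - r) * (r * (1 / r) ^ k) + 2 * ((1 / r) ^ k * (u + w)) := by
    positivity
  have hA4 : 0 ≤ (2 + 2 * w) / (1 - r) * (1 / r) ^ k := by positivity
  have b1 := block_simple (t := tr 1 r u w) (d := d) hp hp1 hA1 (4 * k) (4 * k + 1) (by omega)
    (fun j hj1 hj2 _ => by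
      have : j = 4 * k := by omega
      rw [this, pos0, sub_zero, abs_of_pos hd0]
      linarith)
  have b2 := block_simple (t := tr 1 r u w) (d := d) hp hp1 hA2 (4 * k + 1) (4 * k + 2) (by omega)
    (fun j hj1 hj2 _ => by
      have : j = 4 * k + 1 := by omega
      rw [this, pos1, tm1 hr hu hw, abs_of_nonpos (by linarith)]
      linarith)
  have b3 := block_simple (t := tr 1 r u w) (d := d) hp hp1 hA4 (4 * k + 2) (4 * k + 4) (by omega)
    (fun j _ hj hdet => cycle_time hr hr1 hu hw h1 k j hj hdet)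
  rw [hP0] at b1
  have c1 := mul_le_mul_of_nonneg_left hs0 hA1
  have c2 := mul_le_mul_of_nonneg_left hs1 hA2
  have c3 := mul_le_mul_of_nonneg_left hs2 hA4
  linarith

lemma caseB (hr : 0 < r) (hr1 : r < 1) (hu : 0 < u) (hw : 0 < w) (h1 : u + w ≤ 1) (hp : 0 ≤ p)
    (hp1 : p ≤ 1) (hur : u = r) (k : ℕ) (hd1 : (1 / r) ^ k * (u + w) < d)
    (hd2 : d ≤ (1 / r) ^ k) :
    Part p (tr 1 r u w) d (4 * k + 4)
      ≤ ((2 + 2 * w) / (1 - r) * (r * (1 / r) ^ k) + 2 * ((1 / r) ^ k * w) + d)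
        + (1 - p) * ((2 + 2 * w) / (1 - r) * (1 / r) ^ k) ∧
    surv p (tr 1 r u w) d (4 * k + 4) ≤ (1 - p) ^ 2 := by
  have hb := bpos hr k
  have hL : 0 < (2 + 2 * w) / (1 - r) := div_pos (by linarith) (by linarith)
  have hbw : 0 < (1 / r) ^ k * w := by positivity
  have hlow : (1 / r) ^ k * u < d := by nlinarith
  have hd0 : 0 < d := lt_trans (by positivity) hd1
  have hq : 0 ≤ 1 - p := by linarith
  have hT := tm0_le hr hr1 hu hw h1 k
  have hP0 := before' (p := p) (u := u) (w := w) (d := d) hr hr1 hu hw h1 k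
    (by rw [hur, mul_comm] at hlow; exact hlow)
  have hs0 : ∀ n, surv p (tr 1 r u w) d n ≤ 1 := by
    intro n
    have h2 := surv_anti hp hp1 (tr 1 r u w) d (Nat.zero_le n)
    have h3 : surv p (tr 1 r u w) d 0 = 1 := by simp [surv]
    rwa [h3] at h2
  have hs3 : surv p (tr 1 r u w) d (4 * k + 3) ≤ 1 - p := by
    have h2 := surv_up (t := tr 1 r u w) hp hp1 (n := 4 * k + 2) (by rw [pos2]; exact hlow)
      (by rw [show 4 * k + 2 + 1 = 4 * k + 3 by ring, pos3]; exact hd2)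
    rw [show 4 * k + 2 + 1 = 4 * k + 3 by ring] at h2
    have := hs0 (4 * k + 2)
    nlinarith
  have hs4 : surv p (tr 1 r u w) d (4 * k + 4) ≤ (1 - p) ^ 2 := by
    have h2 := last' (r := r) (u := u) (w := w) hp hp1 k hd0 hd2
    calc _ ≤ (1 - p) * surv p (tr 1 r u w) d (4 * k + 3) := h2
      _ ≤ (1 - p) * (1 - p) := by gcongr
      _ = _ := by ring
  refine ⟨?_, hs4⟩
  have hA1 : 0 ≤ (2 + 2 * w) / (1 - r) * (r * (1 / r) ^ k) + 2 * ((1 / r) ^ k * w) + d := by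
    positivity
  have hA4 : 0 ≤ (2 + 2 * w) / (1 - r) * (1 / r) ^ k := by positivity
  have b1 := block_simple (t := tr 1 r u w) (d := d) hp hp1 hA1 (4 * k) (4 * k + 3) (by omega)
    (fun j hj1 hj2 hdet => by
      rcases (show j ≤ 4 * k + 2 by omega).eq_or_lt with h | h
      · rw [h, pos2, tm2 hr hu hw, abs_of_pos (by linarith)]
        linarith
      · have h4 := time_le_of_det hdet
        have h5 := time_mono (tr 1 r u w) (show j + 1 ≤ 4 * k + 2 by omega)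
        rw [tm2 hr hu hw] at h5
        linarith)
  have b2 := block_simple (t := tr 1 r u w) (d := d) hp hp1 hA4 (4 * k + 3) (4 * k + 4) (by omega)
    (fun j _ hj hdet => cycle_time hr hr1 hu hw h1 k j hj hdet)
  rw [hP0] at b1
  have c1 := mul_le_mul_of_nonneg_left (hs0 (4 * k)) hA1
  have c2 := mul_le_mul_of_nonneg_left hs3 hA4
  linarith

lemma lam_le (hx : 0 < x) (hx2 : x ≤ 1 / 2) :
    (2 + 2 * (x ^ 2 - x ^ 3)) / (1 - x ^ 3) ≤ 2 + 2 * x ^ 2 + 3 * x ^ 3 := by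
  have h3 : x ^ 3 < 1 := pow_lt_one₀ hx.le (by linarith) (by norm_num)
  rw [div_le_iff₀ (by linarith)]
  have h2 : x ^ 2 ≤ 1 / 4 := by nlinarith
  have h4 : x ^ 3 ≤ 1 / 8 := by nlinarith [sq_nonneg x]
  have h5 : 0 < x ^ 3 := by positivity
  nlinarith [mul_le_mul_of_nonneg_left h2 h5.le, mul_le_mul_of_nonneg_left h4 h5.le]

lemma numA {B lam : ℝ} (hx : 0 < x) (hx2 : x ≤ 1 / 2) (hB : 0 < B) (hd : x ^ 3 * B < d)
    (hl0 : 0 ≤ lam) (hl : lam ≤ 2 + 2 * x ^ 2 + 3 * x ^ 3) :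
    (lam * (x ^ 3 * B) + d) + x ^ 4 * (lam * (x ^ 3 * B) + 2 * (B * x ^ 2))
      + (x ^ 4) ^ 2 * (lam * B) + (x ^ 4) ^ 4 * (2 * lam * (B / x ^ 3))
      ≤ (3 + 2 * x ^ 2 + 12 * x ^ 3) * d := by
  have e : (lam * (x ^ 3 * B) + d) + x ^ 4 * (lam * (x ^ 3 * B) + 2 * (B * x ^ 2))
      + (x ^ 4) ^ 2 * (lam * B) + (x ^ 4) ^ 4 * (2 * lam * (B / x ^ 3))
      = d + (lam + x ^ 4 * lam + 2 * x ^ 3 + x ^ 5 * lam + 2 * x ^ 10 * lam) * (x ^ 3 * B) := by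
    field_simp
    ring
  rw [e]
  have h2 : x ^ 2 ≤ 1 / 4 := by nlinarith
  have h3 : 0 < x ^ 3 := by positivity
  have h3' : x ^ 3 ≤ 1 / 8 := by nlinarith [sq_nonneg x]
  have hl3 : lam ≤ 3 := by linarith
  have hd0 : 0 < d := lt_trans (by positivity) hd
  have c1 : x ^ 4 * lam ≤ (3 / 2) * x ^ 3 := by
    have : x ^ 4 * lam = x ^ 3 * (x * lam) := by ring
    rw [this]
    have : x * lam ≤ 3 / 2 := by nlinarith
    nlinarith
  have c2 : x ^ 5 * lam ≤ x ^ 3 := by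
    have : x ^ 5 * lam = x ^ 3 * (x ^ 2 * lam) := by ring
    rw [this]
    have : x ^ 2 * lam ≤ 1 := by nlinarith
    nlinarith
  have c3 : 2 * x ^ 10 * lam ≤ x ^ 3 := by
    have e1 : 2 * x ^ 10 * lam = x ^ 3 * (2 * x ^ 7 * lam) := by ring
    rw [e1]
    have h7 : x ^ 7 ≤ (1 / 2) ^ 7 := pow_le_pow_left₀ hx.le hx2 7
    have h70 : 0 ≤ x ^ 7 := by positivity
    have : 2 * x ^ 7 * lam ≤ 1 := by nlinarith
    nlinarith
  have c4 : lam + x ^ 4 * lam + 2 * x ^ 3 + x ^ 5 * lam + 2 * x ^ 10 * lam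
      ≤ 2 + 2 * x ^ 2 + 12 * x ^ 3 := by linarith
  have c5 : 0 ≤ lam + x ^ 4 * lam + 2 * x ^ 3 + x ^ 5 * lam + 2 * x ^ 10 * lam := by positivity
  calc d + (lam + x ^ 4 * lam + 2 * x ^ 3 + x ^ 5 * lam + 2 * x ^ 10 * lam) * (x ^ 3 * B)
      ≤ d + (lam + x ^ 4 * lam + 2 * x ^ 3 + x ^ 5 * lam + 2 * x ^ 10 * lam) * d := by
        have := mul_le_mul_of_nonneg_left hd.le c5
        linarith
    _ ≤ d + (2 + 2 * x ^ 2 + 12 * x ^ 3) * d := by
        have := mul_le_mul_of_nonneg_right c4 hd0.le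
        linarith
    _ = _ := by ring

lemma numB {B lam : ℝ} (hx : 0 < x) (hx2 : x ≤ 1 / 2) (hB : 0 < B) (hd : B * x ^ 2 < d)
    (hl0 : 0 ≤ lam) (hl : lam ≤ 2 + 2 * x ^ 2 + 3 * x ^ 3) :
    (lam * (x ^ 3 * B) + 2 * (B * (x ^ 2 - x ^ 3)) + d) + x ^ 4 * (lam * B)
      + (x ^ 4) ^ 2 * (2 * lam * (B / x ^ 3))
      ≤ (3 + 2 * x ^ 2 + 12 * x ^ 3) * d := by
  have e : (lam * (x ^ 3 * B) + 2 * (B * (x ^ 2 - x ^ 3)) + d) + x ^ 4 * (lam * B)
      + (x ^ 4) ^ 2 * (2 * lam * (B / x ^ 3))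
      = d + (2 - 2 * x + x * lam + x ^ 2 * lam + 2 * x ^ 3 * lam) * (B * x ^ 2) := by
    field_simp
    ring
  rw [e]
  have h2 : x ^ 2 ≤ 1 / 4 := by nlinarith
  have h3 : 0 < x ^ 3 := by positivity
  have h3' : x ^ 3 ≤ 1 / 8 := by nlinarith [sq_nonneg x]
  have hl3 : lam ≤ 3 := by linarith
  have hd0 : 0 < d := lt_trans (by positivity) hd
  have c1 : x * lam ≤ 2 * x + 2 * x ^ 3 + 3 * x ^ 4 := by
    have := mul_le_mul_of_nonneg_left hl hx.le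
    calc x * lam ≤ x * (2 + 2 * x ^ 2 + 3 * x ^ 3) := this
      _ = _ := by ring
  have c2 : x ^ 2 * lam ≤ 2 * x ^ 2 + 2 * x ^ 4 + 3 * x ^ 5 := by
    have := mul_le_mul_of_nonneg_left hl (sq_nonneg x)
    calc x ^ 2 * lam ≤ x ^ 2 * (2 + 2 * x ^ 2 + 3 * x ^ 3) := this
      _ = _ := by ring
  have c3 : 2 * x ^ 3 * lam ≤ 6 * x ^ 3 := by nlinarith
  have c4 : x ^ 4 ≤ (1 / 2) * x ^ 3 := by
    have : x ^ 4 = x ^ 3 * x := by ring
    rw [this]
    nlinarith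
  have c5 : x ^ 5 ≤ (1 / 4) * x ^ 3 := by
    have : x ^ 5 = x ^ 3 * x ^ 2 := by ring
    rw [this]
    nlinarith
  have c6 : 2 - 2 * x + x * lam + x ^ 2 * lam + 2 * x ^ 3 * lam ≤ 2 + 2 * x ^ 2 + 12 * x ^ 3 := by
    linarith
  have c7 : 0 ≤ 2 - 2 * x + x * lam + x ^ 2 * lam + 2 * x ^ 3 * lam := by
    have : 0 ≤ 2 - 2 * x := by linarith
    positivity
  calc d + (2 - 2 * x + x * lam + x ^ 2 * lam + 2 * x ^ 3 * lam) * (B * x ^ 2)
      ≤ d + (2 - 2 * x + x * lam + x ^ 2 * lam + 2 * x ^ 3 * lam) * d := by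
        have := mul_le_mul_of_nonneg_left hd.le c7
        linarith
    _ ≤ d + (2 + 2 * x ^ 2 + 12 * x ^ 3) * d := by
        have := mul_le_mul_of_nonneg_right c6 hd0.le
        linarith
    _ = _ := by ring

/-- **The upper bound for `p` near one**, `1 - p = x ^ 4`. -/
theorem upper_near (hx : 0 < x) (hx2 : x ≤ 1 / 2) :
    ∃ t : ℕ → ℝ, IsTraj t ∧ Found (1 - x ^ 4) t ∧
      ratio (1 - x ^ 4) t ≤ ENNReal.ofReal (3 + 2 * x ^ 2 + 12 * x ^ 3) := by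
  have hr : 0 < x ^ 3 := by positivity
  have hr1 : x ^ 3 < 1 := pow_lt_one₀ hx.le (by linarith) (by norm_num)
  have hq0 : 0 < x ^ 4 := by positivity
  have hq1 : x ^ 4 < 1 := pow_lt_one₀ hx.le (by linarith) (by norm_num)
  have hw : 0 < x ^ 2 - x ^ 3 := by
    have : x ^ 2 - x ^ 3 = x ^ 2 * (1 - x) := by ring
    rw [this]
    exact mul_pos (by positivity) (by linarith)
  have huw : x ^ 3 + (x ^ 2 - x ^ 3) = x ^ 2 := by ring
  have h1 : x ^ 3 + (x ^ 2 - x ^ 3) ≤ 1 := by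
    rw [huw]
    exact pow_le_one₀ hx.le (by linarith)
  have hp : 0 < 1 - x ^ 4 := by linarith
  have hp1 : 1 - x ^ 4 < 1 := by linarith
  have hpq : 1 - (1 - x ^ 4) = x ^ 4 := by ring
  have hqr : 2 * (1 - (1 - x ^ 4)) ^ 2 ≤ x ^ 3 := by
    rw [hpq]
    have e : 2 * (x ^ 4) ^ 2 = x ^ 3 * (2 * x ^ 5) := by ring
    rw [e]
    have h5 : x ^ 5 ≤ (1 / 2) ^ 5 := pow_le_pow_left₀ hx.le hx2 5
    have : 2 * x ^ 5 ≤ 1 := by linarith
    nlinarith
  set lam : ℝ := (2 + 2 * (x ^ 2 - x ^ 3)) / (1 - x ^ 3) with hlam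
  have hlam0 : 0 ≤ lam := div_nonneg (by linarith) (by linarith)
  have hlam1 : lam ≤ 2 + 2 * x ^ 2 + 3 * x ^ 3 := lam_le hx hx2
  refine ⟨tr 1 (x ^ 3) (x ^ 3) (x ^ 2 - x ^ 3),
    tr_isTraj (m := 1) hr hr hw (by push_cast; linarith) le_rfl, found' hr hr1 hp hp1, ?_⟩
  unfold ratio
  refine iSup₂_le fun d hd => ?_
  have hd0 : 0 < d := by linarith
  obtain ⟨k0, hk1, hk2⟩ := exists_k0 hr hr1 hd
  have hB := bpos hr k0
  -- the value
  have hV : Part (1 - x ^ 4) (tr 1 (x ^ 3) (x ^ 3) (x ^ 2 - x ^ 3)) d (4 * k0 + 4)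
      + surv (1 - x ^ 4) (tr 1 (x ^ 3) (x ^ 3) (x ^ 2 - x ^ 3)) d (4 * k0 + 4)
        * (2 * lam * ((1 / x ^ 3) ^ k0 / x ^ 3)) ≤ (3 + 2 * x ^ 2 + 12 * x ^ 3) * d := by
    have hY : 0 ≤ 2 * lam * ((1 / x ^ 3) ^ k0 / x ^ 3) := by positivity
    rcases le_or_gt d ((1 / x ^ 3) ^ k0 * (x ^ 3 + (x ^ 2 - x ^ 3))) with h | h
    · obtain ⟨a1, a2⟩ := caseA hr hr1 hr hw h1 hp.le hp1.le rfl k0 (by rw [mul_comm]; exact hk1) h
      rw [hpq, ← hlam, huw] at a1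
      rw [hpq] at a2
      have a3 := mul_le_mul_of_nonneg_right a2 hY
      have a4 := numA hx hx2 hB (by rw [mul_comm]; exact hk1) hlam0 hlam1
      linarith
    · obtain ⟨a1, a2⟩ := caseB hr hr1 hr hw h1 hp.le hp1.le rfl k0 h hk2
      rw [hpq, ← hlam] at a1
      rw [hpq] at a2
      rw [huw] at h
      have a3 := mul_le_mul_of_nonneg_right a2 hY
      have a4 := numB hx hx2 hB h hlam0 hlam1
      linarith
  have hE : expTime (1 - x ^ 4) (tr 1 (x ^ 3) (x ^ 3) (x ^ 2 - x ^ 3)) d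
      ≤ ENNReal.ofReal ((3 + 2 * x ^ 2 + 12 * x ^ 3) * d) := by
    apply expTime_le hp.le hp1.le
    intro n
    refine ⟨4 * (k0 + 1 + n), by omega, ?_⟩
    have h2 := after' hr hr1 hr hw h1 hp.le hp1.le rfl hqr k0 hd0 hk2 n
    have h3 := surv_nonneg hp1.le (tr 1 (x ^ 3) (x ^ 3) (x ^ 2 - x ^ 3)) d (4 * (k0 + 1 + n))
    have h4 : 0 ≤ 2 * lam * (1 / x ^ 3) ^ (k0 + 1 + n) := by positivity
    have h5 := mul_nonneg h3 h4
    rw [← hlam] at h2
    linarith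
  calc ENNReal.ofReal (1 - x ^ 4) * expTime (1 - x ^ 4) (tr 1 (x ^ 3) (x ^ 3) (x ^ 2 - x ^ 3)) d
        / ENNReal.ofReal d
      ≤ 1 * ENNReal.ofReal ((3 + 2 * x ^ 2 + 12 * x ^ 3) * d) / ENNReal.ofReal d := by
        gcongr
        rw [← ENNReal.ofReal_one]
        exact ENNReal.ofReal_le_ofReal hp1.le
    _ = ENNReal.ofReal (3 + 2 * x ^ 2 + 12 * x ^ 3) := by
        rw [one_mul, ← ENNReal.ofReal_div_of_pos hd0, mul_div_cancel_right₀ _ hd0.ne']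

end Pool.Agent.KS6_42.HS
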