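import Pool.Agent.KS6_42.HS.Small
import Pool.Agent.KS6_42.HS.Near2
import Pool.Agent.KS6_42.HS.Near4

/-!
# The optimal competitive ratio for detection probabilities near one
-/

open Filter Topology Set
open scoped ENNReal

namespace Pool.Agent.KS6_42.HS

theorem opt_near_one :
    Tendsto (fun p : ℝ => ((opt p).toReal - 3) / √(1 - p)) (𝓝[<] 1) (𝓝 2) := by
  have hg : Tendsto (fun p : ℝ => 2 - 6 * √(1 - p)) (𝓝[<] 1) (𝓝 2) :=
    (Continuous.tendsto' (by fun_prop) 1 2 (by simp)).mono_left nhdsWithin_le_nhds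
  have hh : Tendsto (fun p : ℝ => 2 + 12 * √(√(1 - p))) (𝓝[<] 1) (𝓝 2) :=
    (Continuous.tendsto' (by fun_prop) 1 2 (by simp)).mono_left nhdsWithin_le_nhds
  have hev : ∀ᶠ p : ℝ in 𝓝[<] 1, p ∈ Ioo (15 / 16 : ℝ) 1 :=
    Ioo_mem_nhdsLT (by norm_num)
  have key : ∀ p ∈ Ioo (15 / 16 : ℝ) 1, 2 - 6 * √(1 - p) ≤ ((opt p).toReal - 3) / √(1 - p)
      ∧ ((opt p).toReal - 3) / √(1 - p) ≤ 2 + 12 * √(√(1 - p)) := by
    intro p hp
    have hq : 0 < 1 - p := by linarith [hp.2]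
    set x : ℝ := √(√(1 - p)) with hx
    have hx0 : 0 < x := Real.sqrt_pos.mpr (Real.sqrt_pos.mpr hq)
    have hx2 : x ^ 2 = √(1 - p) := Real.sq_sqrt (Real.sqrt_nonneg _)
    have hx4 : x ^ 4 = 1 - p := by
      rw [show x ^ 4 = (x ^ 2) ^ 2 by ring, hx2, Real.sq_sqrt hq.le]
    have hxh : x ≤ 1 / 2 := by
      by_contra hlt
      push Not at hlt
      have h1 : (1 / 2 : ℝ) ^ 4 < x ^ 4 := pow_lt_pow_left₀ hlt (by norm_num) (by norm_num)
      rw [hx4] at h1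
      linarith [hp.1]
    have hpx : 1 - x ^ 4 = p := by rw [hx4]; ring
    obtain ⟨t, a, b, c⟩ := upper_near hx0 hxh
    rw [hpx] at b c
    have hup := (opt_le a b).trans c
    have hfin : opt p ≠ ⊤ := ne_top_of_le_ne_top ENNReal.ofReal_ne_top hup
    have hup' : (opt p).toReal ≤ 3 + 2 * x ^ 2 + 12 * x ^ 3 :=
      ENNReal.toReal_le_of_le_ofReal (by positivity) hup
    have hlow : ENNReal.ofReal (p * (3 - (1 - p) + √((1 - p) ^ 2 + 4 * (1 - p)))) ≤ opt p :=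
      le_opt fun t ht h => lower_bound' (by linarith [hp.1]) hp.2 t ht h
    have hlow' : p * (3 - (1 - p) + √((1 - p) ^ 2 + 4 * (1 - p))) ≤ (opt p).toReal :=
      (ENNReal.ofReal_le_iff_le_toReal hfin).mp hlow
    have hD : 2 * x ^ 2 ≤ √((1 - p) ^ 2 + 4 * (1 - p)) := by
      apply Real.le_sqrt_of_sq_le
      rw [← hx4]
      nlinarith [sq_nonneg (x ^ 4)]
    have hp0 : 0 < p := by linarith [hp.1]
    have hlow2 : 3 + 2 * x ^ 2 - 6 * x ^ 4 ≤ (opt p).toReal := by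
      have h1 : p * (3 - (1 - p) + 2 * x ^ 2) ≤ p * (3 - (1 - p) + √((1 - p) ^ 2 + 4 * (1 - p))) :=
        mul_le_mul_of_nonneg_left (by linarith) hp0.le
      have h2 : p * (3 - (1 - p) + 2 * x ^ 2)
          = 3 + 2 * x ^ 2 - 6 * x ^ 4 + (2 * x ^ 4 * (1 - x ^ 2) + x ^ 8) := by
        rw [← hx4, ← hpx]
        ring
      have h3 : 0 ≤ 2 * x ^ 4 * (1 - x ^ 2) + x ^ 8 := by
        have h4 : x ^ 2 ≤ 1 := pow_le_one₀ hx0.le (by linarith)
        have h5 : 0 ≤ 1 - x ^ 2 := by linarith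
        positivity
      linarith
    rw [← hx2]
    have hx20 : 0 < x ^ 2 := by positivity
    constructor
    · rw [le_div_iff₀ hx20]
      have : (2 - 6 * x ^ 2) * x ^ 2 = 2 * x ^ 2 - 6 * x ^ 4 := by ring
      rw [this]
      linarith
    · rw [div_le_iff₀ hx20]
      have : (2 + 12 * x) * x ^ 2 = 2 * x ^ 2 + 12 * x ^ 3 := by ring
      rw [this]
      linarith
  exact tendsto_of_tendsto_of_tendsto_of_le_of_le' hg hh
    (hev.mono fun p hp => (key p hp).1) (hev.mono fun p hp => (key p hp).2)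

/-- for `p ≥ 0.87` all ratios are larger than `4 - p`, uniformly -/
theorem above (p : ℝ) (hp : 87 / 100 ≤ p) (hp1 : p < 1) : ENNReal.ofReal (4 - p) < opt p := by
  have hq : 0 < 1 - p := by linarith
  have h1 : ENNReal.ofReal (p * (3 - (1 - p) + √((1 - p) ^ 2 + 4 * (1 - p)))) ≤ opt p :=
    le_opt fun t ht h => lower_bound' (by linarith) hp1 t ht h
  refine lt_of_lt_of_le ((ENNReal.ofReal_lt_ofReal_iff_of_nonneg (by linarith)).mpr ?_) h1
  have hp0 : 0 < p := by linarith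
  have hD : ((1 - p) * (4 + p)) / p < √((1 - p) ^ 2 + 4 * (1 - p)) := by
    apply Real.lt_sqrt_of_sq_lt
    rw [div_pow, div_lt_iff₀ (by positivity)]
    have e : ((1 - p) ^ 2 + 4 * (1 - p)) * p ^ 2 - ((1 - p) * (4 + p)) ^ 2
        = 4 * (1 - p) * (3 * p ^ 2 + 2 * p - 4) := by ring
    have h2 : 0 < 3 * p ^ 2 + 2 * p - 4 := by nlinarith
    have h3 : 0 < 4 * (1 - p) * (3 * p ^ 2 + 2 * p - 4) := by positivity
    linarith
  have h4 : p * (((1 - p) * (4 + p)) / p) < p * √((1 - p) ^ 2 + 4 * (1 - p)) :=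
    mul_lt_mul_of_pos_left hD hp0
  rw [mul_div_cancel₀ _ hp0.ne'] at h4
  nlinarith

theorem below' (p : ℝ) (hp : 0 < p) (hp1 : p < 1 / 144) : opt p < ENNReal.ofReal (4 - p) := by
  obtain ⟨t, a, b, c⟩ := below p hp hp1
  exact lt_of_le_of_lt (opt_le a b) c

end Pool.Agent.KS6_42.HS
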