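import Pool.Agent.KS6_42.HS.Defs

/-!
# The lower bound, part 1: the inequality for one place
-/

open Finset Filter Topology MeasureTheory
open scoped ENNReal

namespace Pool.Agent.KS6_42.HS

lemma time_succ (t : ℕ → ℝ) (k : ℕ) : time t (k + 1) = time t k + |t (k + 1) - t k| := by
  unfold time
  rw [sum_range_succ]

lemma time_nonneg (t : ℕ → ℝ) (k : ℕ) : 0 ≤ time t k :=
  Finset.sum_nonneg fun _ _ => abs_nonneg _

lemma surv_succ (p : ℝ) (t : ℕ → ℝ) (d : ℝ) (k : ℕ) :
    surv p t d (k + 1) = surv p t d k * (1 - det p (t k) (t (k + 1)) d) := by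
  unfold surv
  rw [prod_range_succ]

/-- the searcher passes over `d` on the way from `u` to `v` -/
def pass (t : ℕ → ℝ) (d : ℝ) (j : ℕ) : Prop :=
  (t j < d ∧ d < t (j + 1)) ∨ (t (j + 1) < d ∧ d < t j)

open Classical in
/-- number of passes before the move `k` -/
noncomputable def cnt (t : ℕ → ℝ) (d : ℝ) (k : ℕ) : ℕ := ((range k).filter fun j => pass t d j).card

open Classical in
lemma cnt_succ (t : ℕ → ℝ) (d : ℝ) (k : ℕ) :
    cnt t d (k + 1) = cnt t d k + if pass t d k then 1 else 0 := by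
  unfold cnt
  rw [range_add_one, filter_insert]
  split_ifs with h
  · rw [card_insert_of_notMem (by simp)]
  · rw [add_zero]

open Classical in
lemma det_eq {p d : ℝ} {t : ℕ → ℝ} (hd : ∀ j, t j ≠ d) (j : ℕ) :
    det p (t j) (t (j + 1)) d = if pass t d j then p else 0 := by
  unfold det
  rw [if_neg (hd (j + 1))]
  by_cases h : pass t d j
  · rw [if_pos h]
    exact if_pos h
  · rw [if_neg h]
    exact if_neg h

lemma surv_eq {p d : ℝ} {t : ℕ → ℝ} (hd : ∀ j, t j ≠ d) (k : ℕ) :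
    surv p t d k = (1 - p) ^ cnt t d k := by
  induction k with
  | zero => simp [surv, cnt]
  | succ k ih =>
    rw [surv_succ, ih, det_eq hd, cnt_succ]
    split_ifs with h
    · rw [pow_succ]
    · simp

open Classical in
lemma sum_pass (t : ℕ → ℝ) (d : ℝ) (m : ℕ) (g : ℕ → ℝ) (K : ℕ) :
    ∑ j ∈ range K, (if pass t d j ∧ cnt t d j < m then g (cnt t d j) else 0)
      = ∑ n ∈ range (min (cnt t d K) m), g n := by
  induction K with
  | zero => simp [cnt]
  | succ K ih =>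
    rw [sum_range_succ, ih, cnt_succ]
    by_cases h : pass t d K
    · rw [if_pos h]
      by_cases h2 : cnt t d K < m
      · rw [if_pos ⟨h, h2⟩, min_eq_left h2.le, min_eq_left (by omega), sum_range_succ]
      · rw [if_neg (fun hh => h2 hh.2), add_zero, min_eq_right (by omega), min_eq_right (by omega)]
    · rw [if_neg h, if_neg (fun hh => h hh.1), add_zero, add_zero]

/-- the weight of a pass at the time `s` -/
noncomputable def Lam (κ R s : ℝ) : ℝ := max 0 (κ ^ 2 / (s + 1) - κ ^ 2 / (R + 1))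

lemma amgm {p q κ R d c : ℝ} (hp : 0 ≤ p) (hq : 0 ≤ q) (hd : 0 < d) (hc : 0 ≤ c) (n : ℕ) :
    2 * κ * √p * (√q) ^ n / d
      ≤ q ^ n * p * c * (1 / d ^ 2) + p * q ^ n * (1 / d ^ 2) + Lam κ R c + κ ^ 2 / (R + 1) := by
  have h1 : κ ^ 2 / (c + 1) - κ ^ 2 / (R + 1) ≤ Lam κ R c := le_max_right _ _
  have hc1 : 0 < c + 1 := by linarith
  have e1 : (√p) ^ 2 = p := Real.sq_sqrt hp
  have e2 : ((√q) ^ n) ^ 2 = q ^ n := by
    rw [← pow_mul, mul_comm n 2, pow_mul, Real.sq_sqrt hq]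
  have h2 : 2 * κ * √p * (√q) ^ n / d ≤ q ^ n * p * (c + 1) * (1 / d ^ 2) + κ ^ 2 / (c + 1) := by
    have h3 := sq_nonneg (√p * (√q) ^ n * (c + 1) - κ * d)
    have h4 : 2 * κ * √p * (√q) ^ n * d * (c + 1) ≤ q ^ n * p * (c + 1) ^ 2 + κ ^ 2 * d ^ 2 := by
      have e3 : (√p * (√q) ^ n * (c + 1) - κ * d) ^ 2
          = q ^ n * p * (c + 1) ^ 2 + κ ^ 2 * d ^ 2 - 2 * κ * √p * (√q) ^ n * d * (c + 1) := by
        rw [← e2]
        linear_combination ((√q) ^ n) ^ 2 * (c + 1) ^ 2 * e1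
      linarith
    have e4 : q ^ n * p * (c + 1) * (1 / d ^ 2) + κ ^ 2 / (c + 1)
        = (q ^ n * p * (c + 1) ^ 2 + κ ^ 2 * d ^ 2) / (d ^ 2 * (c + 1)) := by
      field_simp
    have e5 : 2 * κ * √p * (√q) ^ n / d = (2 * κ * √p * (√q) ^ n * d * (c + 1)) / (d ^ 2 * (c + 1)) := by
      field_simp
    rw [e4, e5]
    gcongr
  have e6 : q ^ n * p * (c + 1) * (1 / d ^ 2) = q ^ n * p * c * (1 / d ^ 2) + p * q ^ n * (1 / d ^ 2) := by
    ring
  linarith

lemma Lam_nonneg (κ R s : ℝ) : 0 ≤ Lam κ R s := le_max_left _ _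

open Classical in
/-- the inequality for one place, with finite sums -/
lemma place_real {p κ R d : ℝ} {t : ℕ → ℝ} (hp : 0 < p) (hp1 : p < 1) (hd0 : 0 < d)
    (hd : ∀ j, t j ≠ d) (m K : ℕ) (hK : m ≤ cnt t d K) :
    2 * κ * √p * (∑ n ∈ range m, (√(1 - p)) ^ n) / d
      ≤ (∑ j ∈ range K, surv p t d j * det p (t j) (t (j + 1)) d * (time t j + |d - t j|))
          * (1 / d ^ 2)
        + (∑ j ∈ range K, if pass t d j then Lam κ R (time t j + |d - t j|) else 0)
        + 1 / d ^ 2 + m * (κ ^ 2 / (R + 1)) := by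
  have hq : 0 ≤ 1 - p := by linarith
  have hL : 2 * κ * √p * (∑ n ∈ range m, (√(1 - p)) ^ n) / d
      = ∑ j ∈ range K, (if pass t d j ∧ cnt t d j < m then 2 * κ * √p * (√(1 - p)) ^ (cnt t d j) / d
        else 0) := by
    rw [sum_pass t d m (fun n => 2 * κ * √p * (√(1 - p)) ^ n / d) K, min_eq_right hK, mul_sum,
      sum_div]
  have hA : ∑ j ∈ range K, (if pass t d j ∧ cnt t d j < m then p * (1 - p) ^ (cnt t d j) * (1 / d ^ 2)
        else 0) ≤ 1 / d ^ 2 := by
    rw [sum_pass t d m (fun n => p * (1 - p) ^ n * (1 / d ^ 2)) K, min_eq_right hK, ← sum_mul,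
      ← mul_sum]
    have hg : p * ∑ n ∈ range m, (1 - p) ^ n ≤ 1 := by
      have h1 := mul_neg_geom_sum (1 - p) m
      have h2 : (1 : ℝ) - (1 - p) = p := by ring
      rw [h2] at h1
      rw [h1]
      have : 0 ≤ (1 - p) ^ m := by positivity
      linarith
    have : 0 ≤ 1 / d ^ 2 := by positivity
    nlinarith
  have hB : ∑ j ∈ range K, (if pass t d j ∧ cnt t d j < m then κ ^ 2 / (R + 1) else 0)
      = m * (κ ^ 2 / (R + 1)) := by
    rw [sum_pass t d m (fun _ => κ ^ 2 / (R + 1)) K, min_eq_right hK, sum_const, card_range,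
      nsmul_eq_mul]
  rw [hL, ← hB, sum_mul, ← sum_add_distrib]
  refine le_trans ?_ (add_le_add (add_le_add le_rfl hA) le_rfl)
  rw [← sum_add_distrib, ← sum_add_distrib]
  refine sum_le_sum fun j _ => ?_
  have hc : 0 ≤ time t j + |d - t j| := add_nonneg (time_nonneg t j) (abs_nonneg _)
  by_cases h : pass t d j
  · by_cases h2 : cnt t d j < m
    · rw [if_pos ⟨h, h2⟩, if_pos h, if_pos ⟨h, h2⟩, if_pos ⟨h, h2⟩, surv_eq hd, det_eq hd, if_pos h]
      have := amgm (κ := κ) (R := R) hp.le hq hd0 hc (cnt t d j)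
      linarith
    · rw [if_neg (fun hh => h2 hh.2), if_pos h, if_neg (fun hh => h2 hh.2),
        if_neg (fun hh => h2 hh.2), surv_eq hd, det_eq hd, if_pos h]
      have h3 := Lam_nonneg κ R (time t j + |d - t j|)
      have h4 : 0 ≤ (1 - p) ^ cnt t d j * p * (time t j + |d - t j|) * (1 / d ^ 2) := by positivity
      linarith
  · rw [if_neg (fun hh => h hh.1), if_neg h, if_neg (fun hh => h hh.1), if_neg (fun hh => h hh.1),
      det_eq hd, if_neg h]
    simp

end Pool.Agent.KS6_42.HS
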