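import Pool.Agent.KS6_42.HS.Low1

/-!
# The lower bound, part 2: averaging over the places
-/

open Filter Topology MeasureTheory Set
open scoped ENNReal

namespace Pool.Agent.KS6_42.HS

open Classical in
/-- the sum of the weights of all passes over `d` -/
noncomputable def G (κ R : ℝ) (t : ℕ → ℝ) (d : ℝ) : ℝ≥0∞ :=
  ∑' j, ENNReal.ofReal (if pass t d j then Lam κ R (time t j + |d - t j|) else 0)

/-- if the treasure is found with probability one then the number of passes is unbounded -/
lemma cnt_large {p d : ℝ} {t : ℕ → ℝ} (hp : 0 < p) (hp1 : p < 1) (hd : ∀ j, t j ≠ d)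
    (hf : Tendsto (surv p t d) atTop (𝓝 0)) (m : ℕ) : ∃ K, m ≤ cnt t d K := by
  by_contra hne
  push Not at hne
  have h1 : ∀ K, (1 - p) ^ m ≤ surv p t d K := by
    intro K
    rw [surv_eq hd]
    exact pow_le_pow_of_le_one (by linarith) (by linarith) (hne K).le
  have h2 := ge_of_tendsto' hf h1
  have h3 : 0 < (1 - p) ^ m := pow_pos (by linarith) m
  linarith

/-- the inequality for one place -/
lemma place {p κ R d : ℝ} {t : ℕ → ℝ} (hp : 0 < p) (hp1 : p < 1) (hd0 : 0 < d)
    (hR : 0 ≤ R) (hd : ∀ j, t j ≠ d) (hf : Tendsto (surv p t d) atTop (𝓝 0)) (m : ℕ) :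
    ENNReal.ofReal (2 * κ * √p * (∑ n ∈ Finset.range m, (√(1 - p)) ^ n) / d)
      ≤ expTime p t d * ENNReal.ofReal (1 / d ^ 2) + G κ R t d + ENNReal.ofReal (1 / d ^ 2)
        + ENNReal.ofReal (m * (κ ^ 2 / (R + 1))) := by
  classical
  obtain ⟨K, hK⟩ := cnt_large hp hp1 hd hf m
  have h := place_real (κ := κ) (R := R) hp hp1 hd0 hd m K hK
  refine (ENNReal.ofReal_le_ofReal h).trans ?_
  have hc : ∀ j, 0 ≤ time t j + |d - t j| := fun j => add_nonneg (time_nonneg t j) (abs_nonneg _)
  have hw : ∀ j, 0 ≤ surv p t d j * det p (t j) (t (j + 1)) d * (time t j + |d - t j|) := by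
    intro j
    rw [surv_eq hd, det_eq hd]
    have := hc j
    have h1 : 0 ≤ 1 - p := by linarith
    split_ifs <;> positivity
  have hg : ∀ j, 0 ≤ (if pass t d j then Lam κ R (time t j + |d - t j|) else 0) := by
    intro j
    split_ifs
    · exact Lam_nonneg _ _ _
    · exact le_rfl
  have hA := Finset.sum_nonneg fun j (_ : j ∈ Finset.range K) => hw j
  have hB := Finset.sum_nonneg fun j (_ : j ∈ Finset.range K) => hg j
  have hd2 : 0 ≤ 1 / d ^ 2 := by positivity
  have hm : 0 ≤ (m : ℝ) * (κ ^ 2 / (R + 1)) := by positivity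
  rw [ENNReal.ofReal_add (by positivity) hm, ENNReal.ofReal_add (by positivity) hd2,
    ENNReal.ofReal_add (mul_nonneg hA hd2) hB, ENNReal.ofReal_mul hA,
    ENNReal.ofReal_sum_of_nonneg fun j _ => hw j, ENNReal.ofReal_sum_of_nonneg fun j _ => hg j]
  gcongr
  · exact ENNReal.sum_le_tsum _
  · exact ENNReal.sum_le_tsum _

/-- the weights integrated over one move -/
lemma move_integral (t : ℕ → ℝ) (j : ℕ) (f : ℝ → ℝ≥0∞) :
    (∫⁻ d, (if (t j < d ∧ d < t (j + 1)) ∨ (t (j + 1) < d ∧ d < t j) then f (time t j + |d - t j|) else 0))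
      = ∫⁻ s in Ioo (time t j) (time t (j + 1)), f s := by
  rw [← lintegral_indicator measurableSet_Ioo]
  rcases le_total (t j) (t (j + 1)) with h | h
  · -- outward
    have e : (fun d => if (t j < d ∧ d < t (j + 1)) ∨ (t (j + 1) < d ∧ d < t j)
        then f (time t j + |d - t j|) else 0)
        = fun d => (Ioo (time t j) (time t (j + 1))).indicator f (d + (time t j - t j)) := by
      funext d
      by_cases hd : t j < d ∧ d < t (j + 1)
      · rw [if_pos (Or.inl hd), indicator_of_mem, abs_of_pos (by linarith [hd.1])]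
        · congr 1
          ring
        · rw [mem_Ioo, time_succ, abs_of_nonneg (by linarith)]
          constructor <;> linarith [hd.1, hd.2]
      · rw [if_neg, indicator_of_notMem]
        · intro hm
          rw [mem_Ioo, time_succ, abs_of_nonneg (by linarith)] at hm
          exact hd ⟨by linarith [hm.1], by linarith [hm.2]⟩
        · rintro (hh | hh)
          · exact hd hh
          · linarith [hh.1, hh.2]
    rw [e]
    exact lintegral_add_right_eq_self _ _
  · have e : (fun d => if (t j < d ∧ d < t (j + 1)) ∨ (t (j + 1) < d ∧ d < t j)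
        then f (time t j + |d - t j|) else 0)
        = fun d => (Ioo (time t j) (time t (j + 1))).indicator f ((time t j + t j) - d) := by
      funext d
      by_cases hd : t (j + 1) < d ∧ d < t j
      · rw [if_pos (Or.inr hd), indicator_of_mem, abs_of_neg (by linarith [hd.2])]
        · congr 1
          ring
        · rw [mem_Ioo, time_succ, abs_of_nonpos (by linarith)]
          constructor <;> linarith [hd.1, hd.2]
      · rw [if_neg, indicator_of_notMem]
        · intro hm
          rw [mem_Ioo, time_succ, abs_of_nonpos (by linarith)] at hm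
          exact hd ⟨by linarith [hm.2], by linarith [hm.1]⟩
        · rintro (hh | hh)
          · linarith [hh.1, hh.2]
          · exact hd hh
    rw [e]
    exact lintegral_sub_left_eq_self _ _

lemma time_mono (t : ℕ → ℝ) : Monotone (time t) :=
  monotone_nat_of_le_succ fun k => by
    rw [time_succ]
    have := abs_nonneg (t (k + 1) - t k)
    linarith

/-- the sum of the integrals over the moves -/
lemma sum_moves (t : ℕ → ℝ) (f : ℝ → ℝ≥0∞) :
    ∑' j, ∫⁻ s in Ioo (time t j) (time t (j + 1)), f s ≤ ∫⁻ s in Ioi 0, f s := by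
  have hdis : Pairwise (Function.onFun Disjoint fun j => Ioo (time t j) (time t (j + 1))) := by
    intro i j hij
    rw [Function.onFun, Set.disjoint_left]
    intro x hx hy
    rcases lt_or_gt_of_ne hij with h | h
    · have := time_mono t (show i + 1 ≤ j from h)
      linarith [hx.2, hy.1]
    · have := time_mono t (show j + 1 ≤ i from h)
      linarith [hy.2, hx.1]
  rw [← lintegral_iUnion (fun j => measurableSet_Ioo) hdis]
  refine lintegral_mono_set ?_
  intro x hx
  obtain ⟨j, hj⟩ := mem_iUnion.mp hx
  exact lt_of_le_of_lt (time_nonneg t j) hj.1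

lemma Lam_measurable (κ R : ℝ) : Measurable (Lam κ R) := by
  unfold Lam
  fun_prop

lemma G_integral (κ R : ℝ) (t : ℕ → ℝ) :
    ∫⁻ d, G κ R t d ≤ ∫⁻ s in Ioi 0, ENNReal.ofReal (Lam κ R s) := by
  classical
  have hm : Measurable fun s => ENNReal.ofReal (Lam κ R s) := (Lam_measurable κ R).ennreal_ofReal
  have e : ∀ d, G κ R t d = ∑' j, (if (t j < d ∧ d < t (j + 1)) ∨ (t (j + 1) < d ∧ d < t j)
      then (fun s => ENNReal.ofReal (Lam κ R s)) (time t j + |d - t j|) else 0) := by
    intro d
    unfold G
    refine tsum_congr fun j => ?_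
    by_cases h : pass t d j
    · rw [if_pos h]
      exact (if_pos h).symm
    · rw [if_neg h, ENNReal.ofReal_zero]
      exact (if_neg h).symm
  simp_rw [e]
  rw [lintegral_tsum]
  · refine le_trans (le_of_eq ?_) (sum_moves t _)
    refine tsum_congr fun j => ?_
    convert move_integral t j (fun s => ENNReal.ofReal (Lam κ R s))
  · intro j
    refine Measurable.aemeasurable ?_
    refine Measurable.ite ?_ ?_ measurable_const
    · exact (measurableSet_Ioo (a := t j) (b := t (j + 1))).union
        (measurableSet_Ioo (a := t (j + 1)) (b := t j))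
    · exact hm.comp (by fun_prop)

end Pool.Agent.KS6_42.HS
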