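import Pool.Agent.KS6_42.HS.Low2

/-!
# The lower bound, part 3
-/

open Filter Topology MeasureTheory Set
open scoped ENNReal

namespace Pool.Agent.KS6_42.HS

lemma lint_inv {R : ℝ} (hR : 1 ≤ R) (c : ℝ) (hc : 0 ≤ c) :
    ∫⁻ d in Icc (1 : ℝ) R, ENNReal.ofReal (c / d) = ENNReal.ofReal (c * Real.log R) := by
  rw [← ofReal_integral_eq_lintegral_ofReal]
  · congr 1
    rw [integral_Icc_eq_integral_Ioc, ← intervalIntegral.integral_of_le hR]
    have : ∀ x : ℝ, c / x = c * x⁻¹ := fun x => by rw [div_eq_mul_inv]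
    simp_rw [this]
    rw [intervalIntegral.integral_const_mul, integral_inv_of_pos one_pos (by linarith), div_one]
  · have : ContinuousOn (fun d : ℝ => c / d) (Icc 1 R) := by
      refine ContinuousOn.div continuousOn_const continuousOn_id fun x hx => ?_
      have := hx.1
      have h0 : x ≠ 0 := by linarith
      exact h0
    exact this.integrableOn_Icc
  · refine (ae_restrict_iff' measurableSet_Icc).mpr (ae_of_all _ fun x hx => ?_)
    have := hx.1
    simp only [Pi.zero_apply]
    positivity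

lemma lint_Lam {κ R : ℝ} (hR : 0 ≤ R) :
    ∫⁻ s in Ioi 0, ENNReal.ofReal (Lam κ R s) ≤ ENNReal.ofReal (κ ^ 2 * Real.log (R + 1)) := by
  have h1 : ∀ s ∈ Ioi (0 : ℝ), ENNReal.ofReal (Lam κ R s)
      ≤ (Ioc (0 : ℝ) R).indicator (fun s => ENNReal.ofReal (κ ^ 2 / (s + 1))) s := by
    intro s hs
    have hs0 : 0 < s := hs
    by_cases h : s ≤ R
    · rw [indicator_of_mem (show s ∈ Ioc 0 R from ⟨hs0, h⟩)]
      apply ENNReal.ofReal_le_ofReal
      unfold Lam
      refine max_le (by positivity) ?_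
      have : 0 ≤ κ ^ 2 / (R + 1) := by positivity
      linarith
    · rw [indicator_of_notMem (fun hh => h hh.2)]
      have : Lam κ R s = 0 := by
        unfold Lam
        apply max_eq_left
        have : κ ^ 2 / (s + 1) ≤ κ ^ 2 / (R + 1) := by
          gcongr
          linarith
        linarith
      rw [this, ENNReal.ofReal_zero]
  calc ∫⁻ s in Ioi 0, ENNReal.ofReal (Lam κ R s)
      ≤ ∫⁻ s in Ioi (0 : ℝ), (Ioc (0 : ℝ) R).indicator (fun s => ENNReal.ofReal (κ ^ 2 / (s + 1))) s :=
        setLIntegral_mono' measurableSet_Ioi h1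
    _ ≤ ∫⁻ s, (Ioc (0 : ℝ) R).indicator (fun s => ENNReal.ofReal (κ ^ 2 / (s + 1))) s :=
        setLIntegral_le_lintegral _ _
    _ = ∫⁻ s in Ioc (0 : ℝ) R, ENNReal.ofReal (κ ^ 2 / (s + 1)) := by
        rw [lintegral_indicator measurableSet_Ioc]
    _ = ENNReal.ofReal (κ ^ 2 * Real.log (R + 1)) := by
        rw [← ofReal_integral_eq_lintegral_ofReal]
        · congr 1
          rw [← intervalIntegral.integral_of_le hR]
          have : ∀ x : ℝ, κ ^ 2 / (x + 1) = κ ^ 2 * (x + 1)⁻¹ := fun x => by rw [div_eq_mul_inv]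
          simp_rw [this]
          rw [intervalIntegral.integral_const_mul,
            intervalIntegral.integral_comp_add_right (fun x => x⁻¹), zero_add,
            integral_inv_of_pos one_pos (by linarith), div_one]
        · have : ContinuousOn (fun s : ℝ => κ ^ 2 / (s + 1)) (Icc 0 R) := by
            refine ContinuousOn.div continuousOn_const (by fun_prop) fun x hx => ?_
            have := hx.1
            linarith
          exact this.integrableOn_Icc.mono_set Ioc_subset_Icc_self
        · refine (ae_restrict_iff' measurableSet_Ioc).mpr (ae_of_all _ fun x hx => ?_)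
          have := hx.1
          simp only [Pi.zero_apply]
          positivity

lemma lint_inv_sq {R : ℝ} (hR : 1 ≤ R) :
    ∫⁻ d in Icc (1 : ℝ) R, ENNReal.ofReal (1 / d ^ 2) ≤ 1 := by
  have hcont : ContinuousOn (fun d : ℝ => 1 / d ^ 2) (Icc 1 R) := by
    refine ContinuousOn.div continuousOn_const (by fun_prop) fun x hx => ?_
    have := hx.1
    positivity
  rw [← ofReal_integral_eq_lintegral_ofReal hcont.integrableOn_Icc]
  · rw [integral_Icc_eq_integral_Ioc, ← intervalIntegral.integral_of_le hR]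
    have hderiv : ∀ x ∈ uIcc 1 R, HasDerivAt (fun x : ℝ => -x⁻¹) (1 / x ^ 2) x := by
      intro x hx
      rw [uIcc_of_le hR] at hx
      have hx0 : x ≠ 0 := by
        have := hx.1
        positivity
      have := (hasDerivAt_inv hx0).neg
      refine this.congr_deriv ?_
      rw [neg_neg, one_div]
    rw [intervalIntegral.integral_eq_sub_of_hasDerivAt hderiv]
    · rw [← ENNReal.ofReal_one]
      apply ENNReal.ofReal_le_ofReal
      have : 0 ≤ R⁻¹ := by positivity
      norm_num
      linarith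
    · rw [← uIcc_of_le hR] at hcont
      exact hcont.intervalIntegrable
  · refine (ae_restrict_iff' measurableSet_Icc).mpr (ae_of_all _ fun x hx => ?_)
    have := hx.1
    simp only [Pi.zero_apply]
    positivity

/-- the averaged inequality -/
lemma averaged {p κ R : ℝ} {t : ℕ → ℝ} (hp : 0 < p) (hp1 : p < 1) (hκ : 0 ≤ κ) (hR : 1 ≤ R)
    (hf : Found p t) (m : ℕ) (C : ℝ) (hC0 : 0 ≤ C) (hC : ratio p t ≤ ENNReal.ofReal C) :
    2 * κ * √p * (∑ n ∈ Finset.range m, (√(1 - p)) ^ n) * Real.log R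
      ≤ C / p * Real.log R + κ ^ 2 * Real.log (R + 1) + 1 + m * κ ^ 2 := by
  set A : ℝ := 2 * κ * √p * (∑ n ∈ Finset.range m, (√(1 - p)) ^ n) with hA
  have hA0 : 0 ≤ A := by
    rw [hA]
    positivity
  have hE : ∀ d : ℝ, 1 ≤ d → expTime p t d * ENNReal.ofReal (1 / d ^ 2) ≤ ENNReal.ofReal (C / p / d) := by
    intro d hd
    have hd0 : 0 < d := by linarith
    have h1 : ENNReal.ofReal p * expTime p t d / ENNReal.ofReal d ≤ ENNReal.ofReal C := by
      refine le_trans ?_ hC
      unfold ratio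
      exact le_iSup₂ (f := fun (d : ℝ) (_ : 1 ≤ d) =>
        ENNReal.ofReal p * expTime p t d / ENNReal.ofReal d) d hd
    have hpos : ENNReal.ofReal p ≠ 0 := by simpa using hp
    have hdpos : ENNReal.ofReal d ≠ 0 := by simpa using hd0
    rw [ENNReal.div_le_iff hdpos ENNReal.ofReal_ne_top, mul_comm,
      ← ENNReal.le_div_iff_mul_le (Or.inl hpos) (Or.inl ENNReal.ofReal_ne_top),
      ← ENNReal.ofReal_mul hC0, ← ENNReal.ofReal_div_of_pos hp] at h1
    calc expTime p t d * ENNReal.ofReal (1 / d ^ 2)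
        ≤ ENNReal.ofReal (C * d / p) * ENNReal.ofReal (1 / d ^ 2) := by gcongr
      _ = ENNReal.ofReal (C / p / d) := by
          rw [← ENNReal.ofReal_mul (by positivity)]
          congr 1
          field_simp
  have hturn : ∀ᵐ d ∂(volume.restrict (Icc (1 : ℝ) R)), ∀ j, t j ≠ d := by
    have hcount : (range t).Countable := countable_range t
    have h0 : volume.restrict (Icc (1 : ℝ) R) (range t) = 0 :=
      le_antisymm ((Measure.restrict_apply_le _ _).trans (hcount.measure_zero volume).le) bot_le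
    have := (measure_eq_zero_iff_ae_notMem).mp h0
    filter_upwards [this] with d hd j hj
    exact hd ⟨j, hj⟩
  have hIcc : ∀ᵐ d ∂(volume.restrict (Icc (1 : ℝ) R)), d ∈ Icc (1 : ℝ) R :=
    ae_restrict_mem measurableSet_Icc
  have hmain : ∫⁻ d in Icc (1 : ℝ) R, ENNReal.ofReal (A / d)
      ≤ ∫⁻ d in Icc (1 : ℝ) R, (ENNReal.ofReal (C / p / d) + G κ R t d + ENNReal.ofReal (1 / d ^ 2)
        + ENNReal.ofReal (m * (κ ^ 2 / (R + 1)))) := by
    refine lintegral_mono_ae ?_
    filter_upwards [hturn, hIcc] with d h1 h2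
    have hd0 : 0 < d := by linarith [h2.1]
    refine (place (κ := κ) (R := R) hp hp1 hd0 (by linarith) h1 (hf d h2.1) m).trans ?_
    gcongr
    exact hE d h2.1
  have hsplit : ∫⁻ d in Icc (1 : ℝ) R, (ENNReal.ofReal (C / p / d) + G κ R t d
        + ENNReal.ofReal (1 / d ^ 2) + ENNReal.ofReal (m * (κ ^ 2 / (R + 1))))
      = (∫⁻ d in Icc (1 : ℝ) R, ENNReal.ofReal (C / p / d)) + (∫⁻ d in Icc (1 : ℝ) R, G κ R t d)
        + (∫⁻ d in Icc (1 : ℝ) R, ENNReal.ofReal (1 / d ^ 2))
        + ENNReal.ofReal (m * (κ ^ 2 / (R + 1))) * volume (Icc (1 : ℝ) R) := by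
    rw [lintegral_add_right _ measurable_const, lintegral_add_right, lintegral_add_left,
      setLIntegral_const]
    · exact (by fun_prop : Measurable fun d : ℝ => C / p / d).ennreal_ofReal
    · exact (by fun_prop : Measurable fun d : ℝ => 1 / d ^ 2).ennreal_ofReal
  rw [hsplit, lint_inv hR _ hA0, lint_inv hR (C / p) (by positivity)] at hmain
  have hG : ∫⁻ d in Icc (1 : ℝ) R, G κ R t d ≤ ENNReal.ofReal (κ ^ 2 * Real.log (R + 1)) :=
    (setLIntegral_le_lintegral _ _).trans ((G_integral κ R t).trans (lint_Lam (by linarith)))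
  have hlast : ENNReal.ofReal (m * (κ ^ 2 / (R + 1))) * volume (Icc (1 : ℝ) R)
      ≤ ENNReal.ofReal (m * κ ^ 2) := by
    rw [Real.volume_Icc, ← ENNReal.ofReal_mul (by positivity)]
    apply ENNReal.ofReal_le_ofReal
    have h1 : κ ^ 2 / (R + 1) * (R - 1) ≤ κ ^ 2 := by
      rw [div_mul_eq_mul_div, div_le_iff₀ (by linarith)]
      nlinarith [sq_nonneg κ]
    calc (m : ℝ) * (κ ^ 2 / (R + 1)) * (R - 1) = m * (κ ^ 2 / (R + 1) * (R - 1)) := by ring
      _ ≤ m * κ ^ 2 := by gcongr
  have hlogR : 0 ≤ Real.log R := Real.log_nonneg hR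
  have hlogR1 : 0 ≤ Real.log (R + 1) := Real.log_nonneg (by linarith)
  have hfin : ENNReal.ofReal (A * Real.log R)
      ≤ ENNReal.ofReal (C / p * Real.log R + κ ^ 2 * Real.log (R + 1) + 1 + m * κ ^ 2) := by
    rw [ENNReal.ofReal_add (by positivity) (by positivity), ENNReal.ofReal_add (by positivity)
      one_pos.le, ENNReal.ofReal_add (by positivity) (by positivity), ENNReal.ofReal_one]
    refine hmain.trans ?_
    gcongr
    exact lint_inv_sq hR
  exact (ENNReal.ofReal_le_ofReal_iff (by positivity)).mp hfin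

/-- **Lower bound.** Every trajectory which finds every treasure with probability one has
competitive ratio at least `(1 + √(1 - p))²`. -/
theorem lower_bound {p : ℝ} (hp : 0 < p) (hp1 : p < 1) (t : ℕ → ℝ) (hf : Found p t) :
    ENNReal.ofReal ((1 + √(1 - p)) ^ 2) ≤ ratio p t := by
  rcases eq_or_ne (ratio p t) ⊤ with htop | htop
  · rw [htop]
    exact le_top
  set C : ℝ := (ratio p t).toReal with hC
  have hC0 : 0 ≤ C := ENNReal.toReal_nonneg
  have hCe : ratio p t = ENNReal.ofReal C := (ENNReal.ofReal_toReal htop).symm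
  rw [hCe]
  apply ENNReal.ofReal_le_ofReal
  set s : ℝ := √(1 - p) with hs
  have hs0 : 0 ≤ s := Real.sqrt_nonneg _
  have hs2 : s ^ 2 = 1 - p := Real.sq_sqrt (by linarith)
  have hs1 : s < 1 := by nlinarith
  -- for every `m`
  have hm : ∀ m : ℕ, p ^ 2 * (∑ n ∈ Finset.range m, s ^ n) ^ 2 ≤ C := by
    intro m
    set S : ℝ := ∑ n ∈ Finset.range m, s ^ n with hS
    have hS0 : 0 ≤ S := Finset.sum_nonneg fun _ _ => by positivity
    set κ : ℝ := √p * S with hκ
    have hκ0 : 0 ≤ κ := mul_nonneg (Real.sqrt_nonneg _) hS0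
    have hκ2 : κ ^ 2 = p * S ^ 2 := by
      rw [hκ, mul_pow, Real.sq_sqrt hp.le]
    by_contra hlt
    push Not at hlt
    set a : ℝ := p * S ^ 2 - C / p with ha
    have ha0 : 0 < a := by
      rw [ha, sub_pos, div_lt_iff₀ hp]
      calc C < p ^ 2 * S ^ 2 := hlt
        _ = p * S ^ 2 * p := by ring
    have hall : ∀ R : ℝ, 1 ≤ R → a * Real.log R ≤ κ ^ 2 * Real.log 2 + 1 + m * κ ^ 2 := by
      intro R hR
      have h := averaged hp hp1 hκ0 hR hf m C hC0 hCe.le
      have h1 : 2 * κ * √p * S = 2 * (p * S ^ 2) := by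
        rw [hκ]
        have := Real.mul_self_sqrt hp.le
        linear_combination 2 * S ^ 2 * this
      rw [← hs, ← hS, h1] at h
      have h2 : Real.log (R + 1) ≤ Real.log R + Real.log 2 := by
        rw [← Real.log_mul (by positivity) (by norm_num)]
        apply Real.log_le_log (by linarith)
        linarith
      have h3 : κ ^ 2 * Real.log (R + 1) ≤ κ ^ 2 * (Real.log R + Real.log 2) :=
        mul_le_mul_of_nonneg_left h2 (sq_nonneg κ)
      rw [ha]
      have h4 : κ ^ 2 * (Real.log R + Real.log 2) = p * S ^ 2 * Real.log R + κ ^ 2 * Real.log 2 := by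
        rw [hκ2]
        ring
      nlinarith
    set B : ℝ := κ ^ 2 * Real.log 2 + 1 + m * κ ^ 2 with hB
    have hB0 : 0 < B := by
      have h7 : 0 < Real.log 2 := Real.log_pos (by norm_num)
      have h8 : 0 ≤ κ ^ 2 * Real.log 2 := mul_nonneg (sq_nonneg κ) h7.le
      have h9 : 0 ≤ (m : ℝ) * κ ^ 2 := mul_nonneg (Nat.cast_nonneg m) (sq_nonneg κ)
      linarith
    have h5 := hall (Real.exp (2 * B / a))
      (Real.one_le_exp (div_nonneg (mul_nonneg (by norm_num) hB0.le) ha0.le))
    rw [Real.log_exp] at h5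
    have h6 : a * (2 * B / a) = 2 * B := by field_simp
    linarith
  have hlim : Tendsto (fun m : ℕ => p ^ 2 * (∑ n ∈ Finset.range m, s ^ n) ^ 2) atTop
      (𝓝 (p ^ 2 * ((1 - s)⁻¹) ^ 2)) :=
    (((hasSum_geometric_of_lt_one hs0 hs1).tendsto_sum_nat).pow 2).const_mul _
  have hle := le_of_tendsto' hlim hm
  have hval : p ^ 2 * ((1 - s)⁻¹) ^ 2 = (1 + s) ^ 2 := by
    have h1 : p = (1 - s) * (1 + s) := by linear_combination hs2
    have h2 : 1 - s ≠ 0 := by linarith
    rw [h1]
    field_simp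
  rw [← hval]
  exact hle

end Pool.Agent.KS6_42.HS
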