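import Pool.Agent.KS6_42.HS.Low1

/-!
# The upper bound, part 1: blocks of moves
-/

open Filter Topology
open scoped ENNReal

namespace Pool.Agent.KS6_42.HS

/-- the contribution of the first `n` moves to the expected time -/
noncomputable def Part (p : ℝ) (t : ℕ → ℝ) (d : ℝ) (n : ℕ) : ℝ :=
  ∑ j ∈ Finset.range n, surv p t d j * det p (t j) (t (j + 1)) d * (time t j + |d - t j|)

lemma Part_succ (p : ℝ) (t : ℕ → ℝ) (d : ℝ) (n : ℕ) :
    Part p t d (n + 1) = Part p t d n
      + surv p t d n * det p (t n) (t (n + 1)) d * (time t n + |d - t n|) := by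
  unfold Part
  rw [Finset.sum_range_succ]

lemma det_nonneg {p : ℝ} (hp : 0 ≤ p) (u v d : ℝ) : 0 ≤ det p u v d := by
  unfold det
  split_ifs <;> linarith

lemma det_le_one {p : ℝ} (hp : p ≤ 1) (u v d : ℝ) : det p u v d ≤ 1 := by
  unfold det
  split_ifs <;> linarith

lemma surv_nonneg {p : ℝ} (hp : p ≤ 1) (t : ℕ → ℝ) (d : ℝ) (n : ℕ) : 0 ≤ surv p t d n := by
  unfold surv
  exact Finset.prod_nonneg fun j _ => by linarith [det_le_one hp (t j) (t (j + 1)) d]

lemma surv_anti {p : ℝ} (hp : 0 ≤ p) (hp1 : p ≤ 1) (t : ℕ → ℝ) (d : ℝ) : Antitone (surv p t d) :=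
  antitone_nat_of_succ_le fun n => by
    rw [surv_succ]
    have h1 := surv_nonneg hp1 t d n
    have h2 := det_nonneg hp (t n) (t (n + 1)) d
    nlinarith

/-- if the treasure is detected during a move then before the end of the move -/
lemma time_le_of_det {p : ℝ} {t : ℕ → ℝ} {d : ℝ} {j : ℕ} (h : det p (t j) (t (j + 1)) d ≠ 0) :
    time t j + |d - t j| ≤ time t (j + 1) := by
  rw [time_succ]
  have key : |d - t j| ≤ |t (j + 1) - t j| := by
    unfold det at h
    split_ifs at h with h1 h2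
    · rw [h1]
    · rcases h2 with h2 | h2
      · rw [abs_of_pos (by linarith [h2.1]), abs_of_pos (by linarith [h2.1, h2.2])]
        linarith [h2.2]
      · rw [abs_of_neg (by linarith [h2.2]), abs_of_neg (by linarith [h2.1, h2.2])]
        linarith [h2.1]
    · exact absurd rfl h
  linarith

/-- a block of moves in which the treasure is detected at the time `A` at the latest -/
lemma block {p A : ℝ} {t : ℕ → ℝ} {d : ℝ} (hp : 0 ≤ p) (hp1 : p ≤ 1) (a b : ℕ) (hab : a ≤ b)
    (hA : ∀ j, a ≤ j → j < b → det p (t j) (t (j + 1)) d ≠ 0 → time t j + |d - t j| ≤ A) :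
    Part p t d b ≤ Part p t d a + A * (surv p t d a - surv p t d b) := by
  induction b, hab using Nat.le_induction with
  | base => simp
  | succ b hb ih =>
    have h1 := ih fun j h2 h3 => hA j h2 (by omega)
    rw [Part_succ, surv_succ]
    have h4 := surv_nonneg hp1 t d b
    have h5 := det_nonneg hp (t b) (t (b + 1)) d
    have h6 : surv p t d b * det p (t b) (t (b + 1)) d * (time t b + |d - t b|)
        ≤ surv p t d b * det p (t b) (t (b + 1)) d * A := by
      by_cases h : det p (t b) (t (b + 1)) d = 0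
      · rw [h]
        simp
      · exact mul_le_mul_of_nonneg_left (hA b hb (by omega) h) (mul_nonneg h4 h5)
    nlinarith

/-- a block followed by a potential -/
lemma block' {p A Y σ : ℝ} {t : ℕ → ℝ} {d : ℝ} (hp : 0 ≤ p) (hp1 : p ≤ 1) (a b : ℕ) (hab : a ≤ b)
    (hA : ∀ j, a ≤ j → j < b → det p (t j) (t (j + 1)) d ≠ 0 → time t j + |d - t j| ≤ A)
    (hs : surv p t d b ≤ σ * surv p t d a) (hY : A ≤ Y) :
    Part p t d b + surv p t d b * Y
      ≤ Part p t d a + surv p t d a * ((1 - σ) * A + σ * Y) := by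
  have h1 := block hp hp1 a b hab hA
  have h2 : surv p t d b * (Y - A) ≤ σ * surv p t d a * (Y - A) :=
    mul_le_mul_of_nonneg_right hs (by linarith)
  nlinarith

lemma surv_up {p : ℝ} {t : ℕ → ℝ} {d : ℝ} (hp : 0 ≤ p) (hp1 : p ≤ 1) {n : ℕ} (h1 : t n < d)
    (h2 : d ≤ t (n + 1)) : surv p t d (n + 1) ≤ (1 - p) * surv p t d n := by
  rw [surv_succ]
  have h3 := surv_nonneg hp1 t d n
  have h4 : p ≤ det p (t n) (t (n + 1)) d := by
    unfold det
    split_ifs with h5 h6
    · exact hp1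
    · exact le_rfl
    · exact absurd (Or.inl ⟨h1, lt_of_le_of_ne h2 (Ne.symm h5)⟩) h6
  nlinarith

lemma surv_down {p : ℝ} {t : ℕ → ℝ} {d : ℝ} (hp : 0 ≤ p) (hp1 : p ≤ 1) {n : ℕ} (h1 : t (n + 1) < d)
    (h2 : d < t n) : surv p t d (n + 1) ≤ (1 - p) * surv p t d n := by
  rw [surv_succ]
  have h3 := surv_nonneg hp1 t d n
  have h4 : p ≤ det p (t n) (t (n + 1)) d := by
    unfold det
    split_ifs with h5 h6
    · exact hp1
    · exact le_rfl
    · exact absurd (Or.inr ⟨h1, h2⟩) h6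
  nlinarith

lemma surv_hit {p : ℝ} {t : ℕ → ℝ} {d : ℝ} {n : ℕ} (h : t (n + 1) = d) :
    surv p t d (n + 1) = 0 := by
  rw [surv_succ]
  unfold det
  rw [if_pos h]
  ring

/-- outward and inward again, beyond `d` or exactly to `d` -/
lemma surv_zig {p : ℝ} {t : ℕ → ℝ} {d : ℝ} (hp : 0 ≤ p) (hp1 : p ≤ 1) {n : ℕ} (h1 : t n < d)
    (h2 : d ≤ t (n + 1)) (h3 : t (n + 2) < d) :
    surv p t d (n + 2) ≤ (1 - p) ^ 2 * surv p t d n := by
  have h4 := surv_nonneg hp1 t d n
  rcases h2.eq_or_lt with h5 | h5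
  · have h6 : surv p t d (n + 1) = 0 := surv_hit h5.symm
    have h7 := surv_anti hp hp1 t d (show n + 1 ≤ n + 2 by omega)
    rw [h6] at h7
    have : 0 ≤ (1 - p) ^ 2 * surv p t d n := by positivity
    linarith
  · have h6 := surv_up hp hp1 h1 h2
    have h7 := surv_down hp hp1 (n := n + 1) h3 h5
    have h8 : 0 ≤ 1 - p := by linarith
    calc surv p t d (n + 2) ≤ (1 - p) * surv p t d (n + 1) := h7
      _ ≤ (1 - p) * ((1 - p) * surv p t d n) := by gcongr
      _ = (1 - p) ^ 2 * surv p t d n := by ring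

/-- a potential bounds the expected time -/
lemma expTime_le {p B : ℝ} {t : ℕ → ℝ} {d : ℝ} (hp : 0 ≤ p) (hp1 : p ≤ 1)
    (hB : ∀ n, ∃ n', n ≤ n' ∧ Part p t d n' ≤ B) : expTime p t d ≤ ENNReal.ofReal B := by
  have hw : ∀ j, 0 ≤ surv p t d j * det p (t j) (t (j + 1)) d * (time t j + |d - t j|) := fun j =>
    mul_nonneg (mul_nonneg (surv_nonneg hp1 t d j) (det_nonneg hp _ _ _))
      (add_nonneg (time_nonneg t j) (abs_nonneg _))
  have hmono : Monotone (Part p t d) := monotone_nat_of_le_succ fun n => by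
    rw [Part_succ]
    linarith [hw n]
  unfold expTime
  rw [ENNReal.tsum_eq_iSup_nat]
  refine iSup_le fun n => ?_
  rw [← ENNReal.ofReal_sum_of_nonneg fun j _ => hw j]
  apply ENNReal.ofReal_le_ofReal
  obtain ⟨n', h1, h2⟩ := hB n
  exact (hmono h1).trans h2

end Pool.Agent.KS6_42.HS
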