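import Pool.Agent.KS6_42.HS.Low2
import Pool.Agent.KS6_42.HS.Up1

/-!
# A lower bound for large detection probabilities, part 1: tools
-/

open Filter Topology MeasureTheory Set
open scoped ENNReal

namespace Pool.Agent.KS6_42.HS

variable {t : ℕ → ℝ} {p d x : ℝ}

/-- going from `t a` to `d` takes at least the distance -/
lemma time_tri (t : ℕ → ℝ) (d : ℝ) {a k : ℕ} (h : a ≤ k) :
    time t a + |d - t a| ≤ time t k + |d - t k| := by
  induction k, h using Nat.le_induction with
  | base => exact le_rfl
  | succ k hk ih =>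
    rw [time_succ]
    have := abs_sub_le d (t (k + 1)) (t k)
    linarith

/-- a lower bound for the expected time -/
lemma expTime_ge (hp : 0 ≤ p) (hp1 : p ≤ 1) (hf : Tendsto (surv p t d) atTop (𝓝 0)) (a : ℕ) :
    ENNReal.ofReal (Part p t d a + surv p t d a * (time t a + |d - t a|)) ≤ expTime p t d := by
  have h1 : ∀ K, a ≤ K → Part p t d a + (surv p t d a - surv p t d K) * (time t a + |d - t a|)
      ≤ Part p t d K := by
    intro K hK
    induction K, hK using Nat.le_induction with
    | base => simp
    | succ K hK ih =>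
      rw [Part_succ, surv_succ]
      have h2 := time_tri t d hK
      have h3 := surv_nonneg hp1 t d K
      have h4 := det_nonneg hp (t K) (t (K + 1)) d
      have h5 := mul_le_mul_of_nonneg_left h2 (mul_nonneg h3 h4)
      nlinarith
  have h2 : ∀ K, ENNReal.ofReal (Part p t d K) ≤ expTime p t d := by
    intro K
    unfold Part expTime
    rw [ENNReal.ofReal_sum_of_nonneg fun j _ => mul_nonneg (mul_nonneg (surv_nonneg hp1 t d j)
      (det_nonneg hp _ _ _)) (add_nonneg (time_nonneg t j) (abs_nonneg _))]
    exact ENNReal.sum_le_tsum _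
  have hlim : Tendsto (fun K => ENNReal.ofReal (Part p t d a
      + (surv p t d a - surv p t d K) * (time t a + |d - t a|))) atTop
      (𝓝 (ENNReal.ofReal (Part p t d a + (surv p t d a - 0) * (time t a + |d - t a|)))) :=
    ENNReal.tendsto_ofReal (((hf.const_sub _).mul_const _).const_add _)
  rw [sub_zero] at hlim
  exact le_of_tendsto hlim ((eventually_ge_atTop a).mono fun K hK =>
    (ENNReal.ofReal_le_ofReal (h1 K hK)).trans (h2 K))

lemma ratio_ge {C X : ℝ} (hp : 0 < p) (hC0 : 0 ≤ C) (hC : ratio p t ≤ ENNReal.ofReal C)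
    (hd : 1 ≤ d) (hX : ENNReal.ofReal X ≤ expTime p t d) : p * X ≤ C * d := by
  have hd0 : 0 < d := by linarith
  have h1 : ENNReal.ofReal p * expTime p t d / ENNReal.ofReal d ≤ ENNReal.ofReal C := by
    refine le_trans ?_ hC
    unfold ratio
    exact le_iSup₂ (f := fun (d : ℝ) (_ : 1 ≤ d) =>
      ENNReal.ofReal p * expTime p t d / ENNReal.ofReal d) d hd
  have h2 : ENNReal.ofReal (p * X / d) ≤ ENNReal.ofReal C := by
    rw [ENNReal.ofReal_div_of_pos hd0, ENNReal.ofReal_mul hp.le]
    refine le_trans ?_ h1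
    gcongr
  have h3 := (ENNReal.ofReal_le_ofReal_iff hC0).mp h2
  rwa [div_le_iff₀ hd0] at h3

lemma ae_not_turn (t : ℕ → ℝ) : ∀ᵐ x ∂(volume : Measure ℝ), ∀ j, t j ≠ x := by
  have h0 : volume (range t) = 0 := (countable_range t).measure_zero volume
  filter_upwards [(measure_eq_zero_iff_ae_notMem).mp h0] with x hx j hj
  exact hx ⟨j, hj⟩

lemma lint_cnt (t : ℕ → ℝ) (k : ℕ) :
    ∫⁻ x, (cnt t x k : ℝ≥0∞) = ENNReal.ofReal (time t k) := by
  classical
  induction k with
  | zero => simp [cnt, time]
  | succ k ih =>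
    have hm := move_integral t k (fun _ => 1)
    rw [setLIntegral_const, Real.volume_Ioo, one_mul] at hm
    have e : ∀ x, (cnt t x (k + 1) : ℝ≥0∞) = cnt t x k
        + (if (t k < x ∧ x < t (k + 1)) ∨ (t (k + 1) < x ∧ x < t k) then 1 else 0) := by
      intro x
      rw [cnt_succ]
      by_cases h : (t k < x ∧ x < t (k + 1)) ∨ (t (k + 1) < x ∧ x < t k)
      · rw [if_pos h, if_pos (show pass t x k from h)]
        push_cast
        rfl
      · rw [if_neg h, if_neg (show ¬ pass t x k from h)]
        push_cast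
        rfl
    simp_rw [e]
    rw [lintegral_add_right, ih, hm, ← ENNReal.ofReal_add (time_nonneg t k)]
    · congr 1
      ring
    · have := time_mono t (Nat.le_succ k)
      simp only [Nat.succ_eq_add_one] at this
      linarith
    · refine Measurable.ite ?_ measurable_const measurable_const
      exact (measurableSet_Ioo (a := t k) (b := t (k + 1))).union
        (measurableSet_Ioo (a := t (k + 1)) (b := t k))

/-- a lower bound for the time by the numbers of passes -/
lemma time_ge {a b c : ℝ} (hab : a ≤ b) (hbc : b ≤ c) (M N k : ℕ)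
    (h1 : ∀ x, a < x → x < b → (∀ j, t j ≠ x) → M ≤ cnt t x k)
    (h2 : ∀ x, b < x → x < c → (∀ j, t j ≠ x) → N ≤ cnt t x k) :
    M * (b - a) + N * (c - b) ≤ time t k := by
  have hM : (0 : ℝ) ≤ M * (b - a) := mul_nonneg (Nat.cast_nonneg M) (by linarith)
  have hN : (0 : ℝ) ≤ N * (c - b) := mul_nonneg (Nat.cast_nonneg N) (by linarith)
  have e : ENNReal.ofReal (M * (b - a) + N * (c - b)) ≤ ENNReal.ofReal (time t k) := by
    rw [← lint_cnt]
    calc ENNReal.ofReal (M * (b - a) + N * (c - b))
        = ∫⁻ x, ((Ioo a b).indicator (fun _ => (M : ℝ≥0∞)) x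
            + (Ioo b c).indicator (fun _ => (N : ℝ≥0∞)) x) := by
          rw [lintegral_add_left (measurable_const.indicator measurableSet_Ioo),
            lintegral_indicator measurableSet_Ioo, lintegral_indicator measurableSet_Ioo,
            setLIntegral_const, setLIntegral_const, Real.volume_Ioo, Real.volume_Ioo,
            ENNReal.ofReal_add hM hN, ENNReal.ofReal_mul (Nat.cast_nonneg M),
            ENNReal.ofReal_mul (Nat.cast_nonneg N), ENNReal.ofReal_natCast, ENNReal.ofReal_natCast]
      _ ≤ ∫⁻ x, (cnt t x k : ℝ≥0∞) := by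
          refine lintegral_mono_ae ?_
          filter_upwards [ae_not_turn t] with x hx
          by_cases h3 : x ∈ Ioo a b
          · rw [indicator_of_mem h3, indicator_of_notMem (fun h4 => by linarith [h3.2, h4.1]),
              add_zero]
            exact_mod_cast h1 x h3.1 h3.2 hx
          · rw [indicator_of_notMem h3, zero_add]
            by_cases h4 : x ∈ Ioo b c
            · rw [indicator_of_mem h4]
              exact_mod_cast h2 x h4.1 h4.2 hx
            · rw [indicator_of_notMem h4]
              exact bot_le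
  exact (ENNReal.ofReal_le_ofReal_iff (time_nonneg t k)).mp e

lemma cnt_mono (t : ℕ → ℝ) (x : ℝ) : Monotone (cnt t x) :=
  monotone_nat_of_le_succ fun k => by
    rw [cnt_succ]
    exact Nat.le_add_right _ _

lemma cnt_le (t : ℕ → ℝ) (x : ℝ) (k : ℕ) : cnt t x k ≤ k := by
  classical
  unfold cnt
  exact (Finset.card_filter_le _ _).trans (by simp)

/-- the parity of the number of passes tells on which side the searcher is -/
lemma parity (hx : ∀ j, t j ≠ x) (h0 : t 0 < x) (k : ℕ) : Even (cnt t x k) ↔ t k < x := by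
  induction k with
  | zero => simp [cnt, h0]
  | succ k ih =>
    rw [cnt_succ]
    by_cases h : pass t x k
    · rw [if_pos h, Nat.even_add_one, ih]
      rcases h with h | h
      · exact ⟨fun h' => absurd h.1 h', fun h' => by linarith [h.2]⟩
      · exact ⟨fun _ => h.1, fun _ h'' => by linarith [h.2]⟩
    · rw [if_neg h, add_zero, ih]
      unfold pass at h
      push Not at h
      constructor
      · intro h1
        exact lt_of_le_of_ne (h.1 h1) (hx (k + 1))
      · intro h1
        exact lt_of_le_of_ne (h.2 h1) (hx k)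

lemma cross (hx : ∀ j, t j ≠ x) (h0 : t 0 < x) {j k : ℕ} (hjk : j ≤ k)
    (h : (t j < x ∧ x < t k) ∨ (t k < x ∧ x < t j)) : cnt t x j < cnt t x k := by
  refine lt_of_le_of_ne (cnt_mono t x hjk) fun he => ?_
  have h1 := parity hx h0 j
  have h2 := parity hx h0 k
  rw [he] at h1
  have h3 : t j < x ↔ t k < x := h1.symm.trans h2
  rcases h with h | h
  · linarith [h3.mp h.1, h.2]
  · linarith [h3.mpr h.1, h.2]

lemma exists_not_turn (t : ℕ → ℝ) {a b : ℝ} (hab : a < b) : ∃ x, a < x ∧ x < b ∧ ∀ j, t j ≠ x := by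
  obtain ⟨z, hz, h1⟩ := ((countable_range t).dense_compl ℝ).exists_between hab
  exact ⟨z, h1.1, h1.2, fun j hj => hz ⟨j, hj⟩⟩

/-- the searcher comes back infinitely often -/
lemma exists_low (hp : 0 < p) (hp1 : p < 1) (hf : Found p t) (N : ℕ) : ∃ i, N ≤ i ∧ t i < 2 := by
  classical
  obtain ⟨x, hx1, hx2, hx⟩ := exists_not_turn t (show (1 : ℝ) < 2 by norm_num)
  by_contra hne
  push Not at hne
  obtain ⟨K, hK⟩ := cnt_large hp hp1 hx (hf x hx1.le) (N + 1)
  have h1 : ∀ k, N ≤ k → cnt t x k = cnt t x N := by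
    intro k hk
    induction k, hk using Nat.le_induction with
    | base => rfl
    | succ k hk ih =>
      rw [cnt_succ, if_neg, add_zero, ih]
      have h2 := hne k hk
      have h3 := hne (k + 1) (by omega)
      rintro (h | h)
      · linarith [h.1]
      · linarith [h.1]
  have h2 := cnt_mono t x (Nat.le_add_right K N)
  have h3 := h1 (K + N) (by omega)
  have h4 := cnt_le t x N
  omega

/-- the searcher goes far -/
lemma exists_high (hf : Found p t) (D : ℝ) : ∃ j, D < t j := by
  by_contra hne
  push Not at hne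
  have h1 : ∀ k, surv p t (|D| + 1) k = 1 := by
    intro k
    induction k with
    | zero => simp [surv]
    | succ k ih =>
      have h2 := hne k
      have h3 := hne (k + 1)
      have h4 := le_abs_self D
      have : det p (t k) (t (k + 1)) (|D| + 1) = 0 := by
        unfold det
        rw [if_neg (by linarith), if_neg]
        rintro (h | h)
        · linarith [h.2]
        · linarith [h.2]
      rw [surv_succ, ih, this]
      norm_num
  have h2 := hf (|D| + 1) (by linarith [abs_nonneg D])
  have h3 : Tendsto (surv p t (|D| + 1)) atTop (𝓝 1) := by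
    rw [show surv p t (|D| + 1) = fun _ => 1 from funext h1]
    exact tendsto_const_nhds
  exact zero_ne_one (tendsto_nhds_unique h2 h3)

/-- two successive returns -/
lemma selection (hp : 0 < p) (hp1 : p < 1) (hf : Found p t) (R : ℝ) :
    ∃ y i a i' : ℕ, y ≤ i ∧ i < a ∧ a ≤ i' ∧ t i < 2 ∧ t i' < 2 ∧ R < t y ∧ t y < t a
      ∧ (∀ j, j ≤ i' → t j ≤ t a) := by
  obtain ⟨j1, hj1⟩ := exists_high hf R
  obtain ⟨i, hi1, hi2⟩ := exists_low hp hp1 hf j1
  obtain ⟨y, hy1, hy2⟩ := Finset.exists_max_image (Finset.range (i + 1)) t ⟨0, by simp⟩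
  obtain ⟨j2, hj2⟩ := exists_high hf (t y)
  obtain ⟨i', hi'1, hi'2⟩ := exists_low hp hp1 hf j2
  obtain ⟨a, ha1, ha2⟩ := Finset.exists_max_image (Finset.range (i' + 1)) t ⟨0, by simp⟩
  have hya : t y < t a := lt_of_lt_of_le hj2 (ha2 j2 (by simp; omega))
  refine ⟨y, i, a, i', ?_, ?_, ?_, hi2, hi'2, ?_, hya, ?_⟩
  · simp at hy1
    omega
  · by_contra h
    have := hy2 a (by simp; omega)
    linarith
  · simp at ha1
    omega
  · exact lt_of_lt_of_le hj1 (hy2 j1 (by simp; omega))
  · intro j hj
    exact ha2 j (by simp; omega)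

end Pool.Agent.KS6_42.HS
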