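import Pool.Agent.KS6_42.HS.Up2
import Pool.Agent.KS6_42.HS.Low2

/-!
# The upper bound for large detection probabilities

Cycle `k` goes from `0` to `u + w`, back to `u`, to `1` and back to `0`, multiplied by `r ^ (-k)`,
where `u = r = x ^ 3`, `u + w = x ^ 2` and `1 - p = x ^ 4`.
-/

open Filter Topology
open scoped ENNReal

namespace Pool.Agent.KS6_42.HS

variable {r u w p d x : ℝ}

lemma pos0 (k : ℕ) : tr 1 r u w (4 * k) = 0 := by
  rw [show 4 * k = 2 * (k * (1 + 1)) by ring, tr_even, lo_start]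

lemma pos1 (k : ℕ) : tr 1 r u w (4 * k + 1) = (1 / r) ^ k * (u + w) := by
  rw [show 4 * k + 1 = 2 * (k * (1 + 1) + 0) + 1 by ring, tr_odd, hi_lt' k 0 (by norm_num)]
  push_cast
  ring

lemma pos2 (k : ℕ) : tr 1 r u w (4 * k + 2) = (1 / r) ^ k * u := by
  rw [show 4 * k + 2 = 2 * (k * (1 + 1) + 1) by ring, tr_even, lo_pos' k 1 le_rfl le_rfl]

lemma pos3 (k : ℕ) : tr 1 r u w (4 * k + 3) = (1 / r) ^ k := by
  rw [show 4 * k + 3 = 2 * (k * (1 + 1) + 1) + 1 by ring, tr_odd, hi_last]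

lemma pos4 (k : ℕ) : tr 1 r u w (4 * k + 4) = 0 := by
  rw [show 4 * k + 4 = 4 * (k + 1) by ring, pos0]

lemma tm1 (hr : 0 < r) (hu : 0 < u) (hw : 0 < w) (k : ℕ) :
    time (tr 1 r u w) (4 * k + 1) = time (tr 1 r u w) (4 * k) + (1 / r) ^ k * (u + w) := by
  have hb := bpos hr k
  rw [time_succ, pos1, pos0, sub_zero, abs_of_pos (by positivity)]

lemma tm2 (hr : 0 < r) (hu : 0 < u) (hw : 0 < w) (k : ℕ) :
    time (tr 1 r u w) (4 * k + 2) = time (tr 1 r u w) (4 * k) + (1 / r) ^ k * (u + 2 * w) := by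
  have hb := bpos hr k
  have : 0 < (1 / r) ^ k * w := by positivity
  rw [show 4 * k + 2 = 4 * k + 1 + 1 by ring, time_succ, tm1 hr hu hw,
    show 4 * k + 1 + 1 = 4 * k + 2 by ring, pos1, pos2, abs_of_neg (by nlinarith)]
  ring

lemma tm3 (hr : 0 < r) (hu : 0 < u) (hw : 0 < w) (h1 : u + w ≤ 1) (k : ℕ) :
    time (tr 1 r u w) (4 * k + 3) = time (tr 1 r u w) (4 * k) + (1 / r) ^ k * (1 + 2 * w) := by
  have hb := bpos hr k
  have : 0 < (1 / r) ^ k * (1 - u) := mul_pos hb (by linarith)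
  rw [show 4 * k + 3 = 4 * k + 2 + 1 by ring, time_succ, tm2 hr hu hw,
    show 4 * k + 2 + 1 = 4 * k + 3 by ring, pos2, pos3, abs_of_pos (by nlinarith)]
  ring

lemma tm4 (hr : 0 < r) (hu : 0 < u) (hw : 0 < w) (h1 : u + w ≤ 1) (k : ℕ) :
    time (tr 1 r u w) (4 * k + 4) = time (tr 1 r u w) (4 * k) + (1 / r) ^ k * (2 + 2 * w) := by
  have hb := bpos hr k
  rw [show 4 * k + 4 = 4 * k + 3 + 1 by ring, time_succ, tm3 hr hu hw h1,
    show 4 * k + 3 + 1 = 4 * k + 4 by ring, pos3, pos4, abs_of_neg (by linarith)]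
  ring

lemma tm0_le (hr : 0 < r) (hr1 : r < 1) (hu : 0 < u) (hw : 0 < w) (h1 : u + w ≤ 1) (k : ℕ) :
    time (tr 1 r u w) (4 * k) ≤ (2 + 2 * w) / (1 - r) * (r * (1 / r) ^ k) := by
  have h := time_start_le (m := 1) (q := r) (u := u) (w := w) hr hr1 hu hw (by push_cast; linarith)
    le_rfl k
  rw [show 2 * (k * (1 + 1)) = 4 * k by ring] at h
  refine h.trans (le_of_eq ?_)
  push_cast
  ring

lemma tm4_le (hr : 0 < r) (hr1 : r < 1) (hu : 0 < u) (hw : 0 < w) (h1 : u + w ≤ 1) (k : ℕ) :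
    time (tr 1 r u w) (4 * k + 4) ≤ (2 + 2 * w) / (1 - r) * (1 / r) ^ k := by
  rw [tm4 hr hu hw h1]
  have h := tm0_le hr hr1 hu hw h1 k
  have e : (2 + 2 * w) / (1 - r) * (1 / r) ^ k
      = (2 + 2 * w) / (1 - r) * (r * (1 / r) ^ k) + (1 / r) ^ k * (2 + 2 * w) := by
    have : 1 - r ≠ 0 := by linarith
    field_simp
    ring
  rw [e]
  linarith

lemma tr_le' (hr : 0 < r) (hr1 : r < 1) (hu : 0 < u) (hw : 0 < w) (h1 : u + w ≤ 1) (k n : ℕ)
    (hn : n ≤ 4 * k + 4) : tr 1 r u w n ≤ (1 / r) ^ k :=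
  tr_le (m := 1) hr hr1 hu hw (by push_cast; linarith) le_rfl k n (by omega)

/-- before the treasure is reached -/
lemma before' (hr : 0 < r) (hr1 : r < 1) (hu : 0 < u) (hw : 0 < w) (h1 : u + w ≤ 1) (k : ℕ)
    (hd : r * (1 / r) ^ k < d) : Part p (tr 1 r u w) d (4 * k) = 0 := by
  rcases Nat.eq_zero_or_pos k with h | h
  · subst h
    simp [Part]
  · obtain ⟨k1, rfl⟩ : ∃ k1, k = k1 + 1 := ⟨k - 1, by omega⟩
    have e : r * (1 / r) ^ (k1 + 1) = (1 / r) ^ k1 := by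
      rw [pow_succ]
      field_simp
    rw [e] at hd
    have : ∀ n, n ≤ 4 * (k1 + 1) → Part p (tr 1 r u w) d n = 0 := by
      intro n
      induction n with
      | zero => intro _; simp [Part]
      | succ n ih =>
        intro hn
        have a := tr_le' hr hr1 hu hw h1 k1 n (by omega)
        have b := tr_le' hr hr1 hu hw h1 k1 (n + 1) (by omega)
        have e : det p (tr 1 r u w n) (tr 1 r u w (n + 1)) d = 0 := by
          unfold det
          rw [if_neg (by linarith), if_neg]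
          rintro (h | h)
          · linarith [h.2]
          · linarith [h.2]
        rw [Part_succ, ih (by omega), e]
        simp
    exact this _ le_rfl

lemma block_simple {A : ℝ} {t : ℕ → ℝ} (hp : 0 ≤ p) (hp1 : p ≤ 1) (hA0 : 0 ≤ A) (a b : ℕ)
    (hab : a ≤ b)
    (hA : ∀ j, a ≤ j → j < b → det p (t j) (t (j + 1)) d ≠ 0 → time t j + |d - t j| ≤ A) :
    Part p t d b ≤ Part p t d a + A * surv p t d a := by
  have h := block hp hp1 a b hab hA
  have h2 := mul_nonneg hA0 (surv_nonneg hp1 t d b)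
  linarith

/-- all detections before the end of cycle `k` take place before the time `λ r ^ (-k)` -/
lemma cycle_time (hr : 0 < r) (hr1 : r < 1) (hu : 0 < u) (hw : 0 < w) (h1 : u + w ≤ 1) (k j : ℕ)
    (hj : j < 4 * k + 4) (hdet : det p (tr 1 r u w j) (tr 1 r u w (j + 1)) d ≠ 0) :
    time (tr 1 r u w) j + |d - tr 1 r u w j| ≤ (2 + 2 * w) / (1 - r) * (1 / r) ^ k :=
  (time_le_of_det hdet).trans ((time_mono _ (by omega)).trans (tm4_le hr hr1 hu hw h1 k))

/-- the last move of a cycle -/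
lemma last' (hp : 0 ≤ p) (hp1 : p ≤ 1) (k : ℕ) (hd0 : 0 < d) (hd : d ≤ (1 / r) ^ k) :
    surv p (tr 1 r u w) d (4 * k + 4) ≤ (1 - p) * surv p (tr 1 r u w) d (4 * k + 3) := by
  rcases hd.eq_or_lt with h | h
  · have h2 : surv p (tr 1 r u w) d (4 * k + 3) = 0 := by
      rw [show 4 * k + 3 = 4 * k + 2 + 1 by ring]
      apply surv_hit
      rw [show 4 * k + 2 + 1 = 4 * k + 3 by ring, pos3, h]
    have h3 := surv_anti hp hp1 (tr 1 r u w) d (show 4 * k + 3 ≤ 4 * k + 4 by omega)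
    rw [h2] at h3 ⊢
    linarith
  · exact surv_down hp hp1 (n := 4 * k + 3) (by rw [pos4]; exact hd0) (by rw [pos3]; exact h)

/-- a cycle in which `d` lies below `u` -/
lemma late (hr : 0 < r) (hu : 0 < u) (hw : 0 < w) (h1 : u + w ≤ 1) (hp : 0 ≤ p) (hp1 : p ≤ 1)
    (k : ℕ) (hd0 : 0 < d) (hd : d ≤ (1 / r) ^ k * u) :
    surv p (tr 1 r u w) d (4 * k + 4) ≤ (1 - p) ^ 2 * surv p (tr 1 r u w) d (4 * k) := by
  have hb := bpos hr k
  have hbw : 0 < (1 / r) ^ k * w := by positivity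
  have h2 := surv_up (t := tr 1 r u w) hp hp1 (n := 4 * k) (by rw [pos0]; exact hd0)
    (by rw [pos1]; nlinarith)
  have h3 := last' (r := r) (u := u) (w := w) hp hp1 k hd0 (by nlinarith)
  have h4 := surv_anti hp hp1 (tr 1 r u w) d (show 4 * k + 1 ≤ 4 * k + 3 by omega)
  have h5 : 0 ≤ 1 - p := by linarith
  calc surv p (tr 1 r u w) d (4 * k + 4) ≤ (1 - p) * surv p (tr 1 r u w) d (4 * k + 3) := h3
    _ ≤ (1 - p) * surv p (tr 1 r u w) d (4 * k + 1) := by gcongr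
    _ ≤ (1 - p) * ((1 - p) * surv p (tr 1 r u w) d (4 * k)) := by gcongr
    _ = _ := by ring

/-- after cycle `k₀` -/
lemma after' (hr : 0 < r) (hr1 : r < 1) (hu : 0 < u) (hw : 0 < w) (h1 : u + w ≤ 1) (hp : 0 ≤ p)
    (hp1 : p ≤ 1) (hur : u = r) (hqr : 2 * (1 - p) ^ 2 ≤ r) (k0 : ℕ) (hd0 : 0 < d)
    (hd : d ≤ (1 / r) ^ k0) (n : ℕ) :
    Part p (tr 1 r u w) d (4 * (k0 + 1 + n))
      + surv p (tr 1 r u w) d (4 * (k0 + 1 + n))
        * (2 * ((2 + 2 * w) / (1 - r)) * (1 / r) ^ (k0 + 1 + n))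
      ≤ Part p (tr 1 r u w) d (4 * k0 + 4)
      + surv p (tr 1 r u w) d (4 * k0 + 4)
        * (2 * ((2 + 2 * w) / (1 - r)) * ((1 / r) ^ k0 / r)) := by
  have hL : 0 < (2 + 2 * w) / (1 - r) := div_pos (by linarith) (by linarith)
  have hb1 : 1 ≤ 1 / r := by
    rw [le_div_iff₀ hr]
    linarith
  induction n with
  | zero =>
    rw [show 4 * (k0 + 1 + 0) = 4 * k0 + 4 by ring, add_zero, pow_succ]
    apply le_of_eq
    ring
  | succ n ih =>
    refine le_trans ?_ ih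
    set k := k0 + 1 + n with hk
    have hb := bpos hr k
    rw [show 4 * (k0 + 1 + (n + 1)) = 4 * k + 4 by omega, show k0 + 1 + (n + 1) = k + 1 by omega]
    have hdu : d ≤ (1 / r) ^ k * u := by
      refine hd.trans ?_
      have h3 : (1 / r) ^ (k0 + 1) ≤ (1 / r) ^ k := pow_le_pow_right₀ hb1 (by omega)
      have e : (1 / r) ^ (k0 + 1) * r = (1 / r) ^ k0 := by
        rw [pow_succ]
        field_simp
      rw [hur, ← e]
      exact mul_le_mul_of_nonneg_right h3 hr.le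
    have h3 := late hr hu hw h1 hp hp1 k hd0 hdu
    have h4 := block_simple (t := tr 1 r u w) (d := d) hp hp1
      (A := (2 + 2 * w) / (1 - r) * (1 / r) ^ k) (by positivity) (4 * k) (4 * k + 4) (by omega)
      (fun j _ hj hdet => cycle_time hr hr1 hu hw h1 k j hj hdet)
    have h5 := surv_nonneg hp1 (tr 1 r u w) d (4 * k)
    have h6 : (1 - p) ^ 2 * (2 * ((2 + 2 * w) / (1 - r)) * (1 / r) ^ (k + 1))
        ≤ (2 + 2 * w) / (1 - r) * (1 / r) ^ k := by
      have e : (1 - p) ^ 2 * (2 * ((2 + 2 * w) / (1 - r)) * (1 / r) ^ (k + 1))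
          = (2 * (1 - p) ^ 2 / r) * ((2 + 2 * w) / (1 - r) * (1 / r) ^ k) := by
        rw [pow_succ]
        ring
      rw [e]
      have : 2 * (1 - p) ^ 2 / r ≤ 1 := by
        rw [div_le_one hr]
        exact hqr
      calc _ ≤ 1 * ((2 + 2 * w) / (1 - r) * (1 / r) ^ k) :=
            mul_le_mul_of_nonneg_right this (by positivity)
        _ = _ := one_mul _
    have h7 : surv p (tr 1 r u w) d (4 * k + 4) * (2 * ((2 + 2 * w) / (1 - r)) * (1 / r) ^ (k + 1))
        ≤ ((1 - p) ^ 2 * surv p (tr 1 r u w) d (4 * k))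
          * (2 * ((2 + 2 * w) / (1 - r)) * (1 / r) ^ (k + 1)) :=
      mul_le_mul_of_nonneg_right h3 (by positivity)
    have h8 := mul_le_mul_of_nonneg_left h6 h5
    nlinarith

lemma found' (hr : 0 < r) (hr1 : r < 1) (hp : 0 < p) (hp1 : p < 1) : Found p (tr 1 r u w) := by
  intro d hd
  have hd0 : 0 < d := by linarith
  have hb : 1 < 1 / r := by
    rw [lt_div_iff₀ hr]
    linarith
  obtain ⟨k0, hk0⟩ := pow_unbounded_of_one_lt d hb
  have hs : ∀ j : ℕ, surv p (tr 1 r u w) d (4 * (k0 + j)) ≤ (1 - p) ^ j := by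
    intro j
    induction j with
    | zero =>
      have h1 := surv_anti hp.le hp1.le (tr 1 r u w) d (Nat.zero_le (4 * (k0 + 0)))
      have h2 : surv p (tr 1 r u w) d 0 = 1 := by simp [surv]
      rw [h2] at h1
      rw [pow_zero]
      exact h1
    | succ j ih =>
      have h1 := last' (r := r) (u := u) (w := w) hp.le hp1.le (k0 + j) hd0
        (hk0.le.trans (pow_le_pow_right₀ hb.le (by omega)))
      have h2 := surv_anti hp.le hp1.le (tr 1 r u w) d
        (show 4 * (k0 + j) ≤ 4 * (k0 + j) + 3 by omega)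
      have h3 : 0 ≤ 1 - p := by linarith
      rw [show 4 * (k0 + (j + 1)) = 4 * (k0 + j) + 4 by ring]
      calc _ ≤ (1 - p) * surv p (tr 1 r u w) d (4 * (k0 + j) + 3) := h1
        _ ≤ (1 - p) * (1 - p) ^ j := mul_le_mul_of_nonneg_left (h2.trans ih) h3
        _ = (1 - p) ^ (j + 1) := by rw [pow_succ]; ring
  rw [Metric.tendsto_atTop]
  intro ε hε
  obtain ⟨j, hj⟩ := exists_pow_lt_of_lt_one hε (show 1 - p < 1 by linarith)
  refine ⟨4 * (k0 + j), fun n hn => ?_⟩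
  rw [Real.dist_eq, sub_zero, abs_of_nonneg (surv_nonneg hp1.le _ _ _)]
  exact lt_of_le_of_lt ((surv_anti hp.le hp1.le _ _ hn).trans (hs j)) hj

end Pool.Agent.KS6_42.HS
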