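import Pool.Agent.KS6_42.HS.Up6
import Pool.Agent.KS6_42.HS.Low3

/-!
# The optimal competitive ratio for small detection probabilities
-/

open Filter Topology
open scoped ENNReal

namespace Pool.Agent.KS6_42.HS

/-- The optimal competitive ratio: the infimum over all trajectories. -/
noncomputable def opt (p : ℝ) : ℝ≥0∞ := ⨅ (t : ℕ → ℝ) (_ : IsTraj t) (_ : Found p t), ratio p t

lemma opt_le {p : ℝ} {t : ℕ → ℝ} (h1 : IsTraj t) (h2 : Found p t) : opt p ≤ ratio p t :=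
  iInf_le_of_le t (iInf_le_of_le h1 (iInf_le_of_le h2 le_rfl))

lemma le_opt {p : ℝ} {c : ℝ≥0∞} (h : ∀ t, IsTraj t → Found p t → c ≤ ratio p t) : c ≤ opt p :=
  le_iInf fun t => le_iInf fun h1 => le_iInf fun h2 => h t h1 h2

lemma sqrt_ge {p : ℝ} (hp : 0 ≤ p) (hp1 : p ≤ 1) : 1 - p / 2 - p ^ 2 / 2 ≤ √(1 - p) := by
  apply Real.le_sqrt_of_sq_le
  nlinarith [mul_nonneg (sq_nonneg p) hp, mul_nonneg (sq_nonneg p) (sub_nonneg.mpr hp1),
    mul_nonneg (mul_nonneg (sq_nonneg p) (sub_nonneg.mpr hp1)) hp,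
    mul_nonneg (mul_nonneg (sq_nonneg p) (sub_nonneg.mpr hp1)) (sub_nonneg.mpr hp1)]

theorem opt_small : Tendsto (fun p : ℝ => (4 - (opt p).toReal) / p) (𝓝[>] 0) (𝓝 2) := by
  rw [Metric.tendsto_nhdsWithin_nhds]
  intro ε hε
  obtain ⟨p₀, h0, h1, h2⟩ := upper_bound (ε / 2) (by positivity)
  refine ⟨min p₀ (ε / 2), lt_min h0 (by positivity), fun {p} hp hp' => ?_⟩
  have hp0 : (0 : ℝ) < p := hp
  rw [Real.dist_eq, sub_zero, abs_of_pos hp0] at hp'
  have hp1 : p < p₀ := lt_of_lt_of_le hp' (min_le_left _ _)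
  have hp2 : p < ε / 2 := lt_of_lt_of_le hp' (min_le_right _ _)
  obtain ⟨t, a, b, c⟩ := h2 p hp0 hp1.le
  have hlow : ENNReal.ofReal ((1 + √(1 - p)) ^ 2) ≤ opt p :=
    le_opt fun t _ h => lower_bound hp0 (by linarith) t h
  have hup := (opt_le a b).trans c
  have hfin : opt p ≠ ⊤ := ne_top_of_le_ne_top ENNReal.ofReal_ne_top hup
  have hlow' : (1 + √(1 - p)) ^ 2 ≤ (opt p).toReal :=
    (ENNReal.ofReal_le_iff_le_toReal hfin).mp hlow
  have hup' : (opt p).toReal ≤ 4 - (2 - ε / 2) * p := by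
    by_cases hs : 0 ≤ 4 - (2 - ε / 2) * p
    · exact ENNReal.toReal_le_of_le_ofReal hs hup
    · exfalso
      apply hs
      nlinarith
  have hs := sqrt_ge hp0.le (by linarith)
  have hsq : √(1 - p) ^ 2 = 1 - p := Real.sq_sqrt (by linarith)
  have e1 : 4 - (opt p).toReal ≤ 2 * p + p ^ 2 := by nlinarith
  rw [Real.dist_eq, abs_lt]
  constructor
  · have : 2 - ε / 2 ≤ (4 - (opt p).toReal) / p := by
      rw [le_div_iff₀ hp0]
      linarith
    linarith
  · have : (4 - (opt p).toReal) / p ≤ 2 + p := by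
      rw [div_le_iff₀ hp0]
      nlinarith
    linarith

theorem below (p : ℝ) (hp : 0 < p) (hp1 : p < 1 / 144) :
    ∃ t : ℕ → ℝ, IsTraj t ∧ Found p t ∧ ratio p t < ENNReal.ofReal (4 - p) := by
  obtain ⟨J, hJ1, hJ2⟩ := exists_J (q := 1 - p) (m := 3) (by linarith) (by linarith) (by norm_num)
  obtain ⟨a, b, c⟩ := ratio_le (q := 1 - p) (m := 3) (u := (1 - p) ^ (J + 1)) (by linarith)
    (by linarith) (by norm_num) J rfl hJ1 hJ2 rfl
  rw [sub_sub_cancel] at a b c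
  refine ⟨_, a, b, lt_of_le_of_lt c ((ENNReal.ofReal_lt_ofReal_iff (by linarith)).mpr ?_)⟩
  push_cast
  nlinarith

end Pool.Agent.KS6_42.HS
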