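import Pool.Agent.KS6_42.HS.Up1

/-!
# The upper bound, part 2: the trajectory

Cycle `k` goes from `0` to `u + w`, back to `u`, to `u + 2 w`, back to `u`, ..., to `u + m w`, back
to `u`, then to `1` and back to `0`; everything is multiplied by `q ^ (-k)`.
-/

open Filter Topology

namespace Pool.Agent.KS6_42.HS

/-- the lower turning points -/
noncomputable def lo (m : ℕ) (q u : ℝ) (i : ℕ) : ℝ :=
  (1 / q) ^ (i / (m + 1)) * (if i % (m + 1) = 0 then 0 else u)

/-- the upper turning points -/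
noncomputable def hi (m : ℕ) (q u w : ℝ) (i : ℕ) : ℝ :=
  (1 / q) ^ (i / (m + 1)) * (if i % (m + 1) = m then 1 else u + w * ((i % (m + 1) : ℕ) + 1))

/-- the trajectory -/
noncomputable def tr (m : ℕ) (q u w : ℝ) (n : ℕ) : ℝ :=
  if n % 2 = 0 then lo m q u (n / 2) else hi m q u w (n / 2)

variable {m : ℕ} {q u w : ℝ}

lemma tr_even (i : ℕ) : tr m q u w (2 * i) = lo m q u i := by
  unfold tr
  rw [if_pos (by omega)]
  congr 1
  omega

lemma tr_odd (i : ℕ) : tr m q u w (2 * i + 1) = hi m q u w i := by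
  unfold tr
  rw [if_neg (by omega)]
  congr 1
  omega

lemma div_at (k s : ℕ) (hs : s ≤ m) : (k * (m + 1) + s) / (m + 1) = k := by
  rw [add_comm, Nat.add_mul_div_right _ _ (by omega), Nat.div_eq_of_lt (by omega), zero_add]

lemma mod_at (k s : ℕ) (hs : s ≤ m) : (k * (m + 1) + s) % (m + 1) = s := by
  rw [add_comm, Nat.add_mul_mod_self_right, Nat.mod_eq_of_lt (by omega)]

lemma lo_at (k s : ℕ) (hs : s ≤ m) :
    lo m q u (k * (m + 1) + s) = (1 / q) ^ k * (if s = 0 then 0 else u) := by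
  unfold lo
  rw [div_at k s hs, mod_at k s hs]

lemma hi_at (k s : ℕ) (hs : s ≤ m) :
    hi m q u w (k * (m + 1) + s) = (1 / q) ^ k * (if s = m then 1 else u + w * (s + 1)) := by
  unfold hi
  rw [div_at k s hs, mod_at k s hs]

lemma lo_start (k : ℕ) : lo m q u (k * (m + 1)) = 0 := by
  have := lo_at (m := m) (q := q) (u := u) k 0 (Nat.zero_le _)
  rw [add_zero, if_pos rfl, mul_zero] at this
  exact this

lemma lo_pos' (k s : ℕ) (hs : s ≤ m) (h0 : 1 ≤ s) :
    lo m q u (k * (m + 1) + s) = (1 / q) ^ k * u := by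
  rw [lo_at k s hs, if_neg (by omega)]

lemma hi_lt' (k s : ℕ) (hs : s < m) :
    hi m q u w (k * (m + 1) + s) = (1 / q) ^ k * (u + w * (s + 1)) := by
  rw [hi_at k s hs.le, if_neg (by omega)]

lemma hi_last (k : ℕ) : hi m q u w (k * (m + 1) + m) = (1 / q) ^ k := by
  rw [hi_at k m le_rfl, if_pos rfl, mul_one]

lemma next_idx (k : ℕ) : k * (m + 1) + m + 1 = (k + 1) * (m + 1) := by ring

/-- every index is of the form `k (m + 1) + s` -/
lemma idx (m i : ℕ) : ∃ k s, s ≤ m ∧ i = k * (m + 1) + s :=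
  ⟨i / (m + 1), i % (m + 1), Nat.lt_succ_iff.mp (Nat.mod_lt _ (Nat.succ_pos m)),
    by rw [mul_comm]; exact (Nat.div_add_mod i (m + 1)).symm⟩

lemma bpos (hq : 0 < q) (k : ℕ) : 0 < (1 / q) ^ k := by positivity

lemma lo_lt_hi (hq : 0 < q) (hu : 0 < u) (hw : 0 < w) (h1 : u + w * m ≤ 1) (hm : 1 ≤ m) (i : ℕ) :
    lo m q u i < hi m q u w i := by
  obtain ⟨k, s, hs, rfl⟩ := idx m i
  have hb := bpos hq k
  have hm' : (1 : ℝ) ≤ m := by exact_mod_cast hm
  have hwm : 0 < w * m := by positivity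
  rw [lo_at k s hs, hi_at k s hs]
  apply mul_lt_mul_of_pos_left _ hb
  split_ifs
  · norm_num
  · positivity
  · linarith
  · have : 0 < w * ((s : ℝ) + 1) := by positivity
    linarith

lemma lo_succ_lt_hi (hq : 0 < q) (hu : 0 < u) (hw : 0 < w) (i : ℕ) :
    lo m q u (i + 1) < hi m q u w i := by
  obtain ⟨k, s, hs, rfl⟩ := idx m i
  have hb := bpos hq k
  rcases hs.eq_or_lt with h | h
  · subst h
    rw [next_idx, lo_start, hi_last]
    exact hb
  · rw [add_assoc, lo_pos' k (s + 1) (by omega) (by omega), hi_lt' k s h]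
    apply mul_lt_mul_of_pos_left _ hb
    have : 0 < w * ((s : ℝ) + 1) := by positivity
    linarith

lemma tr_isTraj (hq : 0 < q) (hu : 0 < u) (hw : 0 < w) (h1 : u + w * m ≤ 1) (hm : 1 ≤ m) :
    IsTraj (tr m q u w) := by
  have hlo : ∀ i, 0 ≤ lo m q u i := by
    intro i
    unfold lo
    have := bpos hq (i / (m + 1))
    split_ifs <;> positivity
  refine ⟨?_, ?_, ?_, ?_⟩
  · have := tr_even (m := m) (q := q) (u := u) (w := w) 0
    rw [mul_zero] at this
    rw [this]
    have h2 := lo_start (m := m) (q := q) (u := u) 0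
    rwa [zero_mul] at h2
  · intro n
    rcases Nat.even_or_odd' n with ⟨i, rfl | rfl⟩
    · rw [tr_even]
      exact hlo i
    · rw [tr_odd]
      exact (hlo i).trans (lo_lt_hi hq hu hw h1 hm i).le
  · intro i
    rw [tr_even, tr_odd]
    exact lo_lt_hi hq hu hw h1 hm i
  · intro i
    rw [show 2 * i + 2 = 2 * (i + 1) by ring, tr_even, tr_odd]
    exact lo_succ_lt_hi hq hu hw i

/-- the time of a zigzag -/
lemma time_zig (hq : 0 < q) (hu : 0 < u) (hw : 0 < w) (h1 : u + w * m ≤ 1) (hm : 1 ≤ m) (i : ℕ) :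
    time (tr m q u w) (2 * (i + 1)) = time (tr m q u w) (2 * i)
      + (hi m q u w i - lo m q u i) + (hi m q u w i - lo m q u (i + 1)) := by
  have a := lo_lt_hi hq hu hw h1 hm i
  have b := lo_succ_lt_hi (m := m) hq hu hw i
  rw [show 2 * (i + 1) = 2 * i + 1 + 1 by ring, time_succ, time_succ,
    show 2 * i + 1 + 1 = 2 * (i + 1) by ring, tr_even, tr_even, tr_odd,
    abs_of_pos (by linarith), abs_of_neg (by linarith)]
  ring

lemma time_half (hq : 0 < q) (hu : 0 < u) (hw : 0 < w) (h1 : u + w * m ≤ 1) (hm : 1 ≤ m) (i : ℕ) :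
    time (tr m q u w) (2 * i + 1) = time (tr m q u w) (2 * i) + (hi m q u w i - lo m q u i) := by
  have a := lo_lt_hi hq hu hw h1 hm i
  rw [time_succ, tr_even, tr_odd, abs_of_pos (by linarith)]

/-- times within a cycle -/
lemma time_in (hq : 0 < q) (hu : 0 < u) (hw : 0 < w) (h1 : u + w * m ≤ 1) (hm : 1 ≤ m) (k s : ℕ)
    (hs : s < m) : time (tr m q u w) (2 * (k * (m + 1) + (s + 1)))
      = time (tr m q u w) (2 * (k * (m + 1))) + (1 / q) ^ k * (u + w * ((s + 1) * (s + 2))) := by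
  induction s with
  | zero =>
    have := time_zig hq hu hw h1 hm (k * (m + 1))
    have e1 := hi_lt' (m := m) (q := q) (u := u) (w := w) k 0 hs
    rw [add_zero] at e1
    rw [zero_add, this, lo_start, lo_pos' k 1 (by omega) le_rfl, e1]
    push_cast
    ring
  | succ s ih =>
    have := time_zig hq hu hw h1 hm (k * (m + 1) + (s + 1))
    rw [show k * (m + 1) + (s + 1 + 1) = k * (m + 1) + (s + 1) + 1 by ring, this, ih (by omega),
      show k * (m + 1) + (s + 1) + 1 = k * (m + 1) + (s + 2) by ring,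
      lo_pos' k (s + 1) (by omega) (by omega), lo_pos' k (s + 2) (by omega) (by omega),
      hi_lt' k (s + 1) hs]
    push_cast
    ring

lemma time_last (hq : 0 < q) (hu : 0 < u) (hw : 0 < w) (h1 : u + w * m ≤ 1) (hm : 1 ≤ m) (k : ℕ) :
    time (tr m q u w) (2 * (k * (m + 1) + m))
      = time (tr m q u w) (2 * (k * (m + 1))) + (1 / q) ^ k * (u + w * (m * (m + 1))) := by
  obtain ⟨s, rfl⟩ : ∃ s, m = s + 1 := ⟨m - 1, by omega⟩
  rw [time_in hq hu hw h1 hm k s (by omega)]
  push_cast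
  ring

lemma time_top (hq : 0 < q) (hu : 0 < u) (hw : 0 < w) (h1 : u + w * m ≤ 1) (hm : 1 ≤ m) (k : ℕ) :
    time (tr m q u w) (2 * (k * (m + 1) + m) + 1)
      = time (tr m q u w) (2 * (k * (m + 1))) + (1 / q) ^ k * (1 + w * (m * (m + 1))) := by
  rw [time_half hq hu hw h1 hm, time_last hq hu hw h1 hm, hi_last, lo_pos' k m le_rfl hm]
  ring

lemma time_next (hq : 0 < q) (hu : 0 < u) (hw : 0 < w) (h1 : u + w * m ≤ 1) (hm : 1 ≤ m) (k : ℕ) :
    time (tr m q u w) (2 * ((k + 1) * (m + 1)))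
      = time (tr m q u w) (2 * (k * (m + 1))) + (1 / q) ^ k * (2 + w * (m * (m + 1))) := by
  rw [← next_idx, time_zig hq hu hw h1 hm, time_last hq hu hw h1 hm, hi_last, lo_pos' k m le_rfl hm,
    next_idx, lo_start]
  ring

/-- an upper bound for the starting time of a cycle -/
lemma time_start_le (hq : 0 < q) (hq1 : q < 1) (hu : 0 < u) (hw : 0 < w) (h1 : u + w * m ≤ 1)
    (hm : 1 ≤ m) (k : ℕ) :
    time (tr m q u w) (2 * (k * (m + 1))) ≤ (2 + w * (m * (m + 1))) * q * (1 / q) ^ k / (1 - q) := by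
  induction k with
  | zero =>
    have : time (tr m q u w) (2 * (0 * (m + 1))) = 0 := by simp [time]
    rw [this]
    have : 0 < 1 - q := by linarith
    positivity
  | succ k ih =>
    rw [time_next hq hu hw h1 hm]
    have h2 : 0 < 1 - q := by linarith
    have e : (2 + w * (m * (m + 1))) * q * (1 / q) ^ (k + 1) / (1 - q)
        = (2 + w * (m * (m + 1))) * q * (1 / q) ^ k / (1 - q) + (1 / q) ^ k * (2 + w * (m * (m + 1))) := by
      rw [pow_succ]
      field_simp
      ring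
    rw [e]
    linarith

/-- all turning points up to cycle `k` are at most `q ^ (-k)` -/
lemma tr_le (hq : 0 < q) (hq1 : q < 1) (hu : 0 < u) (hw : 0 < w) (h1 : u + w * m ≤ 1) (hm : 1 ≤ m)
    (k n : ℕ) (hn : n ≤ 2 * ((k + 1) * (m + 1))) : tr m q u w n ≤ (1 / q) ^ k := by
  have hb1 : 1 ≤ 1 / q := by
    rw [le_div_iff₀ hq]
    linarith
  have hhi : ∀ i, i < (k + 1) * (m + 1) → hi m q u w i ≤ (1 / q) ^ k := by
    intro i hi'
    obtain ⟨k', s, hs, rfl⟩ := idx m i
    have hk : k' ≤ k := by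
      by_contra hlt
      have : (k + 1) * (m + 1) ≤ k' * (m + 1) := Nat.mul_le_mul_right _ (by omega)
      omega
    rw [hi_at k' s hs]
    have h2 : (1 / q) ^ k' ≤ (1 / q) ^ k := pow_le_pow_right₀ hb1 hk
    have h3 : (if s = m then 1 else u + w * ((s : ℝ) + 1)) ≤ 1 := by
      split_ifs with h
      · exact le_rfl
      · have : (s : ℝ) + 1 ≤ m := by
          have : s + 1 ≤ m := by omega
          exact_mod_cast this
        nlinarith
    have := bpos hq k'
    calc (1 / q) ^ k' * (if s = m then 1 else u + w * ((s : ℝ) + 1)) ≤ (1 / q) ^ k' * 1 := by gcongr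
      _ = (1 / q) ^ k' := mul_one _
      _ ≤ (1 / q) ^ k := h2
  rcases Nat.even_or_odd' n with ⟨i, rfl | rfl⟩
  · rw [tr_even]
    rcases (show i ≤ (k + 1) * (m + 1) by omega).eq_or_lt with h | h
    · rw [h, lo_start]
      exact (bpos hq k).le
    · exact (lo_lt_hi hq hu hw h1 hm i).le.trans (hhi i h)
  · rw [tr_odd]
    exact hhi i (by omega)

end Pool.Agent.KS6_42.HS
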