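import Pool.Agent.KS6_42.HS.Up2
import Pool.Agent.KS6_42.HS.Low2

/-!
# The upper bound, part 3: one cycle
-/

open Filter Topology

namespace Pool.Agent.KS6_42.HS

variable {m : ℕ} {q u w d : ℝ}

/-- before the treasure is reached -/
lemma before (hq : 0 < q) (hq1 : q < 1) (hu : 0 < u) (hw : 0 < w) (h1 : u + w * m ≤ 1) (hm : 1 ≤ m)
    (k : ℕ) (hd : (1 / q) ^ k < d) (n : ℕ) (hn : n ≤ 2 * ((k + 1) * (m + 1))) :
    Part (1 - q) (tr m q u w) d n = 0 ∧ surv (1 - q) (tr m q u w) d n = 1 := by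
  induction n with
  | zero => simp [Part, surv]
  | succ n ih =>
    obtain ⟨i1, i2⟩ := ih (by omega)
    have a := tr_le hq hq1 hu hw h1 hm k n (by omega)
    have b := tr_le hq hq1 hu hw h1 hm k (n + 1) hn
    have e : det (1 - q) (tr m q u w n) (tr m q u w (n + 1)) d = 0 := by
      unfold det
      rw [if_neg (by linarith), if_neg]
      rintro (h | h)
      · linarith [h.2]
      · linarith [h.2]
    rw [Part_succ, surv_succ, i1, i2, e]
    simp

/-- the last move of a cycle -/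
lemma last_move (hq : 0 < q) (hq1 : q < 1) (hm : 1 ≤ m) (k : ℕ) (hd0 : 0 < d)
    (hd : d ≤ (1 / q) ^ k) :
    surv (1 - q) (tr m q u w) d (2 * ((k + 1) * (m + 1)))
      ≤ q * surv (1 - q) (tr m q u w) d (2 * (k * (m + 1) + m) + 1) := by
  have e : 2 * ((k + 1) * (m + 1)) = 2 * (k * (m + 1) + m) + 1 + 1 := by
    rw [← next_idx]
    ring
  have hT1 : tr m q u w (2 * (k * (m + 1) + m) + 1) = (1 / q) ^ k := by
    rw [tr_odd, hi_last]
  have hT2 : tr m q u w (2 * (k * (m + 1) + m) + 1 + 1) = 0 := by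
    rw [← e, tr_even, lo_start]
  rw [e]
  rcases hd.eq_or_lt with h | h
  · have h2 : surv (1 - q) (tr m q u w) d (2 * (k * (m + 1) + m) + 1) = 0 := by
      apply surv_hit
      rw [hT1, h]
    have h3 := surv_anti (p := 1 - q) (by linarith) (by linarith) (tr m q u w) d
      (show 2 * (k * (m + 1) + m) + 1 ≤ 2 * (k * (m + 1) + m) + 1 + 1 by omega)
    rw [h2] at h3 ⊢
    linarith
  · have := surv_down (p := 1 - q) (t := tr m q u w) (by linarith) (by linarith)
      (n := 2 * (k * (m + 1) + m) + 1) (by rw [hT2]; exact hd0) (by rw [hT1]; exact h)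
    have e2 : 1 - (1 - q) = q := by ring
    rwa [e2] at this

/-- the time of detection during the last move of a cycle -/
lemma last_time (hq : 0 < q) (hq1 : q < 1) (hu : 0 < u) (hw : 0 < w) (h1 : u + w * m ≤ 1)
    (hm : 1 ≤ m) (k : ℕ) (hd : d ≤ (1 / q) ^ k) :
    time (tr m q u w) (2 * (k * (m + 1) + m) + 1) + |d - tr m q u w (2 * (k * (m + 1) + m) + 1)|
      ≤ (2 + w * (m * (m + 1))) * (1 / q) ^ k / (1 - q) - d := by
  rw [tr_odd, hi_last, time_top hq hu hw h1 hm, abs_of_nonpos (by linarith)]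
  have h2 := time_start_le hq hq1 hu hw h1 hm k
  have h3 : (2 + w * (m * (m + 1))) * (1 / q) ^ k / (1 - q)
      = (2 + w * (m * (m + 1))) * q * (1 / q) ^ k / (1 - q) + (2 + w * (m * (m + 1))) * (1 / q) ^ k := by
    have : 1 - q ≠ 0 := by linarith
    field_simp
    ring
  rw [h3]
  nlinarith

lemma zig_count (hq : 0 < q) (hq1 : q < 1) (hu : 0 < u) (hm : 1 ≤ m) (k n0 : ℕ)
    (hd1 : (1 / q) ^ k * u < d) (hn : ∀ i : ℕ, n0 < i → i ≤ m → d ≤ (1 / q) ^ k * (u + w * i))
    (s : ℕ) (hs : s ≤ m) :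
    surv (1 - q) (tr m q u w) d (2 * (k * (m + 1) + s))
      ≤ q ^ (2 * (s - n0)) * surv (1 - q) (tr m q u w) d (2 * (k * (m + 1))) := by
  have hd0 : 0 < d := lt_trans (mul_pos (bpos hq k) hu) hd1
  induction s with
  | zero => simp
  | succ s ih =>
    by_cases h : s < n0
    · have e : s + 1 - n0 = 0 := by omega
      rw [e, mul_zero, pow_zero, one_mul]
      exact surv_anti (by linarith) (by linarith) _ _ (by omega)
    · have e : 2 * (s + 1 - n0) = 2 * (s - n0) + 2 := by omega
      have hlo : lo m q u (k * (m + 1) + s) < d := by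
        rw [lo_at k s (by omega)]
        split_ifs
        · rw [mul_zero]
          exact hd0
        · exact hd1
      have h2 := surv_zig (p := 1 - q) (t := tr m q u w) (d := d) (by linarith) (by linarith)
        (n := 2 * (k * (m + 1) + s)) (by rw [tr_even]; exact hlo)
        (by
          rw [tr_odd, hi_lt' k s (by omega)]
          have := hn (s + 1) (by omega) hs
          push_cast at this
          exact this)
        (by
          rw [show 2 * (k * (m + 1) + s) + 2 = 2 * (k * (m + 1) + (s + 1)) by ring, tr_even,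
            lo_pos' k (s + 1) hs (by omega)]
          exact hd1)
      rw [show 2 * (k * (m + 1) + s) + 2 = 2 * (k * (m + 1) + (s + 1)) by ring] at h2
      have e2 : 1 - (1 - q) = q := by ring
      rw [e2] at h2
      rw [e, pow_add]
      have h3 := ih (by omega)
      calc surv (1 - q) (tr m q u w) d (2 * (k * (m + 1) + (s + 1)))
          ≤ q ^ 2 * surv (1 - q) (tr m q u w) d (2 * (k * (m + 1) + s)) := h2
        _ ≤ q ^ 2 * (q ^ (2 * (s - n0)) * surv (1 - q) (tr m q u w) d (2 * (k * (m + 1)))) := by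
            gcongr
        _ = _ := by ring

/-- a cycle in which `d` lies beyond `u` -/
lemma cycleB (hq : 0 < q) (hq1 : q < 1) (hu : 0 < u) (hw : 0 < w) (h1 : u + w * m ≤ 1) (hm : 1 ≤ m)
    (k n0 : ℕ) (hd1 : (1 / q) ^ k * u < d) (hd2 : d ≤ (1 / q) ^ k)
    (hn : ∀ i : ℕ, n0 < i → i ≤ m → d ≤ (1 / q) ^ k * (u + w * i)) (A B X : ℝ)
    (hA : A = (2 + w * (m * (m + 1))) * q * (1 / q) ^ k / (1 - q) + w * (m * (m + 1)) * (1 / q) ^ k + d)
    (hB : B = (2 + w * (m * (m + 1))) * (1 / q) ^ k / (1 - q) - d)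
    (hAX : A ≤ (1 - q) * B + q * X) (hBX : B ≤ X) :
    Part (1 - q) (tr m q u w) d (2 * ((k + 1) * (m + 1)))
      + surv (1 - q) (tr m q u w) d (2 * ((k + 1) * (m + 1))) * X
      ≤ Part (1 - q) (tr m q u w) d (2 * (k * (m + 1)))
      + surv (1 - q) (tr m q u w) d (2 * (k * (m + 1)))
        * ((1 - q ^ (2 * (m - n0) + 1)) * A + q ^ (2 * (m - n0) + 1) * ((1 - q) * B + q * X)) := by
  have hp : 0 ≤ 1 - q := by linarith
  have hp1 : 1 - q ≤ 1 := by linarith
  have hd0 : 0 < d := lt_trans (mul_pos (bpos hq k) hu) hd1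
  have hts := time_start_le hq hq1 hu hw h1 hm k
  have hend : 2 * ((k + 1) * (m + 1)) = 2 * (k * (m + 1) + m) + 1 + 1 := by
    rw [← next_idx]
    ring
  have e2 : 1 - (1 - q) = q := by ring
  -- outward phase
  have s1 : surv (1 - q) (tr m q u w) d (2 * (k * (m + 1) + m) + 1)
      ≤ q ^ (2 * (m - n0) + 1) * surv (1 - q) (tr m q u w) d (2 * (k * (m + 1))) := by
    have h2 := surv_up (p := 1 - q) (t := tr m q u w) (d := d) hp hp1 (n := 2 * (k * (m + 1) + m))
      (by rw [tr_even, lo_pos' k m le_rfl hm]; exact hd1) (by rw [tr_odd, hi_last]; exact hd2)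
    rw [e2] at h2
    have h3 := zig_count (w := w) hq hq1 hu hm k n0 hd1 hn m le_rfl
    calc _ ≤ q * surv (1 - q) (tr m q u w) d (2 * (k * (m + 1) + m)) := h2
      _ ≤ q * (q ^ (2 * (m - n0)) * surv (1 - q) (tr m q u w) d (2 * (k * (m + 1)))) := by gcongr
      _ = _ := by ring
  have b1 := block' (A := A) (Y := (1 - q) * B + q * X) (σ := q ^ (2 * (m - n0) + 1)) hp hp1
    (2 * (k * (m + 1))) (2 * (k * (m + 1) + m) + 1) (by omega) (fun j hj1 hj2 hj3 => by
      rcases (show j ≤ 2 * (k * (m + 1) + m) by omega).eq_or_lt with h | h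
      · subst h
        rw [tr_even, lo_pos' k m le_rfl hm, time_last hq hu hw h1 hm, abs_of_pos (by linarith), hA]
        linarith
      · have h4 := time_le_of_det hj3
        have h5 := time_mono (tr m q u w) (show j + 1 ≤ 2 * (k * (m + 1) + m) by omega)
        rw [time_last hq hu hw h1 hm] at h5
        rw [hA]
        linarith) s1 hAX
  -- the way back
  have s2 := last_move (u := u) (w := w) hq hq1 hm k hd0 hd2
  have b2 := block' (A := B) (Y := X) (σ := q) hp hp1 (2 * (k * (m + 1) + m) + 1)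
    (2 * ((k + 1) * (m + 1))) (by omega) (fun j hj1 hj2 _ => by
      have : j = 2 * (k * (m + 1) + m) + 1 := by omega
      rw [this, hB]
      exact last_time hq hq1 hu hw h1 hm k hd2) s2 hBX
  linarith

/-- a cycle in which `d` lies below `u` -/
lemma cycleC (hq : 0 < q) (hq1 : q < 1) (hu : 0 < u) (hw : 0 < w) (h1 : u + w * m ≤ 1) (hm : 1 ≤ m)
    (k : ℕ) (hd0 : 0 < d) (hd1 : d ≤ (1 / q) ^ k * u) (A B X : ℝ)
    (hA : A = (2 + w * (m * (m + 1))) * q * (1 / q) ^ k / (1 - q) + d)
    (hB : B = (2 + w * (m * (m + 1))) * (1 / q) ^ k / (1 - q) - d)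
    (hAX : A ≤ (1 - q) * B + q * X) (hBX : B ≤ X) :
    Part (1 - q) (tr m q u w) d (2 * ((k + 1) * (m + 1)))
      + surv (1 - q) (tr m q u w) d (2 * ((k + 1) * (m + 1))) * X
      ≤ Part (1 - q) (tr m q u w) d (2 * (k * (m + 1)))
      + surv (1 - q) (tr m q u w) d (2 * (k * (m + 1)))
        * ((1 - q) * A + q * ((1 - q) * B + q * X)) := by
  have hp : 0 ≤ 1 - q := by linarith
  have hp1 : 1 - q ≤ 1 := by linarith
  have hm' : (1 : ℝ) ≤ m := by exact_mod_cast hm
  have hu1 : u ≤ 1 := by nlinarith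
  have hb := bpos hq k
  have hd2 : d ≤ (1 / q) ^ k := by nlinarith
  have hts := time_start_le hq hq1 hu hw h1 hm k
  have hend : 2 * ((k + 1) * (m + 1)) = 2 * (k * (m + 1) + m) + 1 + 1 := by
    rw [← next_idx]
    ring
  have e2 : 1 - (1 - q) = q := by ring
  have e3 := hi_lt' (m := m) (q := q) (u := u) (w := w) k 0 (by omega)
  rw [add_zero] at e3
  have s1 : surv (1 - q) (tr m q u w) d (2 * (k * (m + 1)) + 1)
      ≤ q * surv (1 - q) (tr m q u w) d (2 * (k * (m + 1))) := by
    have h2 := surv_up (p := 1 - q) (t := tr m q u w) (d := d) hp hp1 (n := 2 * (k * (m + 1)))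
      (by rw [tr_even, lo_start]; exact hd0)
      (by
        rw [tr_odd, e3]
        push_cast
        nlinarith [mul_pos hb hw])
    rwa [e2] at h2
  have b1 := block' (A := A) (Y := (1 - q) * B + q * X) (σ := q) hp hp1
    (2 * (k * (m + 1))) (2 * (k * (m + 1)) + 1) (by omega) (fun j hj1 hj2 _ => by
      have : j = 2 * (k * (m + 1)) := by omega
      rw [this, tr_even, lo_start, sub_zero, abs_of_pos hd0, hA]
      linarith) s1 hAX
  have hL : (2 + w * (m * (m + 1))) * (1 / q) ^ k / (1 - q)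
      = (2 + w * (m * (m + 1))) * q * (1 / q) ^ k / (1 - q) + (2 + w * (m * (m + 1))) * (1 / q) ^ k := by
    have : 1 - q ≠ 0 := by linarith
    field_simp
    ring
  have s2 : surv (1 - q) (tr m q u w) d (2 * ((k + 1) * (m + 1)))
      ≤ q * surv (1 - q) (tr m q u w) d (2 * (k * (m + 1)) + 1) := by
    have h2 := last_move (u := u) (w := w) hq hq1 hm k hd0 hd2
    have h3 := surv_anti hp hp1 (tr m q u w) d
      (show 2 * (k * (m + 1)) + 1 ≤ 2 * (k * (m + 1) + m) + 1 by omega)
    nlinarith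
  have b2 := block' (A := B) (Y := X) (σ := q) hp hp1 (2 * (k * (m + 1)) + 1)
    (2 * ((k + 1) * (m + 1))) (by omega) (fun j hj1 hj2 hj3 => by
      rcases (show j ≤ 2 * (k * (m + 1) + m) + 1 by omega).eq_or_lt with h | h
      · rw [h, hB]
        exact last_time hq hq1 hu hw h1 hm k hd2
      · have h4 := time_le_of_det hj3
        have h5 := time_mono (tr m q u w) (show j + 1 ≤ 2 * (k * (m + 1) + m) + 1 by omega)
        rw [time_top hq hu hw h1 hm] at h5
        rw [hB, hL]
        nlinarith) s2 hBX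
  linarith

end Pool.Agent.KS6_42.HS
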