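import Pool.Agent.KS6_42.HS.Up3

/-!
# The upper bound, part 4: the potential
-/

open Filter Topology

namespace Pool.Agent.KS6_42.HS

variable {m : ℕ} {q u w d : ℝ}

/-- the term of the potential that comes from the zigzags, `Q = q ^ (2 c)`, `β = q ^ (-(k₀+J))` -/
noncomputable def hh (L D q Q β d : ℝ) : ℝ :=
  β * (D * q + (1 - Q) * (L * q / (1 - q) - D * q)) - (1 - Q) * (2 * q / (1 + q)) * d

lemma hh_le {L D q Q β d : ℝ} (hq : 0 < q) (hq1 : q < 1) (hQ0 : 0 ≤ Q) (hQ1 : Q ≤ 1) (hβ : 0 ≤ β)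
    (hD : 0 ≤ D) (hDL : D ≤ L) (hd : 0 ≤ d) : hh L D q Q β d ≤ β * (L * q / (1 - q)) := by
  unfold hh
  have h1 : 0 < 1 - q := by linarith
  have h2 : D * q ≤ L * q / (1 - q) := by
    rw [le_div_iff₀ h1]
    have : D * q * (1 - q) ≤ L * q * 1 := by
      apply mul_le_mul _ (by linarith) h1.le (by nlinarith)
      exact mul_le_mul_of_nonneg_right hDL hq.le
    linarith
  have h3 : D * q + (1 - Q) * (L * q / (1 - q) - D * q) ≤ L * q / (1 - q) := by nlinarith
  have h4 : 0 ≤ (1 - Q) * (2 * q / (1 + q)) * d := by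
    have : 0 ≤ 1 - Q := by linarith
    positivity
  have h5 := mul_le_mul_of_nonneg_left h3 hβ
  linarith

/-- identity for the cycles in which `d` lies above the zigzags -/
lemma id_old {L q β d A B X : ℝ} (hq : 0 < q) (hq1 : q < 1)
    (hA : A = L * q * β / (1 - q) + d) (hB : B = L * β / (1 - q) - d)
    (hX : X = 2 * L * q / (1 - q) * (β / q) + (1 - q) / (1 + q) * d) :
    (1 - q) * A + q * ((1 - q) * B + q * X)
      = 2 * L * q / (1 - q) * β + (1 - q) / (1 + q) * d := by
  have h1 : 1 - q ≠ 0 := by linarith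
  have h2 : 1 + q ≠ 0 := by linarith
  rw [hA, hB, hX]
  field_simp
  ring

lemma ineq_old {L q β d A B X : ℝ} (hq : 0 < q) (hq1 : q < 1) (hL : 2 ≤ L) (hβ : 0 < β)
    (hd : 0 < d) (hdβ : d ≤ β)
    (hA : A = L * q * β / (1 - q) + d) (hB : B = L * β / (1 - q) - d)
    (hX : X = 2 * L * q / (1 - q) * (β / q) + (1 - q) / (1 + q) * d) :
    A ≤ (1 - q) * B + q * X ∧ B ≤ X := by
  have h1 : 0 < 1 - q := by linarith
  have h2 : 0 < 1 + q := by linarith
  have e1 : (1 - q) * B + q * X - A = L * β / (1 - q) - 2 / (1 + q) * d := by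
    rw [hA, hB, hX]
    field_simp
    ring
  have e2 : X - B = L * β / (1 - q) + ((1 - q) / (1 + q) + 1) * d := by
    rw [hB, hX]
    field_simp
    ring
  have h3 : 2 * β ≤ L * β / (1 - q) := by
    rw [le_div_iff₀ h1]
    nlinarith
  have h4 : 2 / (1 + q) * d ≤ 2 * d := by
    have : 2 / (1 + q) ≤ 2 := by
      rw [div_le_iff₀ h2]
      linarith
    nlinarith
  have h5 : 0 ≤ ((1 - q) / (1 + q) + 1) * d := by positivity
  constructor
  · linarith
  · linarith [mul_pos hβ hβ]

/-- identity for the cycle of the zigzags -/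
lemma id_zig {L D q Q β d A B X : ℝ} (hq : 0 < q) (hq1 : q < 1)
    (hA : A = L * q * β / (1 - q) + D * β + d) (hB : B = L * β / (1 - q) - d)
    (hX : X = 2 * L * q / (1 - q) * (β / q) + (1 - q) / (1 + q) * d) :
    (1 - q * Q) * A + q * Q * ((1 - q) * B + q * X)
      = (2 * L * q / (1 - q) + D) * β + (1 - q) / (1 + q) * d - hh L D q Q β d := by
  have h1 : 1 - q ≠ 0 := by linarith
  have h2 : 1 + q ≠ 0 := by linarith
  rw [hA, hB, hX]
  unfold hh
  field_simp
  ring

lemma ineq_zig {L D q β d A B X : ℝ} (hq : 0 < q) (hq1 : q < 1) (hD : 0 ≤ D) (hL : L = 2 + D)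
    (hβ : 0 < β) (hd : 0 < d) (hdβ : d ≤ β)
    (hA : A = L * q * β / (1 - q) + D * β + d) (hB : B = L * β / (1 - q) - d)
    (hX : X = 2 * L * q / (1 - q) * (β / q) + (1 - q) / (1 + q) * d) :
    A ≤ (1 - q) * B + q * X ∧ B ≤ X := by
  have h1 : 0 < 1 - q := by linarith
  have h2 : 0 < 1 + q := by linarith
  have e1 : (1 - q) * B + q * X - A = L * β / (1 - q) - D * β - 2 / (1 + q) * d := by
    rw [hA, hB, hX]
    field_simp
    ring
  have e2 : X - B = L * β / (1 - q) + ((1 - q) / (1 + q) + 1) * d := by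
    rw [hB, hX]
    field_simp
    ring
  have h3 : L * β ≤ L * β / (1 - q) := by
    rw [le_div_iff₀ h1]
    have : 0 ≤ L * β := by
      rw [hL]
      positivity
    nlinarith
  have h4 : 2 / (1 + q) * d ≤ 2 * d := by
    have : 2 / (1 + q) ≤ 2 := by
      rw [div_le_iff₀ h2]
      linarith
    nlinarith
  have h5 : 0 ≤ ((1 - q) / (1 + q) + 1) * d := by positivity
  have h6 : L * β = 2 * β + D * β := by rw [hL]; ring
  have h7 : 0 ≤ D * β := by positivity
  constructor
  · linarith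
  · linarith

/-- identity for the cycles before the zigzags -/
lemma id_new {L D q β d z A B X : ℝ} (hq : 0 < q) (hq1 : q < 1)
    (hA : A = L * q * β / (1 - q) + D * β + d) (hB : B = L * β / (1 - q) - d)
    (hX : X = (2 * L * q / (1 - q) + D) * (β / q) + (1 - q) / (1 + q) * d - z) :
    (1 - q) * A + q * ((1 - q) * B + q * X)
      = (2 * L * q / (1 - q) + D) * β + (1 - q) / (1 + q) * d - q ^ 2 * z := by
  have h1 : 1 - q ≠ 0 := by linarith
  have h2 : 1 + q ≠ 0 := by linarith
  rw [hA, hB, hX]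
  field_simp
  ring

lemma ineq_new {L D q β d z A B X : ℝ} (hq : 0 < q) (hq1 : q < 1) (hD : 0 ≤ D) (hL : L = 2 + D)
    (hβ : 0 < β) (hd : 0 < d) (hdβ : d ≤ β) (hz : z ≤ L * β / (1 - q))
    (hA : A = L * q * β / (1 - q) + D * β + d) (hB : B = L * β / (1 - q) - d)
    (hX : X = (2 * L * q / (1 - q) + D) * (β / q) + (1 - q) / (1 + q) * d - z) :
    A ≤ (1 - q) * B + q * X ∧ B ≤ X := by
  have h1 : 0 < 1 - q := by linarith
  have h2 : 0 < 1 + q := by linarith
  have e1 : (1 - q) * B + q * X - A = L * β / (1 - q) - 2 / (1 + q) * d - q * z := by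
    rw [hA, hB, hX]
    field_simp
    ring
  have e2 : X - B = L * β / (1 - q) + D * (β / q) + ((1 - q) / (1 + q) + 1) * d - z := by
    rw [hB, hX]
    field_simp
    ring
  have h3 : q * z ≤ q * (L * β / (1 - q)) := mul_le_mul_of_nonneg_left hz hq.le
  have h3' : L * β / (1 - q) - q * (L * β / (1 - q)) = L * β := by
    field_simp
  have h4 : 2 / (1 + q) * d ≤ 2 * d := by
    have : 2 / (1 + q) ≤ 2 := by
      rw [div_le_iff₀ h2]
      linarith
    nlinarith
  have h5 : 0 ≤ ((1 - q) / (1 + q) + 1) * d := by positivity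
  have h6 : L * β = 2 * β + D * β := by rw [hL]; ring
  have h7 : 0 ≤ D * β := by positivity
  have h8 : 0 ≤ D * (β / q) := by positivity
  constructor
  · linarith
  · linarith

/-- the potential at the beginning of cycle `k` -/
noncomputable def pot (L D q Q d : ℝ) (k0 J k : ℕ) : ℝ :=
  if k ≤ k0 + J then
    (2 * L * q / (1 - q) + D) * (1 / q) ^ k + (1 - q) / (1 + q) * d
      - (q ^ 2) ^ (k0 + J - k) * hh L D q Q ((1 / q) ^ (k0 + J)) d
  else 2 * L * q / (1 - q) * (1 / q) ^ k + (1 - q) / (1 + q) * d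

/-- the potential decreases -/
lemma pot_step (hq : 0 < q) (hq1 : q < 1) (hu : 0 < u) (hw : 0 < w) (h1 : u + w * m ≤ 1)
    (hm : 1 ≤ m) (J k0 n0 : ℕ) (huJ : u = q ^ (J + 1)) (hd1 : (1 / q) ^ k0 * q < d)
    (hd2 : d ≤ (1 / q) ^ k0)
    (hn : ∀ i : ℕ, n0 < i → i ≤ m → d ≤ (1 / q) ^ (k0 + J) * (u + w * i)) (k : ℕ) (hk : k0 ≤ k) :
    Part (1 - q) (tr m q u w) d (2 * (k * (m + 1)))
      + surv (1 - q) (tr m q u w) d (2 * (k * (m + 1)))
        * pot (2 + w * (m * (m + 1))) (w * (m * (m + 1))) q (q ^ (2 * (m - n0))) d k0 J k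
      ≤ pot (2 + w * (m * (m + 1))) (w * (m * (m + 1))) q (q ^ (2 * (m - n0))) d k0 J k0 := by
  set D : ℝ := w * (m * (m + 1)) with hD
  set Q : ℝ := q ^ (2 * (m - n0)) with hQ
  have hD0 : 0 ≤ D := by positivity
  have hb1 : 1 ≤ 1 / q := by
    rw [le_div_iff₀ hq]
    linarith
  have hd0 : 0 < d := lt_trans (mul_pos (bpos hq k0) hq) hd1
  have hQ0 : 0 ≤ Q := by positivity
  have hQ1 : Q ≤ 1 := pow_le_one₀ hq.le hq1.le
  have hp1 : 0 < 1 - q := by linarith
  induction k, hk using Nat.le_induction with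
  | base =>
    have h0 : Part (1 - q) (tr m q u w) d (2 * (k0 * (m + 1))) = 0
        ∧ surv (1 - q) (tr m q u w) d (2 * (k0 * (m + 1))) = 1 := by
      rcases Nat.eq_zero_or_pos k0 with h | h
      · subst h
        simp [Part, surv]
      · obtain ⟨k1, rfl⟩ : ∃ k1, k0 = k1 + 1 := ⟨k0 - 1, by omega⟩
        refine before hq hq1 hu hw h1 hm k1 ?_ _ le_rfl
        have : (1 / q) ^ (k1 + 1) * q = (1 / q) ^ k1 := by
          rw [pow_succ]
          field_simp
        rw [← this]
        exact hd1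
    rw [h0.1, h0.2]
    linarith
  | succ k hk ih =>
    refine le_trans ?_ ih
    have hβ := bpos hq k
    have hdβ : d ≤ (1 / q) ^ k := hd2.trans (pow_le_pow_right₀ hb1 hk)
    have hbs : (1 / q) ^ (k + 1) = (1 / q) ^ k / q := by
      rw [pow_succ]
      ring
    rcases lt_trichotomy k (k0 + J) with h | h | h
    · -- before the zigzags
      obtain ⟨r, hr⟩ : ∃ r, k0 + J = k + 1 + r := ⟨k0 + J - (k + 1), by omega⟩
      have e1 : pot (2 + D) D q Q d k0 J (k + 1) = (2 * (2 + D) * q / (1 - q) + D) * ((1 / q) ^ k / q)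
          + (1 - q) / (1 + q) * d - (q ^ 2) ^ r * hh (2 + D) D q Q ((1 / q) ^ (k0 + J)) d := by
        unfold pot
        rw [if_pos (by omega), hbs]
        congr 3
        omega
      have e2 : pot (2 + D) D q Q d k0 J k = (2 * (2 + D) * q / (1 - q) + D) * (1 / q) ^ k
          + (1 - q) / (1 + q) * d - q ^ 2 * ((q ^ 2) ^ r * hh (2 + D) D q Q ((1 / q) ^ (k0 + J)) d) := by
        unfold pot
        rw [if_pos (by omega)]
        have : k0 + J - k = r + 1 := by omega
        rw [this, pow_succ]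
        ring
      have hz : (q ^ 2) ^ r * hh (2 + D) D q Q ((1 / q) ^ (k0 + J)) d ≤ (2 + D) * (1 / q) ^ k / (1 - q) := by
        have h3 := hh_le (L := 2 + D) (D := D) (β := (1 / q) ^ (k0 + J)) hq hq1 hQ0 hQ1
          (bpos hq _).le hD0 (by linarith) hd0.le
        have h4 : 0 ≤ (q ^ 2) ^ r := by positivity
        calc (q ^ 2) ^ r * hh (2 + D) D q Q ((1 / q) ^ (k0 + J)) d
            ≤ (q ^ 2) ^ r * ((1 / q) ^ (k0 + J) * ((2 + D) * q / (1 - q))) := by gcongr
          _ = q ^ r * ((2 + D) * (1 / q) ^ k / (1 - q)) := by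
              have e5 : (1 / q) ^ (k0 + J) = (1 / q) ^ k * (1 / q) * (1 / q) ^ r := by
                rw [hr, pow_add, pow_succ]
              have e6 : (q ^ 2) ^ r = q ^ r * q ^ r := by
                rw [← mul_pow, sq]
              rw [e5, e6]
              have : q ^ r * (1 / q) ^ r = 1 := by
                rw [← mul_pow, mul_one_div_cancel hq.ne', one_pow]
              have h5 : q * (1 / q) = 1 := mul_one_div_cancel hq.ne'
              linear_combination (q ^ r * (1 / q) ^ k * ((2 + D) / (1 - q)) * q * (1 / q)) * this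
                + (q ^ r * (1 / q) ^ k * ((2 + D) / (1 - q))) * h5
          _ ≤ 1 * ((2 + D) * (1 / q) ^ k / (1 - q)) := by
              gcongr
              exact pow_le_one₀ hq.le hq1.le
          _ = _ := one_mul _
      have hdu : (1 / q) ^ k * u < d := by
        refine lt_of_le_of_lt ?_ hd1
        rw [huJ]
        have h3 : (1 / q) ^ k ≤ (1 / q) ^ (k0 + J) := pow_le_pow_right₀ hb1 (by omega)
        calc (1 / q) ^ k * q ^ (J + 1) ≤ (1 / q) ^ (k0 + J) * q ^ (J + 1) := by gcongr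
          _ = (1 / q) ^ k0 * q := by
              rw [pow_add, pow_succ]
              have : (1 / q) ^ J * q ^ J = 1 := by
                rw [← mul_pow, one_div_mul_cancel hq.ne', one_pow]
              linear_combination (1 / q) ^ k0 * q * this
      obtain ⟨i1, i2⟩ := ineq_new (L := 2 + D) (D := D) hq hq1 hD0 rfl hβ hd0 hdβ hz rfl rfl e1
      have hc := cycleB hq hq1 hu hw h1 hm k m hdu hdβ
        (fun i h3 h4 => absurd h3 (not_lt.mpr h4)) _ _ _ rfl rfl i1 i2
      rw [Nat.sub_self, mul_zero, zero_add, pow_one] at hc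
      refine hc.trans (le_of_eq ?_)
      rw [id_new (L := 2 + D) (D := D) hq hq1 rfl rfl e1, e2]
    · -- the zigzags
      subst h
      have e1 : pot (2 + D) D q Q d k0 J (k0 + J + 1)
          = 2 * (2 + D) * q / (1 - q) * ((1 / q) ^ (k0 + J) / q) + (1 - q) / (1 + q) * d := by
        unfold pot
        rw [if_neg (by omega), hbs]
      have e2 : pot (2 + D) D q Q d k0 J (k0 + J) = (2 * (2 + D) * q / (1 - q) + D) * (1 / q) ^ (k0 + J)
          + (1 - q) / (1 + q) * d - hh (2 + D) D q Q ((1 / q) ^ (k0 + J)) d := by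
        unfold pot
        rw [if_pos le_rfl, Nat.sub_self, pow_zero, one_mul]
      have hdu : (1 / q) ^ (k0 + J) * u < d := by
        refine lt_of_le_of_lt (le_of_eq ?_) hd1
        rw [huJ, pow_add, pow_succ]
        have : (1 / q) ^ J * q ^ J = 1 := by
          rw [← mul_pow, one_div_mul_cancel hq.ne', one_pow]
        linear_combination (1 / q) ^ k0 * q * this
      obtain ⟨i1, i2⟩ := ineq_zig (L := 2 + D) (D := D) hq hq1 hD0 rfl hβ hd0 hdβ rfl rfl e1
      have hc := cycleB hq hq1 hu hw h1 hm (k0 + J) n0 hdu hdβ hn _ _ _ rfl rfl i1 i2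
      refine hc.trans (le_of_eq ?_)
      have e3 : q ^ (2 * (m - n0) + 1) = q * Q := by
        rw [hQ, pow_succ]
        ring
      rw [e3, id_zig (L := 2 + D) (D := D) hq hq1 rfl rfl e1, e2]
    · -- after the zigzags
      have e1 : pot (2 + D) D q Q d k0 J (k + 1)
          = 2 * (2 + D) * q / (1 - q) * ((1 / q) ^ k / q) + (1 - q) / (1 + q) * d := by
        unfold pot
        rw [if_neg (by omega), hbs]
      have e2 : pot (2 + D) D q Q d k0 J k
          = 2 * (2 + D) * q / (1 - q) * (1 / q) ^ k + (1 - q) / (1 + q) * d := by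
        unfold pot
        rw [if_neg (by omega)]
      have hdu : d ≤ (1 / q) ^ k * u := by
        refine hd2.trans ?_
        rw [huJ]
        have h3 : (1 / q) ^ (k0 + (J + 1)) ≤ (1 / q) ^ k := pow_le_pow_right₀ hb1 (by omega)
        calc (1 / q) ^ k0 = (1 / q) ^ (k0 + (J + 1)) * q ^ (J + 1) := by
              rw [pow_add]
              have : (1 / q) ^ (J + 1) * q ^ (J + 1) = 1 := by
                rw [← mul_pow, one_div_mul_cancel hq.ne', one_pow]
              linear_combination -(1 / q) ^ k0 * this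
          _ ≤ (1 / q) ^ k * q ^ (J + 1) := by gcongr
      obtain ⟨i1, i2⟩ := ineq_old (L := 2 + D) hq hq1 (by linarith) hβ hd0 hdβ rfl rfl e1
      have hc := cycleC hq hq1 hu hw h1 hm k hd0 hdu _ _ _ rfl rfl i1 i2
      refine hc.trans (le_of_eq ?_)
      rw [id_old (L := 2 + D) hq hq1 rfl rfl e1, e2]

end Pool.Agent.KS6_42.HS
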