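import Pool.Agent.KS6_42.HS.Up5

/-!
# The upper bound, part 6: the conclusion
-/

open Filter Topology
open scoped ENNReal

namespace Pool.Agent.KS6_42.HS

variable {m : ℕ} {q u w d : ℝ}

lemma pot_bound (hq2 : 1 / 2 ≤ q) (hq1 : q < 1) (hm : 1 ≤ m) (J k0 n0 : ℕ) (huJ : u = q ^ (J + 1))
    (hu1 : u * ((m : ℝ) + 1) ≤ 1) (hu2 : q < u * ((m : ℝ) + 1)) (hw : w = (1 - q) * u ^ 2 / q)
    (hn0 : n0 ≤ m) (hd : 0 < d) (hP : (1 / q) ^ (k0 + J) * (u + w * n0) < d) :
    (1 - q) * pot (2 + w * (m * (m + 1))) (w * (m * (m + 1))) q (q ^ (2 * (m - n0))) d k0 J k0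
      ≤ (4 - 2 * (1 - q) * (m / (m + 1)) + 18 * (m + 1) * (1 - q) ^ 2) * d := by
  have hq : 0 < q := by linarith
  have hu : 0 < u := by rw [huJ]; positivity
  have hm' : (1 : ℝ) ≤ m := by exact_mod_cast hm
  obtain ⟨p, hp⟩ : ∃ p, p = 1 - q := ⟨_, rfl⟩
  have hp0 : 0 < p := by linarith
  have hp2 : p ≤ 1 / 2 := by linarith
  have hqp : q = 1 - p := by linarith
  set D : ℝ := w * (m * (m + 1)) with hDdef
  set Q : ℝ := q ^ (2 * (m - n0)) with hQdef
  rw [pot_value hq hq1 J k0 huJ D Q d, ← hp]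
  have hD : D * (1 - p) = p * (u ^ 2 * (m * (m + 1))) := by
    rw [← hqp, hDdef, hw, hp]
    field_simp
  have hQ' : Q = (1 - p) ^ (2 * (m - n0)) := by rw [hQdef, hqp]
  have hnum := numeric hp0 hp2 hn0 hu hu1 hD hQ'
  rw [← hqp] at hnum
  have hx0 : 0 < q ^ J := pow_pos hq J
  have hx1 : q ^ J ≤ 1 := pow_le_one₀ hq.le hq1.le
  have hB0 : 0 < (1 / q) ^ k0 := bpos hq k0
  have hB : (q + p * (u * n0)) * (1 / q) ^ k0 ≤ d := by
    refine le_trans (le_of_eq ?_) hP.le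
    have e3 : u = q ^ J * q := by rw [huJ, pow_succ]
    rw [hw, ← hp, pow_add, one_div_pow (n := J), e3]
    generalize (1 / q) ^ k0 = B
    generalize q ^ J = x at hx0
    field_simp
  set E : ℝ := u ^ 2 * (m * (m + 1)) with hE
  set R : ℝ := 4 + 2 * p * E - 4 * p * (u * m) + (16 * m + 16) * p ^ 2 with hR
  have hum : u * m ≤ 1 := by nlinarith
  have hE0 : 0 ≤ E := by positivity
  have hR0 : 0 ≤ R := by
    have h1 : 0 ≤ 2 * p * E := by positivity
    have h2 : 4 * p * (u * m) ≤ 4 * p * 1 := by gcongr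
    have h3 : 0 ≤ (16 * (m : ℝ) + 16) * p ^ 2 := by positivity
    rw [hR]
    linarith
  set N : ℝ := 2 * (2 + D) * q + p * D * (1 - u) - (1 - Q) * u * ((2 + D) - p * D) with hN
  have h1 : N * (1 / q) ^ k0 ≤ R * d := by
    calc N * (1 / q) ^ k0 ≤ (R * (q + p * (u * n0))) * (1 / q) ^ k0 :=
          mul_le_mul_of_nonneg_right hnum hB0.le
      _ = R * ((q + p * (u * n0)) * (1 / q) ^ k0) := by ring
      _ ≤ R * d := mul_le_mul_of_nonneg_left hB hR0
  -- the small terms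
  have hQ0 : 0 ≤ Q := by positivity
  have h2 : 1 - Q ≤ 2 * m * p := by
    have h3 := one_add_mul_le_pow (a := -p) (by linarith) (2 * (m - n0))
    have h4 : (1 + -p) = 1 - p := by ring
    rw [h4, ← hQ'] at h3
    have h5 : ((2 * (m - n0) : ℕ) : ℝ) ≤ 2 * m := by
      have : 2 * (m - n0) ≤ 2 * m := by omega
      exact_mod_cast this
    nlinarith
  have h2' : 0 ≤ 1 - Q := by
    have : Q ≤ 1 := pow_le_one₀ hq.le hq1.le
    linarith
  have h6 : p ^ 2 / (1 + q) ≤ p ^ 2 := by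
    apply div_le_self (by positivity)
    linarith
  have h7 : p * (q ^ J) ^ 2 * (1 - Q) * (2 * q / (1 + q)) ≤ 2 * m * p ^ 2 := by
    have h8 : 2 * q / (1 + q) ≤ 1 := by
      rw [div_le_one (by linarith)]
      linarith
    have h8' : 0 ≤ 2 * q / (1 + q) := by positivity
    have h9 : (q ^ J) ^ 2 ≤ 1 := pow_le_one₀ hx0.le hx1
    calc p * (q ^ J) ^ 2 * (1 - Q) * (2 * q / (1 + q)) ≤ p * 1 * (2 * m * p) * 1 := by gcongr
      _ = 2 * m * p ^ 2 := by ring
  have h10 : (p ^ 2 / (1 + q) + p * (q ^ J) ^ 2 * (1 - Q) * (2 * q / (1 + q))) * d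
      ≤ (p ^ 2 + 2 * m * p ^ 2) * d := by
    apply mul_le_mul_of_nonneg_right _ hd.le
    linarith
  -- the main term
  have h11 : R ≤ 4 - 2 * p * (m / (m + 1)) + (16 * m + 17) * p ^ 2 := by
    set r : ℝ := (m : ℝ) / (m + 1) with hr
    set v : ℝ := u * ((m : ℝ) + 1) with hv
    have hM : (m : ℝ) + 1 ≠ 0 := by positivity
    have e1 : u * m = v * r := by
      rw [hv, hr]
      field_simp
    have e2 : E = v ^ 2 * r := by
      rw [hE, hv, hr]
      field_simp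
    have hr0 : 0 ≤ r := by positivity
    have hr1 : r ≤ 1 := by
      rw [hr, div_le_one (by positivity)]
      linarith
    have e3 : R = 4 - 2 * p * r + 2 * p * r * (1 - v) ^ 2 + (16 * m + 16) * p ^ 2 := by
      rw [hR, e1, e2]
      ring
    have h12 : (1 - v) ^ 2 ≤ p ^ 2 := by
      apply pow_le_pow_left₀ (by linarith)
      linarith
    have h13 : 2 * p * r * (1 - v) ^ 2 ≤ 1 * p ^ 2 := by
      apply mul_le_mul _ h12 (by positivity) (by norm_num)
      nlinarith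
    rw [e3]
    linarith
  have h14 : (R + p ^ 2 + 2 * m * p ^ 2) * d
      ≤ (4 - 2 * p * (m / (m + 1)) + 18 * (m + 1) * p ^ 2) * d := by
    apply mul_le_mul_of_nonneg_right _ hd.le
    linarith
  linarith

lemma ratio_le (hq2 : 1 / 2 ≤ q) (hq1 : q < 1) (hm : 1 ≤ m) (J : ℕ) (huJ : u = q ^ (J + 1))
    (hu1 : u * ((m : ℝ) + 1) ≤ 1) (hu2 : q < u * ((m : ℝ) + 1)) (hw : w = (1 - q) * u ^ 2 / q) :
    IsTraj (tr m q u w) ∧ Found (1 - q) (tr m q u w) ∧ ratio (1 - q) (tr m q u w)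
      ≤ ENNReal.ofReal (4 - 2 * (1 - q) * (m / (m + 1)) + 18 * (m + 1) * (1 - q) ^ 2) := by
  classical
  have hq : 0 < q := by linarith
  have hu : 0 < u := by rw [huJ]; positivity
  have hm' : (1 : ℝ) ≤ m := by exact_mod_cast hm
  have hp : 0 < 1 - q := by linarith
  have hw0 : 0 < w := by rw [hw]; positivity
  have hx1 : q ^ J ≤ 1 := pow_le_one₀ hq.le hq1.le
  have h1 : u + w * m ≤ 1 := by
    have hum : u * m ≤ 1 := by nlinarith
    have e : u + w * m = u / q * (q + (1 - q) * (u * m)) := by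
      rw [hw]
      field_simp
    have e2 : u / q = q ^ J := by
      rw [huJ, pow_succ]
      field_simp
    rw [e, e2]
    have h3 : q + (1 - q) * (u * m) ≤ 1 := by nlinarith
    have h4 : 0 ≤ q + (1 - q) * (u * m) := by positivity
    nlinarith
  refine ⟨tr_isTraj hq hu hw0 h1 hm, tr_found hq hq1 hm, ?_⟩
  unfold ratio
  refine iSup₂_le fun d hd => ?_
  have hd0 : 0 < d := by linarith
  obtain ⟨k0, hk1, hk2⟩ := exists_k0 hq hq1 hd
  have hb1 : 1 ≤ 1 / q := by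
    rw [le_div_iff₀ hq]
    linarith
  set P : ℕ → Prop := fun n => (1 / q) ^ (k0 + J) * (u + w * n) < d with hPdef
  have hP0 : P 0 := by
    have : (1 / q) ^ (k0 + J) * u = (1 / q) ^ k0 * q := by
      rw [huJ, pow_add, pow_succ]
      have : (1 / q) ^ J * q ^ J = 1 := by
        rw [← mul_pow, one_div_mul_cancel hq.ne', one_pow]
      linear_combination (1 / q) ^ k0 * q * this
    simp only [hPdef, Nat.cast_zero, mul_zero, add_zero]
    rw [this]
    exact hk1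
  set n0 := Nat.findGreatest P m with hn0
  have hn0m : n0 ≤ m := Nat.findGreatest_le m
  have hPn : P n0 := Nat.findGreatest_spec (Nat.zero_le m) hP0
  have hgr : ∀ i : ℕ, n0 < i → i ≤ m → d ≤ (1 / q) ^ (k0 + J) * (u + w * i) := fun i hi1 hi2 =>
    not_lt.mp (Nat.findGreatest_is_greatest (P := P) hi1 hi2)
  have hstep := pot_step hq hq1 hu hw0 h1 hm J k0 n0 huJ hk1 hk2 hgr
  have hbd := pot_bound hq2 hq1 hm J k0 n0 huJ hu1 hu2 hw hn0m hd0 hPn
  set V := pot (2 + w * (m * (m + 1))) (w * (m * (m + 1))) q (q ^ (2 * (m - n0))) d k0 J k0 with hV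
  -- nonnegativity of the potential
  have hpos : ∀ k, k0 + J < k →
      0 ≤ pot (2 + w * (m * (m + 1))) (w * (m * (m + 1))) q (q ^ (2 * (m - n0))) d k0 J k := by
    intro k hk
    unfold pot
    rw [if_neg (by omega)]
    positivity
  have hE : expTime (1 - q) (tr m q u w) d ≤ ENNReal.ofReal V := by
    apply expTime_le hp.le (by linarith)
    intro n
    refine ⟨2 * ((k0 + J + 1 + n) * (m + 1)), by nlinarith, ?_⟩
    have h3 := hstep (k0 + J + 1 + n) (by omega)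
    have h4 := mul_nonneg (surv_nonneg (p := 1 - q) (by linarith) (tr m q u w) d
      (2 * ((k0 + J + 1 + n) * (m + 1)))) (hpos (k0 + J + 1 + n) (by omega))
    linarith
  calc ENNReal.ofReal (1 - q) * expTime (1 - q) (tr m q u w) d / ENNReal.ofReal d
      ≤ ENNReal.ofReal (1 - q) * ENNReal.ofReal V / ENNReal.ofReal d := by gcongr
    _ = ENNReal.ofReal ((1 - q) * V / d) := by
        rw [ENNReal.ofReal_div_of_pos hd0, ENNReal.ofReal_mul hp.le]
    _ ≤ _ := by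
        apply ENNReal.ofReal_le_ofReal
        rw [div_le_iff₀ hd0]
        exact hbd

/-- the upper bound -/
theorem upper_bound (ε : ℝ) (hε : 0 < ε) : ∃ p₀ : ℝ, 0 < p₀ ∧ p₀ < 1 ∧ ∀ p : ℝ, 0 < p → p ≤ p₀ →
    ∃ t : ℕ → ℝ, IsTraj t ∧ Found p t ∧ ratio p t ≤ ENNReal.ofReal (4 - (2 - ε) * p) := by
  obtain ⟨m, hm⟩ := exists_nat_gt (4 / ε)
  have hm0 : (0 : ℝ) < m := lt_trans (by positivity) hm
  have hm1 : 1 ≤ m := by
    have : 0 < m := by exact_mod_cast hm0
    omega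
  have hM : (0 : ℝ) < (m : ℝ) + 1 := by positivity
  refine ⟨min (1 / 2) (ε / (36 * (m + 1))), lt_min (by norm_num) (by positivity),
    lt_of_le_of_lt (min_le_left _ _) (by norm_num), fun p hp hp' => ?_⟩
  have hp2 : p ≤ 1 / 2 := hp'.trans (min_le_left _ _)
  have hp3 : p ≤ ε / (36 * (m + 1)) := hp'.trans (min_le_right _ _)
  rw [le_div_iff₀ (by positivity)] at hp3
  obtain ⟨J, hJ1, hJ2⟩ := exists_J (q := 1 - p) (by linarith) (by linarith) hm1
  obtain ⟨a, b, c⟩ := ratio_le (q := 1 - p) (u := (1 - p) ^ (J + 1)) (by linarith) (by linarith) hm1 J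
    rfl hJ1 hJ2 rfl
  rw [sub_sub_cancel] at a b c
  refine ⟨_, a, b, c.trans (ENNReal.ofReal_le_ofReal ?_)⟩
  have h1 : (m : ℝ) / (m + 1) = 1 - 1 / (m + 1) := by
    field_simp
    ring
  have h2 : 1 / ((m : ℝ) + 1) ≤ ε / 4 := by
    rw [div_le_div_iff₀ hM (by norm_num)]
    rw [div_lt_iff₀ hε] at hm
    nlinarith
  have h3 : p * (1 / ((m : ℝ) + 1)) ≤ p * (ε / 4) := mul_le_mul_of_nonneg_left h2 hp.le
  have h4 : p * (p * (36 * (m + 1))) ≤ p * ε := mul_le_mul_of_nonneg_left hp3 hp.le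
  rw [h1]
  nlinarith

end Pool.Agent.KS6_42.HS
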